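import Pool.Agent.Lib.MP_216314_pr.Abs
import Pool.Agent.Lib.MP_216314_pr.Chain
import Pool.Agent.Lib.MP_216314_pr.Cy.CyL
import Pool.Agent.Lib.MP_216314_pr.N.DDef

/-!
# The interface of the rectangle with wired left and lower sides

Rectangle `[0,a] × [0,b]`, `η = ω ∪ wsd a b`: the configuration with the left and the lower side open. The interface is the orbit of
`next η` from the corner `(2a+1, 0)` (south east corner of the vertex `(a,0)`) to the corner `(0, 2b+1)` (north west corner of `(0,b)`).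

`gam_iff`: the interface passes at the corner `p` if and only if the vertex of `p` is in the cluster of the wired sides and the plaquette of
`p` is connected to the free sides by dual edges crossing closed edges.

PROOF of `←`. Let `c` be a chain of open edges with boundary `(0,0)` and the vertex `v0` of `p0`, and `c'` a chain of dual edges crossing closed
edges, with boundary the plaquette `f0` of `p0` and an outer plaquette `g`. The function
`Q q = par c q + par c' (q - (1,1)) + [q is in the column of p0, after p0] + [1 ≤ q.1]` (number of points in which a vertical line down from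
`q` meets the closed curve made of `c`, `c'`, a segment from `v0` to `f0` passing at `p0` and a curve outside of the rectangle from `g` to
`(0,0)`) does not change along the interface, except at `p0`; it is `1` at the beginning and `0` at the end.
-/

set_option autoImplicit false

noncomputable section

namespace FKN

open Finset FKI FKP

/-- The interface passes at the corner `p`: it starts at `(2a+1,0)` and ends at `(0,2b+1)`. -/
def Gam (a b : ℕ) (ω : Finset Edge) (p : V) : Prop :=
  ∃ t : ℕ, (next (ω ∪ wsd a b))^[t] (2 * (a : ℤ) + 1, 0) = p ∧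
    ∀ i < t, (next (ω ∪ wsd a b))^[i] (2 * (a : ℤ) + 1, 0) ≠ (0, 2 * (b : ℤ) + 1)

/-- the plaquette of a corner (the plaquette with lower left vertex `(x,y)` is written `(x,y)`) -/
def fc (p : V) : V := ((p.1 - 1) / 2, (p.2 - 1) / 2)

/-- the plaquette `f` is connected to the free sides by dual edges crossing closed edges -/
def FD (a b : ℕ) (ω : Finset Edge) (f : V) : Prop :=
  ∃ g : V, (g.1 = a ∨ g.2 = b) ∧ (gr (dc (box 0 a 0 b) (ω ∪ wsd a b))).Reachable f g

/-! ### The parity function -/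

/-- parity of the number of horizontal edges of `c` below the corner `q` -/
def cpar (c : Edge → ZMod 2) (q : V) : ZMod 2 :=
  ∑ k ∈ Ico (0 : ℤ) ((q.2 + 1) / 2), c ((q.1 - 1) / 2, k, false)

theorem curve_ico (r : ℤ) (hr : 0 ≤ r) : Ico (0 : ℤ) (r + 1) = insert r (Ico (0 : ℤ) r) := by
  ext k
  simp only [mem_Ico, mem_insert]
  omega

theorem curve_two (x : ZMod 2) : x + x = 0 := by
  revert x
  decide

/-- comparison of two columns -/
theorem curve_col (c : Edge → ZMod 2) (x r : ℤ) (hr : 0 ≤ r) :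
    ∑ k ∈ Ico (0 : ℤ) r, c (x, k, false) = ∑ k ∈ Ico (0 : ℤ) r, c (x - 1, k, false) +
      (c (x, r - 1, true) + c (x, -1, true) + ∑ k ∈ Ico (0 : ℤ) r, bd c (x, k)) := by
  induction r, hr using Int.leInduction with
  | base =>
    simp only [Ico_self, sum_empty, zero_sub, zero_add, add_zero]
    exact (curve_two _).symm
  | succ r hr ih =>
    rw [curve_ico r hr, sum_insert (by simp), sum_insert (by simp), sum_insert (by simp), ih]
    simp only [bd, add_sub_cancel_right]
    have h1 := curve_two (c (x - 1, r, false))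
    have h2 := curve_two (c (x, r, true))
    have h3 := curve_two (c (x, r - 1, true))
    linear_combination -h1 - h2

theorem curve_ind (v : V) (x r : ℤ) : ∑ k ∈ Ico (0 : ℤ) r, ind v (x, k) =
    if x = v.1 ∧ 0 ≤ v.2 ∧ v.2 < r then 1 else 0 := by
  classical
  by_cases h : x = v.1
  · have h1 : ∀ k : ℤ, ind v (x, k) = if k = v.2 then 1 else 0 := by
      intro k
      unfold ind
      by_cases h2 : k = v.2
      · rw [if_pos (by rw [h, h2]), if_pos h2]
      · rw [if_neg (fun h3 => h2 (congrArg Prod.snd h3)), if_neg h2]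
    simp only [h1]
    rw [sum_ite_eq' (Ico (0 : ℤ) r) v.2 (fun _ => (1 : ZMod 2))]
    simp only [mem_Ico, h, true_and]
  · rw [if_neg (fun h3 => h h3.1)]
    refine sum_eq_zero fun k _ => ?_
    unfold ind
    rw [if_neg (fun h3 => h (congrArg Prod.fst h3))]

/-- the change of `cpar` at a horizontal step -/
theorem cpar_col (c : Edge → ZMod 2) (u w : V) (hb : ∀ v, bd c v = ind u v + ind w v) (x y r : ℤ)
    (hr : 0 ≤ r) (hy : (y + 1) / 2 = r) :
    cpar c (2 * x + 1, y) = cpar c (2 * x, y) + (c (x, r - 1, true) + c (x, -1, true) +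
      ((if x = u.1 ∧ 0 ≤ u.2 ∧ u.2 < r then 1 else 0) +
        if x = w.1 ∧ 0 ≤ w.2 ∧ w.2 < r then 1 else 0)) := by
  have e1 : (2 * x + 1 - 1) / 2 = x := by omega
  have e2 : (2 * x - 1) / 2 = x - 1 := by omega
  unfold cpar
  simp only [e1, e2, hy]
  rw [curve_col c x r hr]
  congr 2
  rw [← curve_ind u x r, ← curve_ind w x r, ← sum_add_distrib]
  exact sum_congr rfl fun k _ => hb _

theorem cpar_row (c : Edge → ZMod 2) (X x y : ℤ) (hx : (X - 1) / 2 = x) (hy : 0 ≤ y) :
    cpar c (X, 2 * y + 1) = cpar c (X, 2 * y) + c (x, y, false) := by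
  have e1 : (2 * y + 1 + 1) / 2 = y + 1 := by omega
  have e2 : (2 * y + 1) / 2 = y := by omega
  unfold cpar
  simp only [e1, e2, hx]
  rw [curve_ico y hy, sum_insert (by simp), add_comm]

theorem cpar_same (c : Edge → ZMod 2) (X Y X' Y' : ℤ) (h1 : (X - 1) / 2 = (X' - 1) / 2)
    (h2 : (Y + 1) / 2 = (Y' + 1) / 2) : cpar c (X, Y) = cpar c (X', Y') := by
  unfold cpar
  simp only [h1, h2]

/-! ### The function `QQ` -/

/-- `q` is in the column of `p0`, after `p0` -/
def lk (p0 q : V) : ZMod 2 :=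
  if q.1 = p0.1 ∧ ((p0.1 % 2 = 1 ∧ p0.2 < q.2) ∨ (p0.1 % 2 = 0 ∧ p0.2 ≤ q.2)) then 1 else 0

/-- number of crossings of a vertical line below `q` with the closed curve -/
def QQ (c c' : Edge → ZMod 2) (p0 q : V) : ZMod 2 :=
  cpar c q + cpar c' (q.1 - 1, q.2 - 1) + lk p0 q + if 1 ≤ q.1 then 1 else 0

/-- the chains of the proof -/
structure CH (a b : ℕ) (η : Finset Edge) (c c' : Edge → ZMod 2) (p0 g : V) : Prop where
  sub : ∀ x y t, (x, y, t) ∈ η →
    (t = false ∧ 0 ≤ x ∧ x < a ∧ 0 ≤ y ∧ y ≤ b) ∨ (t = true ∧ 0 ≤ x ∧ x ≤ a ∧ 0 ≤ y ∧ y < b)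
  low : ∀ x : ℤ, 0 ≤ x → x < a → (x, (0 : ℤ), false) ∈ η
  lft : ∀ y : ℤ, 0 ≤ y → y < b → ((0 : ℤ), y, true) ∈ η
  c0 : ∀ e ∉ η, c e = 0
  cb : ∀ v, bd c v = ind (0, 0) v + ind (vtx p0) v
  c0' : ∀ e ∈ η, c' (dl e) = 0
  cb' : ∀ v, bd c' v = ind (fc p0) v + ind g v
  hg : g.1 = a ∨ g.2 = b
  p1 : 1 ≤ p0.1
  p2 : 1 ≤ p0.2
  p3 : p0.1 ≤ 2 * a + 1
  p4 : p0.2 ≤ 2 * b + 1

theorem dl_f (x y : ℤ) : dl (x, y, false) = (x, y - 1, true) := rfl

theorem dl_t (x y : ℤ) : dl (x, y, true) = (x - 1, y, false) := rfl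

theorem QQ_next {a b : ℕ} {η : Finset Edge} {c c' : Edge → ZMod 2} {p0 g : V} (H : CH a b η c c' p0 g)
    {q : V} (h1 : 1 ≤ q.1) (h2 : q.1 ≤ 2 * a + 1) (h3 : 0 ≤ q.2) (h4 : q.2 ≤ 2 * b + 1)
    (hq : q ≠ p0) : QQ c c' p0 (next η q) = QQ c c' p0 q := by
  obtain ⟨hsub, hlow, hlft, hc0, hcb, hc0', hcb', hg, hp1, hp2, hp3, hp4⟩ := H
  obtain ⟨P, P'⟩ := p0
  simp only [vtx, fc] at hcb hcb' hp1 hp2 hp3 hp4
  rcases corner_cases q with ⟨x, y, rfl⟩ | ⟨x, y, rfl⟩ | ⟨x, y, rfl⟩ | ⟨x, y, rfl⟩
  · -- south east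
    simp only at h1 h2 h3 h4
    have hq' : ¬ (2 * x + 1 = P ∧ 2 * y = P') := fun h => hq (by rw [h.1, h.2])
    by_cases h : (x, y, false) ∈ η
    · have hx := hsub _ _ _ h
      simp only [true_and, Bool.false_eq_true, false_and, or_false] at hx
      rw [next_SE_open h]
      have z1 := hc0' _ h
      have z2 := hc0' _ (hlow x hx.1 hx.2.1)
      rw [dl_f] at z1 z2
      have k1 := cpar_col c' _ _ hcb' x (2 * y - 1) y (by omega) (by omega)
      rw [z1, show c' (x, -1, true) = 0 from z2] at k1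
      have k2 := cpar_same c (2 * x + 2) (2 * y) (2 * x + 1) (2 * y) (by omega) rfl
      unfold QQ lk
      simp only
      rw [k2, show (2 * x + 2 - 1 : ℤ) = 2 * x + 1 by ring, show (2 * x + 1 - 1 : ℤ) = 2 * x by ring, k1]
      generalize cpar c (2 * x + 1, 2 * y) = A
      generalize cpar c' (2 * x, 2 * y - 1) = B
      revert A B
      split_ifs <;> first | (exfalso; omega) | decide
    · rw [next_SE_closed h]
      have z1 := hc0 _ h
      have k1 := cpar_row c (2 * x + 1) x y (by omega) (by omega)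
      rw [z1, add_zero] at k1
      have k2 := cpar_same c' (2 * x) (2 * y) (2 * x) (2 * y - 1) rfl (by omega)
      unfold QQ lk
      simp only
      rw [show (2 * x + 1 - 1 : ℤ) = 2 * x by ring, show (2 * y + 1 - 1 : ℤ) = 2 * y by ring, k1, k2]
      generalize cpar c (2 * x + 1, 2 * y) = A
      generalize cpar c' (2 * x, 2 * y - 1) = B
      revert A B
      split_ifs <;> first | (exfalso; omega) | decide
  · -- north east
    simp only at h1 h2 h3 h4
    have hq' : ¬ (2 * x + 1 = P ∧ 2 * y + 1 = P') := fun h => hq (by rw [h.1, h.2])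
    by_cases h : (x, y, true) ∈ η
    · rw [next_NE_open h]
      have z1 := hc0' _ h
      rw [dl_t] at z1
      have k1 := cpar_row c' (2 * x) (x - 1) y (by omega) (by omega)
      rw [z1, add_zero] at k1
      have k2 := cpar_same c (2 * x + 1) (2 * y + 2) (2 * x + 1) (2 * y + 1) rfl (by omega)
      unfold QQ lk
      simp only
      rw [show (2 * x + 1 - 1 : ℤ) = 2 * x by ring, show (2 * y + 2 - 1 : ℤ) = 2 * y + 1 by ring,
        show (2 * y + 1 - 1 : ℤ) = 2 * y by ring, k1, k2]
      generalize cpar c (2 * x + 1, 2 * y + 1) = A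
      generalize cpar c' (2 * x, 2 * y) = B
      revert A B
      split_ifs <;> first | (exfalso; omega) | decide
    · rw [next_NE_closed h]
      have z1 := hc0 _ h
      have z2 : c (x, -1, true) = 0 := by
        refine hc0 _ fun h5 => ?_
        have h6 := hsub _ _ _ h5
        simp at h6
      have k1 := cpar_col c _ _ hcb x (2 * y + 1) (y + 1) (by omega) (by omega)
      rw [add_sub_cancel_right, z1, z2] at k1
      have k2 := cpar_same c' (2 * x) (2 * y) (2 * x - 1) (2 * y) (by omega) rfl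
      unfold QQ lk
      simp only
      rw [show (2 * x + 1 - 1 : ℤ) = 2 * x by ring, show (2 * y + 1 - 1 : ℤ) = 2 * y by ring, k1, k2]
      generalize cpar c (2 * x, 2 * y + 1) = A
      generalize cpar c' (2 * x - 1, 2 * y) = B
      revert A B
      split_ifs <;> first | (exfalso; omega) | decide
  · -- north west
    simp only at h1 h2 h3 h4
    have hq' : ¬ (2 * x = P ∧ 2 * y + 1 = P') := fun h => hq (by rw [h.1, h.2])
    by_cases h : (x - 1, y, false) ∈ η
    · have hx := hsub _ _ _ h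
      simp only [true_and, Bool.false_eq_true, false_and, or_false] at hx
      rw [next_NW_open h]
      have z1 := hc0' _ h
      have z2 := hc0' _ (hlow (x - 1) hx.1 hx.2.1)
      rw [dl_f] at z1 z2
      have k1 := cpar_col c' _ _ hcb' (x - 1) (2 * y) y (by omega) (by omega)
      rw [z1, show c' (x - 1, -1, true) = 0 from z2] at k1
      have k2 := cpar_same c (2 * x - 1) (2 * y + 1) (2 * x) (2 * y + 1) (by omega) rfl
      unfold QQ lk
      simp only
      rw [k2, show (2 * x - 1 - 1 : ℤ) = 2 * (x - 1) by ring, show (2 * x - 1 : ℤ) = 2 * (x - 1) + 1 by ring,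
        show (2 * y + 1 - 1 : ℤ) = 2 * y by ring, k1]
      generalize cpar c (2 * x, 2 * y + 1) = A
      generalize cpar c' (2 * (x - 1), 2 * y) = B
      revert A B
      split_ifs <;> first | (exfalso; omega) | decide
    · rw [next_NW_closed h]
      have z1 := hc0 _ h
      have k1 := cpar_row c (2 * x) (x - 1) y (by omega) (by omega)
      rw [z1, add_zero] at k1
      have k2 := cpar_same c' (2 * x - 1) (2 * y) (2 * x - 1) (2 * y - 1) rfl (by omega)
      unfold QQ lk
      simp only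
      rw [show (2 * y + 1 - 1 : ℤ) = 2 * y by ring, k1, k2]
      generalize cpar c (2 * x, 2 * y) = A
      generalize cpar c' (2 * x - 1, 2 * y - 1) = B
      revert A B
      split_ifs <;> first | (exfalso; omega) | decide
  · -- south west
    simp only at h1 h2 h3 h4
    have hq' : ¬ (2 * x = P ∧ 2 * y = P') := fun h => hq (by rw [h.1, h.2])
    by_cases h : (x, y - 1, true) ∈ η
    · have hx := hsub _ _ _ h
      simp only [true_and, Bool.true_eq_false, false_and, false_or] at hx
      rw [next_SW_open h]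
      have z1 := hc0' _ h
      rw [dl_t] at z1
      have k1 := cpar_row c' (2 * x - 1) (x - 1) (y - 1) (by omega) (by omega)
      rw [z1, add_zero] at k1
      have k2 := cpar_same c (2 * x) (2 * y - 1) (2 * x) (2 * y) rfl (by omega)
      unfold QQ lk
      simp only
      rw [k2, show (2 * y - 1 - 1 : ℤ) = 2 * (y - 1) by ring, show (2 * y - 1 : ℤ) = 2 * (y - 1) + 1 by ring, k1]
      generalize cpar c (2 * x, 2 * y) = A
      generalize cpar c' (2 * x - 1, 2 * (y - 1)) = B
      revert A B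
      split_ifs <;> first | (exfalso; omega) | decide
    · rw [next_SW_closed h]
      have z1 := hc0 _ h
      have z2 : c (x, -1, true) = 0 := by
        refine hc0 _ fun h5 => ?_
        have h6 := hsub _ _ _ h5
        simp at h6
      have k1 := cpar_col c _ _ hcb x (2 * y) y (by omega) (by omega)
      rw [z1, z2] at k1
      have k2 := cpar_same c' (2 * x) (2 * y - 1) (2 * x - 1) (2 * y - 1) (by omega) rfl
      unfold QQ lk
      simp only
      rw [show (2 * x + 1 - 1 : ℤ) = 2 * x by ring, k1, k2]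
      generalize cpar c (2 * x, 2 * y) = A
      generalize cpar c' (2 * x - 1, 2 * y - 1) = B
      revert A B
      split_ifs <;> first | (exfalso; omega) | decide

/-! ### The orbit -/

theorem curve_box {a b : ℕ} {x y : ℤ} {t : Bool} : (x, y, t) ∈ box 0 a 0 b ↔
    (t = false ∧ 0 ≤ x ∧ x < a ∧ 0 ≤ y ∧ y ≤ b) ∨ (t = true ∧ 0 ≤ x ∧ x ≤ a ∧ 0 ≤ y ∧ y < b) := by
  simp only [FKP.box, mem_union, mem_product, mem_Ico, mem_Icc, mem_singleton]
  tauto

theorem curve_wsd (a b : ℕ) : wsd a b ⊆ box 0 a 0 b := by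
  rintro ⟨x, y, t⟩ h
  unfold wsd at h
  simp only [FKP.box, mem_union, mem_product, mem_Ico, mem_Icc, mem_singleton] at h
  rw [curve_box]
  cases t
  · simp only [Bool.false_eq_true, and_false, or_false, and_true] at h
    left
    refine ⟨rfl, ?_⟩
    omega
  · simp only [Bool.true_eq_false, and_false, false_or, and_true] at h
    right
    refine ⟨rfl, ?_⟩
    omega

theorem curve_low (a b : ℕ) (ω : Finset Edge) (x : ℤ) (h0 : 0 ≤ x) (h1 : x < a) :
    (x, (0 : ℤ), false) ∈ ω ∪ wsd a b := by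
  refine mem_union_right _ ?_
  unfold wsd
  simp only [FKP.box, mem_union, mem_product, mem_Ico, mem_Icc, mem_singleton, and_true]
  right
  left
  omega

theorem curve_lft (a b : ℕ) (ω : Finset Edge) (y : ℤ) (h0 : 0 ≤ y) (h1 : y < b) :
    ((0 : ℤ), y, true) ∈ ω ∪ wsd a b := by
  refine mem_union_right _ ?_
  unfold wsd
  simp only [FKP.box, mem_union, mem_product, mem_Ico, mem_Icc, mem_singleton, and_true]
  left
  right
  omega

section
variable {a b : ℕ} {ω : Finset Edge}

/-- the lower side of the loop -/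
theorem strip_low (hω : ω ⊆ box 0 a 0 b) (k : ℕ) (hk : (k : ℤ) ≤ 2 * a + 1) :
    (next (ω ∪ wsd a b))^[k] (0, 0) = ((k : ℤ), 0) := by
  induction k with
  | zero => simp
  | succ k ih =>
    rw [Function.iterate_succ_apply', ih (by push_cast at hk; omega)]
    rcases Nat.even_or_odd' k with ⟨j, hj | hj⟩
    · have e1 : (((k : ℤ), 0) : V) = (2 * (j : ℤ), 2 * 0) := by rw [hj]; push_cast; rfl
      have hn : ((j : ℤ), (0 : ℤ) - 1, true) ∉ ω ∪ wsd a b := by
        intro h
        have h1 := curve_box.1 (union_subset hω (curve_wsd a b) h)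
        simp at h1
      rw [e1, next_SW_closed hn]
      ext
      · push_cast; rw [hj]; push_cast; ring
      · rfl
    · have e1 : (((k : ℤ), 0) : V) = (2 * (j : ℤ) + 1, 2 * 0) := by rw [hj]; push_cast; rfl
      have hn : ((j : ℤ), (0 : ℤ), false) ∈ ω ∪ wsd a b :=
        curve_low a b ω j (by omega) (by push_cast at hk; omega)
      rw [e1, next_SE_open hn]
      ext
      · push_cast; rw [hj]; push_cast; ring
      · rfl

/-- the left side of the loop -/
theorem strip_lft (hω : ω ⊆ box 0 a 0 b) (k : ℕ) (hk : (k : ℤ) ≤ 2 * b + 1) :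
    (next (ω ∪ wsd a b))^[k] (0, 2 * (b : ℤ) + 1) = (0, 2 * (b : ℤ) + 1 - k) := by
  induction k with
  | zero => simp
  | succ k ih =>
    rw [Function.iterate_succ_apply', ih (by push_cast at hk; omega)]
    rcases Nat.even_or_odd' k with ⟨j, hj | hj⟩
    · have e1 : ((0, 2 * (b : ℤ) + 1 - (k : ℤ)) : V) = (2 * 0, 2 * ((b : ℤ) - j) + 1) := by
        rw [hj]; push_cast; ext
        · rfl
        · simp only; ring
      have hn : ((0 : ℤ) - 1, (b : ℤ) - j, false) ∉ ω ∪ wsd a b := by
        intro h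
        have h1 := curve_box.1 (union_subset hω (curve_wsd a b) h)
        simp at h1
      rw [e1, next_NW_closed hn]
      ext
      · rfl
      · push_cast; rw [hj]; push_cast; ring
    · have e1 : ((0, 2 * (b : ℤ) + 1 - (k : ℤ)) : V) = (2 * 0, 2 * ((b : ℤ) - j)) := by
        rw [hj]; push_cast; ext
        · rfl
        · simp only; ring
      have hn : ((0 : ℤ), (b : ℤ) - j - 1, true) ∈ ω ∪ wsd a b :=
        curve_lft a b ω _ (by push_cast at hk; omega) (by omega)
      rw [e1, next_SW_open hn]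
      ext
      · rfl
      · push_cast; rw [hj]; push_cast; ring

/-- the interface arrives at its last corner -/
theorem curve_hits (hω : ω ⊆ box 0 a 0 b) :
    ∃ T, Hits (next (ω ∪ wsd a b)) (2 * (a : ℤ) + 1, 0) (0, 2 * (b : ℤ) + 1) T := by
  refine exists_hits (next_inj _) (cor a b)
    (fun p hp => next_mem_cor (union_subset hω (curve_wsd a b)) hp) ?_
    ((2 * a + 1) + (2 * b + 1)) ?_
  · unfold cor
    simp only [mem_product, mem_Icc]
    omega
  · rw [Function.iterate_add_apply, strip_lft hω (2 * b + 1) (by push_cast; omega)]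
    have e1 : ((0, 2 * (b : ℤ) + 1 - ((2 * b + 1 : ℕ) : ℤ)) : V) = (0, 0) := by
      push_cast; ext
      · rfl
      · simp only; ring
    rw [e1, strip_low hω (2 * a + 1) (by push_cast; omega)]
    push_cast
    rfl

theorem curve_cor (hω : ω ⊆ box 0 a 0 b) (t : ℕ) :
    (next (ω ∪ wsd a b))^[t] (2 * (a : ℤ) + 1, 0) ∈ cor a b := by
  induction t with
  | zero =>
    unfold cor
    simp only [Function.iterate_zero, id_eq, mem_product, mem_Icc]
    omega
  | succ t ih =>
    rw [Function.iterate_succ_apply']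
    exact next_mem_cor (union_subset hω (curve_wsd a b)) ih

/-- before the last corner the abscissa is positive -/
theorem curve_pos1 (hω : ω ⊆ box 0 a 0 b) {q : V} (hq : q ∈ cor a b) (h1 : 1 ≤ q.1)
    (hne : next (ω ∪ wsd a b) q ≠ (0, 2 * (b : ℤ) + 1)) : 1 ≤ (next (ω ∪ wsd a b) q).1 := by
  unfold cor at hq
  simp only [mem_product, mem_Icc] at hq
  rcases corner_cases q with ⟨x, y, rfl⟩ | ⟨x, y, rfl⟩ | ⟨x, y, rfl⟩ | ⟨x, y, rfl⟩
  · by_cases h : (x, y, false) ∈ ω ∪ wsd a b
    · rw [next_SE_open h]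
      simp only at h1 ⊢
      omega
    · rw [next_SE_closed h]
      exact h1
  · by_cases h : (x, y, true) ∈ ω ∪ wsd a b
    · rw [next_NE_open h]
      exact h1
    · rw [next_NE_closed h] at hne ⊢
      simp only at h1 hq ⊢
      by_contra h2
      have hx : x = 0 := by omega
      subst hx
      have hy : ¬ y < b := fun h3 => h (curve_lft a b ω y (by omega) h3)
      apply hne
      ext
      · rfl
      · simp only; omega
  · by_cases h : (x - 1, y, false) ∈ ω ∪ wsd a b
    · rw [next_NW_open h]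
      simp only at h1 ⊢
      omega
    · rw [next_NW_closed h]
      exact h1
  · by_cases h : (x, y - 1, true) ∈ ω ∪ wsd a b
    · rw [next_SW_open h]
      exact h1
    · rw [next_SW_closed h]
      simp only at h1 ⊢
      omega

theorem curve_pos2 {q : V} (hq : q ∈ cor a b) (h1 : 1 ≤ q.1) (h2 : 1 ≤ q.2) :
    1 ≤ (next (ω ∪ wsd a b) q).2 := by
  unfold cor at hq
  simp only [mem_product, mem_Icc] at hq
  rcases corner_cases q with ⟨x, y, rfl⟩ | ⟨x, y, rfl⟩ | ⟨x, y, rfl⟩ | ⟨x, y, rfl⟩
  · by_cases h : (x, y, false) ∈ ω ∪ wsd a b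
    · rw [next_SE_open h]
      exact h2
    · rw [next_SE_closed h]
      simp only at h2 ⊢
      omega
  · by_cases h : (x, y, true) ∈ ω ∪ wsd a b
    · rw [next_NE_open h]
      simp only at h2 ⊢
      omega
    · rw [next_NE_closed h]
      exact h2
  · by_cases h : (x - 1, y, false) ∈ ω ∪ wsd a b
    · rw [next_NW_open h]
      exact h2
    · rw [next_NW_closed h]
      simp only at h1 h2 hq ⊢
      by_contra h3
      have hy : y = 0 := by omega
      subst hy
      exact h (curve_low a b ω (x - 1) (by omega) (by omega))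
  · by_cases h : (x, y - 1, true) ∈ ω ∪ wsd a b
    · rw [next_SW_open h]
      simp only at h2 ⊢
      omega
    · rw [next_SW_closed h]
      exact h2

theorem curve_pos (hω : ω ⊆ box 0 a 0 b) (t : ℕ)
    (h : ∀ i ≤ t, (next (ω ∪ wsd a b))^[i] (2 * (a : ℤ) + 1, 0) ≠ (0, 2 * (b : ℤ) + 1)) :
    1 ≤ ((next (ω ∪ wsd a b))^[t] (2 * (a : ℤ) + 1, 0)).1 := by
  induction t with
  | zero =>
    simp only [Function.iterate_zero, id_eq]
    omega
  | succ t ih =>
    have h1 := h (t + 1) le_rfl
    rw [Function.iterate_succ_apply'] at h1 ⊢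
    exact curve_pos1 hω (curve_cor hω t) (ih fun i hi => h i (by omega)) h1

/-! ### The two directions -/

theorem dual_adj {F η : Finset Edge} {e : Edge} (h1 : e ∈ F) (h2 : e ∉ η) :
    (gr (dc F η)).Reachable (ea (dl e)) (eb (dl e)) := by
  apply SimpleGraph.Adj.reachable
  rw [gr, SimpleGraph.fromRel_adj]
  refine ⟨?_, Or.inl ⟨dl e, ?_, rfl, rfl⟩⟩
  · obtain ⟨x, y, t⟩ := e
    cases t <;> simp [dl, ea, eb, Prod.ext_iff]
  · unfold dc
    rw [mem_map]
    exact ⟨e, mem_sdiff.2 ⟨h1, h2⟩, rfl⟩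

theorem FD_of_adj {e : Edge} {f f' : V} (h1 : e ∈ box 0 a 0 b) (h2 : e ∉ ω ∪ wsd a b)
    (h : (ea (dl e) = f ∧ eb (dl e) = f') ∨ (ea (dl e) = f' ∧ eb (dl e) = f)) (hf : FD a b ω f) :
    FD a b ω f' := by
  obtain ⟨g, hg, hr⟩ := hf
  refine ⟨g, hg, ?_⟩
  have h3 := dual_adj h1 h2
  rcases h with ⟨h4, h5⟩ | ⟨h4, h5⟩
  · rw [h4, h5] at h3
    exact h3.symm.trans hr
  · rw [h4, h5] at h3
    exact h3.trans hr

theorem FD_next {q : V} (hq : q ∈ cor a b) (h1 : 1 ≤ q.1) (h2 : 1 ≤ q.2)
    (hf : FD a b ω (fc q)) : FD a b ω (fc (next (ω ∪ wsd a b) q)) := by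
  unfold cor at hq
  simp only [mem_product, mem_Icc] at hq
  have d0 : ∀ x : ℤ, (2 * x + 1 - 1) / 2 = x := fun x => by omega
  have d1 : ∀ x : ℤ, (2 * x - 1) / 2 = x - 1 := fun x => by omega
  have d2 : ∀ x : ℤ, (2 * x + 2 - 1) / 2 = x := fun x => by omega
  have d3 : ∀ x : ℤ, (2 * x - 1 - 1) / 2 = x - 1 := fun x => by omega
  rcases corner_cases q with ⟨x, y, rfl⟩ | ⟨x, y, rfl⟩ | ⟨x, y, rfl⟩ | ⟨x, y, rfl⟩
  · simp only [fc, d0, d1] at hf h1 h2 hq
    by_cases h : (x, y, false) ∈ ω ∪ wsd a b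
    · rw [next_SE_open h]
      simp only [fc, d1, d2]
      exact hf
    · rw [next_SE_closed h]
      simp only [fc, d0]
      by_cases hx : x < a
      · refine FD_of_adj (e := (x, y, false)) (curve_box.2 (Or.inl ⟨rfl, by omega⟩)) h (Or.inl ⟨?_, ?_⟩) hf
        · simp [dl, ea]
        · simp [dl, eb]
      · exact ⟨(x, y), Or.inl (by simp only; omega), SimpleGraph.Reachable.refl _⟩
  · simp only [fc, d0] at hf h1 h2 hq
    by_cases h : (x, y, true) ∈ ω ∪ wsd a b
    · rw [next_NE_open h]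
      simp only [fc, d0, d2]
      exact hf
    · rw [next_NE_closed h]
      simp only [fc, d0, d1]
      by_cases hy : y < b
      · refine FD_of_adj (e := (x, y, true)) (curve_box.2 (Or.inr ⟨rfl, by omega⟩)) h (Or.inr ⟨?_, ?_⟩) hf
        · simp [dl, ea]
        · simp [dl, eb]
      · exact ⟨(x - 1, y), Or.inr (by simp only; omega), SimpleGraph.Reachable.refl _⟩
  · simp only [fc, d0, d1] at hf h1 h2 hq
    by_cases h : (x - 1, y, false) ∈ ω ∪ wsd a b
    · rw [next_NW_open h]
      simp only [fc, d0, d3]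
      exact hf
    · rw [next_NW_closed h]
      simp only [fc, d1]
      refine FD_of_adj (e := (x - 1, y, false)) (curve_box.2 (Or.inl ⟨rfl, by omega⟩)) h (Or.inr ⟨?_, ?_⟩) hf
      · simp [dl, ea]
      · simp [dl, eb]
  · simp only [fc, d1] at hf h1 h2 hq
    by_cases h : (x, y - 1, true) ∈ ω ∪ wsd a b
    · rw [next_SW_open h]
      simp only [fc, d1, d3]
      exact hf
    · rw [next_SW_closed h]
      simp only [fc, d0, d1]
      refine FD_of_adj (e := (x, y - 1, true)) (curve_box.2 (Or.inr ⟨rfl, by omega⟩)) h (Or.inl ⟨?_, ?_⟩) hf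
      · simp [dl, ea]
      · simp [dl, eb]

theorem reach_iter (η : Finset Edge) (q : V) (t : ℕ) : (gr η).Reachable (vtx q) (vtx ((next η)^[t] q)) := by
  induction t with
  | zero => exact SimpleGraph.Reachable.refl _
  | succ t ih =>
    rw [Function.iterate_succ_apply']
    exact ih.trans (reach_next η _)

theorem WC_iff (hω : ω ⊆ box 0 a 0 b) (v : V) : WC a b v ω ↔ (gr (ω ∪ wsd a b)).Reachable (0, 0) v := by
  unfold WC Conn
  rw [inter_eq_left.2 (union_subset hω (curve_wsd a b))]

theorem gam_fwd (hω : ω ⊆ box 0 a 0 b) {p : V} (hp1 : 1 ≤ p.1) (hp2 : 1 ≤ p.2) (h : Gam a b ω p) :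
    WC a b (vtx p) ω ∧ FD a b ω (fc p) := by
  obtain ⟨t, ht, hne⟩ := h
  constructor
  · rw [WC_iff hω, ← ht]
    have h1 := reach_iter (ω ∪ wsd a b) (0, 0) (2 * a + 1)
    rw [strip_low hω (2 * a + 1) (by push_cast; omega)] at h1
    push_cast at h1
    exact SimpleGraph.Reachable.trans h1 (reach_iter _ _ t)
  · have key : ∀ s : ℕ, s ≤ t → 1 ≤ s → 1 ≤ ((next (ω ∪ wsd a b))^[s] (2 * (a : ℤ) + 1, 0)).2 ∧
        FD a b ω (fc ((next (ω ∪ wsd a b))^[s] (2 * (a : ℤ) + 1, 0))) := by
      intro s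
      induction s with
      | zero => intro _ h; omega
      | succ s ih =>
        intro hs _
        rcases Nat.eq_zero_or_pos s with h0 | h0
        · subst h0
          have hn : ((a : ℤ), (0 : ℤ), false) ∉ ω ∪ wsd a b := by
            intro h
            have h1 := curve_box.1 (union_subset hω (curve_wsd a b) h)
            simp at h1
          have h1 : next (ω ∪ wsd a b) (2 * (a : ℤ) + 1, 0) = (2 * (a : ℤ) + 1, 1) := next_SE_closed hn
          simp only [zero_add, Function.iterate_one]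
          rw [h1]
          refine ⟨le_rfl, ((a : ℤ), 0), Or.inl rfl, ?_⟩
          have e1 : fc (2 * (a : ℤ) + 1, 1) = ((a : ℤ), 0) := by
            unfold fc
            simp only
            ext
            · simp only; omega
            · simp
          rw [e1]
        · obtain ⟨i1, i2⟩ := ih (by omega) h0
          have hpos := curve_pos hω s fun i hi => hne i (by omega)
          rw [Function.iterate_succ_apply']
          exact ⟨curve_pos2 (curve_cor hω s) hpos i1, FD_next (curve_cor hω s) hpos i1 i2⟩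
    rw [← ht]
    refine (key t le_rfl ?_).2
    rcases Nat.eq_zero_or_pos t with h0 | h0
    · exfalso
      subst h0
      rw [← ht] at hp2
      simp at hp2
    · exact h0

theorem gam_bwd (hω : ω ⊆ box 0 a 0 b) {p : V} (hp1 : 1 ≤ p.1) (hp2 : 1 ≤ p.2)
    (hp3 : p.1 ≤ 2 * a + 1) (hp4 : p.2 ≤ 2 * b + 1) (h : WC a b (vtx p) ω) (hf : FD a b ω (fc p)) :
    Gam a b ω p := by
  rw [WC_iff hω] at h
  obtain ⟨c, hc0, hcb⟩ := pth h
  obtain ⟨g, hg, hr⟩ := hf
  obtain ⟨c', hc0', hcb'⟩ := pth hr
  have H : CH a b (ω ∪ wsd a b) c c' p g := by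
    refine ⟨fun x y t h1 => curve_box.1 (union_subset hω (curve_wsd a b) h1), curve_low a b ω,
      curve_lft a b ω, hc0, hcb, fun e he => ?_, hcb', hg, hp1, hp2, hp3, hp4⟩
    refine hc0' _ fun h1 => ?_
    unfold dc at h1
    rw [mem_map] at h1
    obtain ⟨e', he', h2⟩ := h1
    have h3 : e' = e := dl.injective h2
    rw [h3] at he'
    exact (mem_sdiff.1 he').2 he
  obtain ⟨T, hT1, hT2⟩ := curve_hits hω
  by_contra hcon
  have hno : ∀ i < T, (next (ω ∪ wsd a b))^[i] (2 * (a : ℤ) + 1, 0) ≠ p := fun i hi h1 =>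
    hcon ⟨i, h1, fun j hj => hT2 j (by omega)⟩
  have hQ : ∀ i ≤ T, QQ c c' p ((next (ω ∪ wsd a b))^[i] (2 * (a : ℤ) + 1, 0)) =
      QQ c c' p (2 * (a : ℤ) + 1, 0) := by
    intro i
    induction i with
    | zero => intro _; rfl
    | succ i ih =>
      intro hi
      rw [Function.iterate_succ_apply', ← ih (by omega)]
      have h1 := curve_cor hω (a := a) (b := b) i
      unfold cor at h1
      simp only [mem_product, mem_Icc] at h1
      exact QQ_next H (curve_pos hω i fun j hj => hT2 j (by omega)) h1.1.2 h1.2.1 h1.2.2 (hno i (by omega))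
  have h1 := hQ T le_rfl
  rw [hT1] at h1
  -- the value at the beginning
  have h2 : QQ c c' p (2 * (a : ℤ) + 1, 0) = 1 := by
    have s1 : cpar c (2 * (a : ℤ) + 1, 0) = 0 := by
      unfold cpar
      rw [show (((2 * (a : ℤ) + 1, 0) : V).2 + 1) / 2 = 0 by norm_num, Ico_self, sum_empty]
    have s2 : cpar c' (2 * (a : ℤ) + 1 - 1, 0 - 1) = 0 := by
      unfold cpar
      rw [show (((2 * (a : ℤ) + 1 - 1, 0 - 1) : V).2 + 1) / 2 = 0 by norm_num, Ico_self, sum_empty]
    unfold QQ lk
    simp only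
    rw [s1, s2, if_neg (by omega), if_pos (by omega)]
    simp
  -- the value at the end
  have h3 : QQ c c' p (0, 2 * (b : ℤ) + 1) = 0 := by
    unfold QQ lk cpar
    have e1 : ((2 * (b : ℤ) + 1) + 1) / 2 = b + 1 := by omega
    have e2 : ((2 * (b : ℤ) + 1) - 1 + 1) / 2 = b := by omega
    have e3 : ((0 : ℤ) - 1) / 2 = -1 := by norm_num
    have e4 : ((0 : ℤ) - 1 - 1) / 2 = -1 := by norm_num
    simp only [e1, e2, e3, e4]
    have s1 : ∑ k ∈ Ico (0 : ℤ) ((b : ℤ) + 1), c (-1, k, false) = 0 := by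
      refine sum_eq_zero fun k _ => hc0 _ fun h5 => ?_
      have h6 := curve_box.1 (union_subset hω (curve_wsd a b) h5)
      simp at h6
    have s2 : ∑ k ∈ Ico (0 : ℤ) (b : ℤ), c' (-1, k, false) = 0 := by
      refine sum_eq_zero fun k hk => ?_
      rw [mem_Ico] at hk
      have h5 := H.c0' _ (H.lft k hk.1 hk.2)
      rw [dl_t] at h5
      exact h5
    rw [s1, s2, if_neg (by omega), if_neg (by norm_num)]
    simp
  rw [h2, h3] at h1
  exact zero_ne_one h1

/-- The interface passes at the corner `p` if and only if the vertex of `p` is in the wired cluster and the plaquette of `p` is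
connected to the free sides in the dual configuration. -/
theorem gam_iff (hω : ω ⊆ box 0 a 0 b) {p : V} (hp1 : 1 ≤ p.1) (hp2 : 1 ≤ p.2)
    (hp3 : p.1 ≤ 2 * a + 1) (hp4 : p.2 ≤ 2 * b + 1) :
    Gam a b ω p ↔ WC a b (vtx p) ω ∧ FD a b ω (fc p) :=
  ⟨gam_fwd hω hp1 hp2, fun h => gam_bwd hω hp1 hp2 hp3 hp4 h.1 h.2⟩

/-- north east corners -/
theorem gam_ne (hω : ω ⊆ box 0 a 0 b) {v : V} (h0 : 0 ≤ v.1) (h1 : v.1 ≤ a) (h2 : 0 ≤ v.2)
    (h3 : v.2 ≤ b) : Gam a b ω (2 * v.1 + 1, 2 * v.2 + 1) ↔ WC a b v ω ∧ FD a b ω v := by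
  have e1 : vtx (2 * v.1 + 1, 2 * v.2 + 1) = v := by
    unfold vtx
    simp only
    ext
    · simp only; omega
    · simp only; omega
  have e2 : fc (2 * v.1 + 1, 2 * v.2 + 1) = v := by
    unfold fc
    simp only
    ext
    · simp only; omega
    · simp only; omega
  have h := gam_iff (a := a) (b := b) hω (p := (2 * v.1 + 1, 2 * v.2 + 1)) (by simp only; omega)
    (by simp only; omega) (by simp only; omega) (by simp only; omega)
  rw [e1, e2] at h
  exact h

/-- the corners of the interface -/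
theorem gam_range (hω : ω ⊆ box 0 a 0 b) {p : V} (h : Gam a b ω p) : p = (2 * (a : ℤ) + 1, 0) ∨
    p = (0, 2 * (b : ℤ) + 1) ∨ (1 ≤ p.1 ∧ p.1 ≤ 2 * a + 1 ∧ 1 ≤ p.2 ∧ p.2 ≤ 2 * b + 1) := by
  obtain ⟨t, ht, hne⟩ := h
  by_cases h1 : p = (0, 2 * (b : ℤ) + 1)
  · exact Or.inr (Or.inl h1)
  have hne' : ∀ i ≤ t, (next (ω ∪ wsd a b))^[i] (2 * (a : ℤ) + 1, 0) ≠ (0, 2 * (b : ℤ) + 1) := by
    intro i hi
    rcases Nat.lt_or_ge i t with h2 | h2
    · exact hne i h2
    · rw [show i = t by omega, ht]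
      exact h1
  have key : ∀ s : ℕ, s ≤ t → 1 ≤ s →
      1 ≤ ((next (ω ∪ wsd a b))^[s] (2 * (a : ℤ) + 1, 0)).2 := by
    intro s
    induction s with
    | zero => intro _ h; omega
    | succ s ih =>
      intro hs _
      rcases Nat.eq_zero_or_pos s with h0 | h0
      · subst h0
        have hn : ((a : ℤ), (0 : ℤ), false) ∉ ω ∪ wsd a b := by
          intro h
          have h1 := curve_box.1 (union_subset hω (curve_wsd a b) h)
          simp at h1
        have h1 : next (ω ∪ wsd a b) (2 * (a : ℤ) + 1, 0) = (2 * (a : ℤ) + 1, 1) := next_SE_closed hn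
        simp only [zero_add, Function.iterate_one]
        rw [h1]
      · rw [Function.iterate_succ_apply']
        exact curve_pos2 (curve_cor hω s) (curve_pos hω s fun i hi => hne' i (by omega))
          (ih (by omega) h0)
  rcases Nat.eq_zero_or_pos t with h0 | h0
  · left
    rw [← ht, h0]
    rfl
  · right
    right
    have h2 := curve_pos hω t hne'
    have h3 := key t le_rfl h0
    have h4 := curve_cor hω (a := a) (b := b) t
    rw [ht] at h2 h3 h4
    unfold cor at h4
    simp only [mem_product, mem_Icc] at h4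
    exact ⟨h2, h4.1.2, h3, h4.2.2⟩

end

end FKN
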