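import Pool.Agent.Lib.MP_216314_pr.I.DimP

/-!
# The rescaled interface: upper bound for the dimension of the limits
-/

set_option autoImplicit false

noncomputable section

namespace DimLim

open MeasureTheory Filter Topology Set ENNReal NNReal TopologicalSpace Metric FKI FKP

/-- the weight `(k+1)^(-1/4)` -/
def gw (k : ℕ) : ℝ := ((k : ℝ) + 1) ^ (-(1 / 4 : ℝ))

theorem gw_nonneg (k : ℕ) : 0 ≤ gw k := Real.rpow_nonneg (by positivity) _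

theorem gw_anti {k l : ℕ} (h : k ≤ l) : gw l ≤ gw k := by
  unfold gw
  refine Real.rpow_le_rpow_of_nonpos (by positivity) ?_ (by norm_num)
  have : (k : ℝ) ≤ l := by exact_mod_cast h
  linarith

theorem sum_gw {P : ℕ} {T : ℝ} (hT : ((P : ℝ) + 1) ≤ T) :
    ∑ k ∈ Finset.range (P + 1), gw k ≤ 4 / 3 * T ^ (3 / 4 : ℝ) := by
  have h1 := sum_rpow (s := 1 / 4) (by norm_num) (by norm_num) (P + 1)
  have h2 : (((P + 1 : ℕ) : ℝ)) ^ (1 - 1 / 4 : ℝ) ≤ T ^ (3 / 4 : ℝ) := by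
    rw [show (1 - 1 / 4 : ℝ) = 3 / 4 by norm_num]
    refine Real.rpow_le_rpow (by positivity) ?_ (by norm_num)
    push_cast
    exact hT
  unfold gw
  calc _ ≤ (1 - 1 / 4 : ℝ)⁻¹ * ((P + 1 : ℕ) : ℝ) ^ (1 - 1 / 4 : ℝ) := h1
    _ ≤ (1 - 1 / 4 : ℝ)⁻¹ * T ^ (3 / 4 : ℝ) := by gcongr
    _ = 4 / 3 * T ^ (3 / 4 : ℝ) := by norm_num

theorem sum_gw_rev {P : ℕ} {T : ℝ} (hT : ((P : ℝ) + 1) ≤ T) :
    ∑ k ∈ Finset.range (P + 1), gw (P - k) ≤ 4 / 3 * T ^ (3 / 4 : ℝ) := by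
  have h1 := Finset.sum_range_reflect (fun k => gw k) (P + 1)
  simp only [Nat.add_sub_cancel] at h1
  rw [h1]
  exact sum_gw hT

/-- the weight of a cell of the grid -/
def gc (P Q p q : ℕ) : ℝ := gw p + gw (P - p) + gw q + gw (Q - q)

theorem sum_gc {P Q : ℕ} {T : ℝ} (hP : ((P : ℝ) + 1) ≤ T) (hQ : ((Q : ℝ) + 1) ≤ T) :
    ∑ i : Fin (P + 1) × Fin (Q + 1), gc P Q i.1 i.2 ≤ 6 * T ^ (7 / 4 : ℝ) := by
  have hT : 0 < T := lt_of_lt_of_le (by positivity) hP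
  rw [Fintype.sum_prod_type]
  simp only [gc]
  rw [Fin.sum_univ_eq_sum_range (fun p => ∑ q : Fin (Q + 1), (gw p + gw (P - p) + gw (q : ℕ) + gw (Q - q))) (P + 1)]
  have h1 : ∀ p, ∑ q : Fin (Q + 1), (gw p + gw (P - p) + gw (q : ℕ) + gw (Q - q)) =
      ((Q : ℝ) + 1) * (gw p + gw (P - p)) + (∑ q ∈ Finset.range (Q + 1), gw q + ∑ q ∈ Finset.range (Q + 1), gw (Q - q)) := by
    intro p
    rw [Fin.sum_univ_eq_sum_range (fun q => gw p + gw (P - p) + gw q + gw (Q - q)) (Q + 1),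
      Finset.sum_add_distrib, Finset.sum_add_distrib, Finset.sum_const, Finset.card_range, nsmul_eq_mul]
    push_cast
    ring
  rw [Finset.sum_congr rfl fun p _ => h1 p, Finset.sum_add_distrib, ← Finset.mul_sum, Finset.sum_add_distrib,
    Finset.sum_const, Finset.card_range, nsmul_eq_mul]
  have h2 := sum_gw hP
  have h3 := sum_gw_rev hP
  have h4 := sum_gw hQ
  have h5 := sum_gw_rev hQ
  have h6 : T ^ (7 / 4 : ℝ) = T * T ^ (3 / 4 : ℝ) := by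
    rw [show (7 / 4 : ℝ) = 1 + 3 / 4 by norm_num, Real.rpow_add hT, Real.rpow_one]
  have h7 : 0 ≤ T ^ (3 / 4 : ℝ) := by positivity
  rw [h6]
  push_cast
  have h8 : ((Q : ℝ) + 1) * (∑ k ∈ Finset.range (P + 1), gw k + ∑ k ∈ Finset.range (P + 1), gw (P - k)) ≤
      T * (8 / 3 * T ^ (3 / 4 : ℝ)) :=
    mul_le_mul hQ (by linarith) (add_nonneg (Finset.sum_nonneg fun _ _ => gw_nonneg _)
      (Finset.sum_nonneg fun _ _ => gw_nonneg _)) hT.le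
  have h9 : ((P : ℝ) + 1) * (∑ q ∈ Finset.range (Q + 1), gw q + ∑ q ∈ Finset.range (Q + 1), gw (Q - q)) ≤
      T * (8 / 3 * T ^ (3 / 4 : ℝ)) :=
    mul_le_mul hP (by linarith) (add_nonneg (Finset.sum_nonneg fun _ _ => gw_nonneg _)
      (Finset.sum_nonneg fun _ _ => gw_nonneg _)) hT.le
  have h10 : 0 ≤ T * T ^ (3 / 4 : ℝ) := by positivity
  linarith

/-- the vertices of the set lie in the box -/
def InBox (Vis : ℕ → ℕ → Finset Edge → Finset V) : Prop :=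
  ∀ a b ω, ∀ w ∈ Vis a b ω, 0 ≤ w.1 ∧ w.1 ≤ a ∧ 0 ≤ w.2 ∧ w.2 ≤ b

section

variable {A B : ℝ} (hA : 0 ≤ A) (hB : 0 ≤ B)

theorem dist_proj_emb {A x δ : ℝ} (hA : 0 ≤ A) (hδ : 0 < δ) {w : ℤ} (h0 : 0 ≤ w) (h1 : w ≤ (⌊A / δ⌋₊ : ℤ))
    (hx0 : 0 ≤ x) (hx1 : x ≤ A) :
    dist (Set.projIcc 0 A hA (δ * w)) (Set.projIcc 0 A hA x) = |δ * w - x| := by
  have h2 : δ * w ∈ Set.Icc (0 : ℝ) A := by
    have h3 : (w : ℝ) ≤ ⌊A / δ⌋₊ := by exact_mod_cast h1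
    have h4 : (⌊A / δ⌋₊ : ℝ) ≤ A / δ := Nat.floor_le (by positivity)
    constructor
    · have : (0 : ℝ) ≤ w := by exact_mod_cast h0
      positivity
    · have h5 : (w : ℝ) ≤ A / δ := h3.trans h4
      rw [le_div_iff₀ hδ] at h5
      linarith
  rw [Set.projIcc_of_mem hA h2, Set.projIcc_of_mem hA (⟨hx0, hx1⟩ : x ∈ Set.Icc (0 : ℝ) A)]
  rfl

/-- integer rounding -/
theorem round_le {x y : ℝ} {w : ℤ} (hx : 0 ≤ x) (h : |(w : ℝ) - x| < y) :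
    |w - (⌊x⌋₊ : ℤ)| ≤ ((⌊y⌋₊ + 1 : ℕ) : ℤ) := by
  have h1 := Nat.floor_le hx
  have h2 := Nat.lt_floor_add_one x
  have h3 := Nat.lt_floor_add_one y
  rw [abs_lt] at h
  rw [abs_le]
  push_cast
  constructor
  · have : (-((⌊y⌋₊ : ℝ) + 1)) < (w : ℝ) - ⌊x⌋₊ + 0 := by linarith
    have h4 : (-((⌊y⌋₊ : ℤ) + 1)) < w - (⌊x⌋₊ : ℤ) := by
      have h5 : (((-((⌊y⌋₊ : ℤ) + 1)) : ℤ) : ℝ) < ((w - (⌊x⌋₊ : ℤ) : ℤ) : ℝ) := by
        push_cast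
        linarith
      exact_mod_cast h5
    omega
  · have h4 : w - (⌊x⌋₊ : ℤ) < (⌊y⌋₊ : ℤ) + 2 := by
      have h5 : ((w - (⌊x⌋₊ : ℤ) : ℤ) : ℝ) < ((((⌊y⌋₊ : ℤ) + 2) : ℤ) : ℝ) := by
        push_cast
        linarith
      exact_mod_cast h5
    omega

/-- scaling of a distance -/
theorem scale_lt {δ x ε : ℝ} (hδ : 0 < δ) {w : ℤ} (h : |δ * w - x| < ε) : |(w : ℝ) - x / δ| < ε / δ := by
  have h8 : (w : ℝ) - x / δ = (δ * w - x) / δ := by field_simp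
  rw [h8, abs_div, abs_of_pos hδ]
  exact div_lt_div_of_pos_right h hδ

/-- a visited ball of the grid gives a visited vertex -/
theorem near_of_meet {Vis : ℕ → ℕ → Finset Edge → Finset V} (hin : InBox Vis) {δ : ℝ} (hδ : 0 < δ)
    {x y ε : ℝ} (hx0 : ε ≤ x) (hx1 : x ≤ A) (hy0 : 0 ≤ y) (hy1 : y ≤ B) (hε : 0 < ε) {ω : Finset Edge}
    (h : embS hA hB δ (Vis ⌊A / δ⌋₊ ⌊B / δ⌋₊ ω) ∈
      mt (ball ((Set.projIcc 0 A hA x, Set.projIcc 0 B hB y) : Rect A B) ε)) :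
    ∃ w ∈ Vis ⌊A / δ⌋₊ ⌊B / δ⌋₊ ω, sd ((⌊x / δ⌋₊ : ℤ), (⌊y / δ⌋₊ : ℤ)) w ≤ ((⌊ε / δ⌋₊ + 1 : ℕ) : ℤ) := by
  obtain ⟨z, hz1, hz2⟩ := h
  have key : ∀ w : V, 0 ≤ w.1 → w.1 ≤ (⌊A / δ⌋₊ : ℤ) → 0 ≤ w.2 → w.2 ≤ (⌊B / δ⌋₊ : ℤ) →
      emb hA hB δ w ∈ ball ((Set.projIcc 0 A hA x, Set.projIcc 0 B hB y) : Rect A B) ε →
      |(w.1 : ℝ) - x / δ| < ε / δ ∧ |(w.2 : ℝ) - y / δ| < ε / δ := by
    intro w h1 h2 h3 h4 h5
    rw [Metric.mem_ball, Prod.dist_eq, max_lt_iff] at h5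
    obtain ⟨h6, h7⟩ := h5
    simp only [emb] at h6 h7
    rw [dist_proj_emb hA hδ h1 h2 (hε.le.trans hx0) hx1] at h6
    rw [dist_proj_emb hB hδ h3 h4 hy0 hy1] at h7
    exact ⟨scale_lt hδ h6, scale_lt hδ h7⟩
  rcases (Vis ⌊A / δ⌋₊ ⌊B / δ⌋₊ ω).eq_empty_or_nonempty with he | hne
  · exfalso
    have h1 : ((embS hA hB δ (Vis ⌊A / δ⌋₊ ⌊B / δ⌋₊ ω) : NonemptyCompacts (Rect A B)) : Set (Rect A B)) =
        {emb hA hB δ (0, 0)} := by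
      show (if (Vis ⌊A / δ⌋₊ ⌊B / δ⌋₊ ω).Nonempty then _ else _) = _
      rw [if_neg (by rw [he]; exact Finset.not_nonempty_empty)]
    rw [h1, mem_singleton_iff] at hz1
    rw [hz1] at hz2
    obtain ⟨h2, -⟩ := key (0, 0) le_rfl (by positivity) le_rfl (by positivity) hz2
    simp only [Int.cast_zero, zero_sub, abs_neg] at h2
    rw [abs_of_nonneg (div_nonneg (hε.le.trans hx0) hδ.le)] at h2
    exact absurd ((div_lt_div_iff_of_pos_right hδ).1 h2) (not_lt.2 hx0)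
  · rw [embS_coe hA hB hne] at hz1
    obtain ⟨w, hw, rfl⟩ := hz1
    have hw' : w ∈ Vis ⌊A / δ⌋₊ ⌊B / δ⌋₊ ω := hw
    obtain ⟨h1, h2, h3, h4⟩ := hin _ _ _ w hw'
    obtain ⟨h5, h6⟩ := key w h1 h2 h3 h4 hz2
    refine ⟨w, hw', sd_le.2 ?_⟩
    have h7 := round_le (div_nonneg (hε.le.trans hx0) hδ.le) h5
    have h8 := round_le (div_nonneg hy0 hδ.le) h6
    rw [abs_le] at h7 h8
    constructor <;> constructor <;> simp only <;> omega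

end

end DimLim
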