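import Pool.Agent.Lib.MP_216314_pr.I.DimA

/-!
# The rescaled interface: upper bound for the dimension of the limits, conclusion
-/

set_option autoImplicit false

noncomputable section

namespace DimLim

open MeasureTheory Filter Topology Set ENNReal NNReal TopologicalSpace Metric FKI FKP

section

variable {A B : ℝ}

/-- the number of cells in one direction -/
def nc (A : ℝ) (j : ℕ) : ℕ := ⌊A * 2 ^ j⌋₊

theorem nc_le {A : ℝ} (hA : 0 ≤ A) (j : ℕ) : (nc A j : ℝ) * (2⁻¹ : ℝ) ^ j ≤ A := by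
  have h1 : (nc A j : ℝ) ≤ A * 2 ^ j := Nat.floor_le (by positivity)
  have h2 : (0 : ℝ) < 2 ^ j := by positivity
  rw [inv_pow, mul_inv_le_iff₀ h2]
  exact h1

variable (hA : 0 ≤ A) (hB : 0 ≤ B)

/-- the balls of the grid -/
def gb (j : ℕ) (i : Fin (nc A j + 1) × Fin (nc B j + 1)) : Set (Rect A B) :=
  ball ((Set.projIcc 0 A hA (((i.1 : ℕ) : ℝ) * (2⁻¹ : ℝ) ^ j), Set.projIcc 0 B hB (((i.2 : ℕ) : ℝ) * (2⁻¹ : ℝ) ^ j)) : Rect A B)
    ((2⁻¹ : ℝ) ^ j)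

theorem gb_diam (j : ℕ) (i : Fin (nc A j + 1) × Fin (nc B j + 1)) :
    ediam (gb hA hB j i) ≤ ((2 : ℝ≥0) : ℝ≥0∞) * (2 : ℝ≥0∞)⁻¹ ^ j := by
  unfold gb
  rw [← Metric.eball_ofReal]
  refine ediam_eball_le.trans ?_
  rw [ENNReal.ofReal_pow (by norm_num), ENNReal.ofReal_inv_of_pos (by norm_num)]
  simp

theorem gb_cover (j : ℕ) : ⋃ i, gb hA hB j i = univ := by
  have h2 : (0 : ℝ) < 2 ^ j := by positivity
  have aux : ∀ {A : ℝ} (hA : 0 ≤ A) (x : Set.Icc (0 : ℝ) A), ∃ p : Fin (nc A j + 1),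
      dist x (Set.projIcc 0 A hA (((p : ℕ) : ℝ) * (2⁻¹ : ℝ) ^ j)) < (2⁻¹ : ℝ) ^ j := by
    intro A hA x
    obtain ⟨x, hx0, hx1⟩ := x
    have h3 : ⌊x * 2 ^ j⌋₊ ≤ nc A j := Nat.floor_le_floor (by gcongr)
    refine ⟨⟨⌊x * 2 ^ j⌋₊, by omega⟩, ?_⟩
    have h4 : (⌊x * 2 ^ j⌋₊ : ℝ) ≤ x * 2 ^ j := Nat.floor_le (by positivity)
    have h5 := Nat.lt_floor_add_one (x * 2 ^ j)
    have h6 : (⌊x * 2 ^ j⌋₊ : ℝ) * (2⁻¹ : ℝ) ^ j ≤ x := by
      rw [inv_pow, mul_inv_le_iff₀ h2]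
      exact h4
    have h7 : x < (⌊x * 2 ^ j⌋₊ : ℝ) * (2⁻¹ : ℝ) ^ j + (2⁻¹ : ℝ) ^ j := by
      rw [← add_one_mul, inv_pow, lt_mul_inv_iff₀ h2]
      exact h5
    have h8 : (⌊x * 2 ^ j⌋₊ : ℝ) * (2⁻¹ : ℝ) ^ j ∈ Set.Icc (0 : ℝ) A := ⟨by positivity, h6.trans hx1⟩
    rw [Set.projIcc_of_mem hA h8, Subtype.dist_eq, Real.dist_eq, abs_lt]
    constructor <;> simp only <;> linarith
  refine eq_univ_of_forall fun x => ?_
  obtain ⟨p, hp⟩ := aux hA x.1
  obtain ⟨q, hq⟩ := aux hB x.2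
  refine mem_iUnion.2 ⟨(p, q), ?_⟩
  unfold gb
  rw [Metric.mem_ball, Prod.dist_eq]
  exact max_lt hp hq

variable [MeasurableSpace (NonemptyCompacts (Rect A B))] [BorelSpace (NonemptyCompacts (Rect A B))]

open Classical in
/-- the bound for one cell of the grid -/
theorem cell_bound (hA' : 0 < A) (hB' : 0 < B) {Vis : ℕ → ℕ → Finset Edge → Finset V} (hU : HypU Vis)
    (hin : InBox Vis) : ∃ C : ℝ, 0 < C ∧ ∀ j : ℕ, ∃ δ0 : ℝ, 0 < δ0 ∧ ∀ δ : ℝ, 0 < δ → δ < δ0 →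
      ∀ i : Fin (nc A j + 1) × Fin (nc B j + 1),
      (law hA hB Vis δ : Measure (NonemptyCompacts (Rect A B))) (mt (gb hA hB j i)) ≤
        ENNReal.ofReal (C * gc (nc A j) (nc B j) i.1 i.2) := by
  obtain ⟨K, hK1, hK2⟩ : ∃ K : ℕ, 2 * A / B ≤ K ∧ 2 * B / A ≤ K := by
    obtain ⟨K1, h1⟩ := exists_nat_ge (2 * A / B)
    obtain ⟨K2, h2⟩ := exists_nat_ge (2 * B / A)
    refine ⟨max K1 K2, h1.trans ?_, h2.trans ?_⟩
    · exact_mod_cast le_max_left K1 K2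
    · exact_mod_cast le_max_right K1 K2
  obtain ⟨C, hC, hCU⟩ := hU K
  refine ⟨2 * C + 2, by linarith, fun j => ?_⟩
  obtain ⟨ε, hε⟩ : ∃ ε : ℝ, ε = (2⁻¹ : ℝ) ^ j := ⟨_, rfl⟩
  have hε0 : 0 < ε := by rw [hε]; positivity
  have hp0 : 0 < 1 + 2 / ε + 2 / A + 2 / B := by positivity
  refine ⟨(1 + 2 / ε + 2 / A + 2 / B)⁻¹, by positivity, fun δ hδ hδ1 => ?_⟩
  obtain ⟨n, hn⟩ : ∃ n : ℝ, n = δ⁻¹ := ⟨_, rfl⟩
  have hnN : (1 + 2 / ε + 2 / A + 2 / B) ≤ n := by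
    rw [hn]
    exact (lt_inv_comm₀ hδ hp0).1 hδ1 |>.le
  have hdn : ∀ x : ℝ, x / δ = x * n := fun x => by rw [hn, div_eq_mul_inv]
  have hp1 : 0 < 2 / ε := by positivity
  have hp2 : 0 < 2 / A := by positivity
  have hp3 : 0 < 2 / B := by positivity
  have hn' : (0 : ℝ) < n := by linarith
  have hεn : 2 ≤ ε * n := by
    have h1 : 2 / ε ≤ n := by linarith
    rw [div_le_iff₀ hε0] at h1
    linarith
  have hAn : 2 ≤ A * n := by
    have h1 : 2 / A ≤ n := by linarith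
    rw [div_le_iff₀ hA'] at h1
    linarith
  have hBn : 2 ≤ B * n := by
    have h1 : 2 / B ≤ n := by linarith
    rw [div_le_iff₀ hB'] at h1
    linarith
  have ha1 : (⌊A * n⌋₊ : ℝ) ≤ A * n := Nat.floor_le (by linarith)
  have ha2 : A * n / 2 ≤ ⌊A * n⌋₊ := by
    have := Nat.lt_floor_add_one (A * n)
    linarith
  have hb1 : (⌊B * n⌋₊ : ℝ) ≤ B * n := Nat.floor_le (by linarith)
  have hb2 : B * n / 2 ≤ ⌊B * n⌋₊ := by
    have := Nat.lt_floor_add_one (B * n)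
    linarith
  have ha0 : 1 ≤ ⌊A * n⌋₊ := by
    have : (0 : ℝ) < ⌊A * n⌋₊ := by linarith
    exact_mod_cast this
  have hb0 : 1 ≤ ⌊B * n⌋₊ := by
    have : (0 : ℝ) < ⌊B * n⌋₊ := by linarith
    exact_mod_cast this
  have hab : ⌊A * n⌋₊ ≤ K * ⌊B * n⌋₊ := by
    have h1 : (⌊A * n⌋₊ : ℝ) ≤ K * ⌊B * n⌋₊ := by
      rw [div_le_iff₀ hB'] at hK1
      calc (⌊A * n⌋₊ : ℝ) ≤ A * n := ha1
        _ ≤ K * (B * n / 2) := by
            have := mul_le_mul_of_nonneg_right hK1 hn'.le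
            linarith
        _ ≤ K * ⌊B * n⌋₊ := by gcongr
    exact_mod_cast h1
  have hba : ⌊B * n⌋₊ ≤ K * ⌊A * n⌋₊ := by
    have h1 : (⌊B * n⌋₊ : ℝ) ≤ K * ⌊A * n⌋₊ := by
      rw [div_le_iff₀ hA'] at hK2
      calc (⌊B * n⌋₊ : ℝ) ≤ B * n := hb1
        _ ≤ K * (A * n / 2) := by
            have := mul_le_mul_of_nonneg_right hK2 hn'.le
            linarith
        _ ≤ K * ⌊A * n⌋₊ := by gcongr
    exact_mod_cast h1
  rintro ⟨⟨p, hp⟩, ⟨q, hq⟩⟩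
  obtain ⟨P, hP⟩ : ∃ P, P = nc A j := ⟨_, rfl⟩
  obtain ⟨Q, hQ⟩ : ∃ Q, Q = nc B j := ⟨_, rfl⟩
  have hPε : (P : ℝ) * ε ≤ A := by rw [hP, hε]; exact nc_le hA j
  have hQε : (Q : ℝ) * ε ≤ B := by rw [hQ, hε]; exact nc_le hB j
  simp only [← hP, ← hQ] at hp hq ⊢
  have hgc : gc P Q p q = gw p + gw (P - p) + gw q + gw (Q - q) := rfl
  have hg1 := gw_nonneg p
  have hg2 := gw_nonneg (P - p)
  have hg3 := gw_nonneg q
  have hg4 := gw_nonneg (Q - q)
  obtain ⟨d0, hd0⟩ : ∃ d0, d0 = min (min p (P - p)) (min q (Q - q)) := ⟨_, rfl⟩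
  have hgd : gw d0 ≤ gc P Q p q := by
    rw [hgc]
    rcases min_choice (min p (P - p)) (min q (Q - q)) with h | h
    · rcases min_choice p (P - p) with h' | h'
      · rw [h, h'] at hd0
        rw [hd0]
        linarith
      · rw [h, h'] at hd0
        rw [hd0]
        linarith
    · rcases min_choice q (Q - q) with h' | h'
      · rw [h, h'] at hd0
        rw [hd0]
        linarith
      · rw [h, h'] at hd0
        rw [hd0]
        linarith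
  have hgd0 := gw_nonneg d0
  rcases lt_or_ge d0 4 with hd4 | hd4
  · -- near the boundary
    refine le_trans prob_le_one ?_
    rw [← ENNReal.ofReal_one]
    refine ENNReal.ofReal_le_ofReal ?_
    have h1 : (1 / 2 : ℝ) ≤ gw d0 := by
      refine le_trans ?_ (gw_anti (show d0 ≤ 3 by omega))
      unfold gw
      have h2 : (1 / 2 : ℝ) = (16 : ℝ) ^ (-(1 / 4 : ℝ)) := by
        rw [show (16 : ℝ) = 2 ^ (4 : ℝ) by norm_num, ← Real.rpow_mul (by norm_num)]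
        norm_num
      rw [h2]
      refine Real.rpow_le_rpow_of_nonpos (by norm_num) (by norm_num) (by norm_num)
    nlinarith
  · have hdp : d0 ≤ p := by omega
    have hdP : d0 ≤ P - p := by omega
    have hdq : d0 ≤ q := by omega
    have hdQ : d0 ≤ Q - q := by omega
    have hd4' : (4 : ℝ) ≤ d0 := by exact_mod_cast hd4
    obtain ⟨m, hm⟩ : ∃ m, m = ⌊ε * n⌋₊ + 1 := ⟨_, rfl⟩
    obtain ⟨d, hd⟩ : ∃ d, d = ⌊d0 * ε * n⌋₊ := ⟨_, rfl⟩
    have hm1 : (m : ℝ) ≤ 2 * (ε * n) := by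
      have := Nat.floor_le (show 0 ≤ ε * n by positivity)
      rw [hm]
      push_cast
      linarith
    have hd1 : (d : ℝ) ≤ d0 * (ε * n) := by
      rw [hd, ← mul_assoc]
      exact Nat.floor_le (by positivity)
    have hd2 : (d0 * (ε * n)) / 2 ≤ d := by
      have h1 := Nat.lt_floor_add_one (d0 * ε * n)
      rw [← hd, mul_assoc] at h1
      have h2 : 2 ≤ d0 * (ε * n) := by nlinarith
      linarith
    have hmd : m ≤ d := by
      have h1 : (m : ℝ) ≤ d := by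
        refine hm1.trans (le_trans ?_ hd2)
        nlinarith
      exact_mod_cast h1
    have hdpos : (0 : ℝ) < d := by
      have h1 : 1 ≤ m := by omega
      have h2 : (1 : ℝ) ≤ d := by exact_mod_cast h1.trans hmd
      linarith
    -- the ratio
    have hratio : (m : ℝ) / d ≤ 8 / (d0 + 1) := by
      rw [div_le_div_iff₀ hdpos (by positivity)]
      have h1 : (m : ℝ) * (d0 + 1) ≤ 2 * (ε * n) * (2 * d0) := by
        refine mul_le_mul hm1 (by linarith) (by positivity) (by positivity)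
      nlinarith
    have hnear : ∀ ω, embS hA hB δ (Vis ⌊A * n⌋₊ ⌊B * n⌋₊ ω) ∈ mt (gb hA hB j (⟨p, hP ▸ hp⟩, ⟨q, hQ ▸ hq⟩)) →
        ∃ w ∈ Vis ⌊A * n⌋₊ ⌊B * n⌋₊ ω, sd ((⌊(p * ε) * n⌋₊ : ℤ), (⌊(q * ε) * n⌋₊ : ℤ)) w ≤ (m : ℤ) := by
      intro ω h
      rw [hm]
      simp only [← hdn] at h ⊢
      refine near_of_meet hA hB hin hδ (ε := ε) ?_ ?_ (by positivity) ?_ hε0 ?_
      · have : (1 : ℝ) ≤ p := by exact_mod_cast (show 1 ≤ p by omega)
        nlinarith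
      · refine le_trans ?_ hPε
        gcongr
        omega
      · refine le_trans ?_ hQε
        gcongr
        omega
      · rw [hε]
        exact h
    have hPr := hCU ⌊A * n⌋₊ ⌊B * n⌋₊ m d ((⌊(p * ε) * n⌋₊ : ℤ), (⌊(q * ε) * n⌋₊ : ℤ)) ha0 hb0 hab hba
      (by omega) hmd (by
        have h1 : d ≤ ⌊(p * ε) * n⌋₊ := by
          refine Nat.le_floor (hd1.trans ?_)
          rw [← mul_assoc]
          gcongr
        show ((d : ℕ) : ℤ) ≤ ((⌊(p * ε) * n⌋₊ : ℕ) : ℤ)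
        exact_mod_cast h1) (by
        have h1 : ⌊(p * ε) * n⌋₊ + d ≤ ⌊A * n⌋₊ := by
          refine Nat.le_floor ?_
          push_cast
          have h2 : (⌊(p * ε) * n⌋₊ : ℝ) ≤ (p * ε) * n := Nat.floor_le (by positivity)
          have h3 : (d0 : ℝ) ≤ P - p := by
            have h4 : d0 + p ≤ P := by omega
            have h5 : ((d0 + p : ℕ) : ℝ) ≤ P := by exact_mod_cast h4
            push_cast at h5
            linarith
          have h4 : (d : ℝ) ≤ (P - p) * (ε * n) := hd1.trans (by gcongr)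
          have h5 : (P : ℝ) * ε * n ≤ A * n := by gcongr
          calc (⌊(p * ε) * n⌋₊ : ℝ) + d ≤ (p * ε) * n + (P - p) * (ε * n) := add_le_add h2 h4
            _ = (P : ℝ) * ε * n := by ring
            _ ≤ A * n := h5
        show ((⌊(p * ε) * n⌋₊ : ℕ) : ℤ) + (d : ℤ) ≤ ((⌊A * n⌋₊ : ℕ) : ℤ)
        exact_mod_cast h1) (by
        have h1 : d ≤ ⌊(q * ε) * n⌋₊ := by
          refine Nat.le_floor (hd1.trans ?_)
          rw [← mul_assoc]
          gcongr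
        show ((d : ℕ) : ℤ) ≤ ((⌊(q * ε) * n⌋₊ : ℕ) : ℤ)
        exact_mod_cast h1) (by
        have h1 : ⌊(q * ε) * n⌋₊ + d ≤ ⌊B * n⌋₊ := by
          refine Nat.le_floor ?_
          push_cast
          have h2 : (⌊(q * ε) * n⌋₊ : ℝ) ≤ (q * ε) * n := Nat.floor_le (by positivity)
          have h3 : (d0 : ℝ) ≤ Q - q := by
            have h4 : d0 + q ≤ Q := by omega
            have h5 : ((d0 + q : ℕ) : ℝ) ≤ Q := by exact_mod_cast h4
            push_cast at h5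
            linarith
          have h4 : (d : ℝ) ≤ (Q - q) * (ε * n) := hd1.trans (by gcongr)
          have h5 : (Q : ℝ) * ε * n ≤ B * n := by gcongr
          calc (⌊(q * ε) * n⌋₊ : ℝ) + d ≤ (q * ε) * n + (Q - q) * (ε * n) := add_le_add h2 h4
            _ = (Q : ℝ) * ε * n := by ring
            _ ≤ B * n := h5
        show ((⌊(q * ε) * n⌋₊ : ℕ) : ℤ) + (d : ℤ) ≤ ((⌊B * n⌋₊ : ℕ) : ℤ)
        exact_mod_cast h1)
    have hlaw : (law hA hB Vis δ : Measure (NonemptyCompacts (Rect A B)))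
        (mt (gb hA hB j (⟨p, hP ▸ hp⟩, ⟨q, hQ ▸ hq⟩))) =
        ENNReal.ofReal (Pr (box 0 (⌊A * n⌋₊ : ℤ) 0 (⌊B * n⌋₊ : ℤ))
          (fun ω => embS hA hB δ (Vis ⌊A * n⌋₊ ⌊B * n⌋₊ ω) ∈ mt (gb hA hB j (⟨p, hP ▸ hp⟩, ⟨q, hQ ▸ hq⟩)))) := by
      simp only [← hdn]
      exact lawM_apply _ _ _
    have hfin : (law hA hB Vis δ : Measure (NonemptyCompacts (Rect A B)))
        (mt (gb hA hB j (⟨p, hP ▸ hp⟩, ⟨q, hQ ▸ hq⟩))) ≤ ENNReal.ofReal ((2 * C + 2) * gc P Q p q) := by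
      rw [hlaw]
      refine ENNReal.ofReal_le_ofReal ?_
      refine (Pr_mono fun ω _ h => hnear ω h).trans (hPr.trans ?_)
      have h1 : ((m : ℝ) / d) ^ (1 / 4 : ℝ) ≤ 2 * gw d0 := by
        have h2 : ((m : ℝ) / d) ^ (1 / 4 : ℝ) ≤ (8 / ((d0 : ℝ) + 1)) ^ (1 / 4 : ℝ) :=
          Real.rpow_le_rpow (by positivity) hratio (by norm_num)
        have h3 : (8 / ((d0 : ℝ) + 1)) ^ (1 / 4 : ℝ) = 8 ^ (1 / 4 : ℝ) * gw d0 := by
          unfold gw
          rw [Real.div_rpow (by norm_num) (by positivity), Real.rpow_neg (by positivity)]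
          rfl
        have h4 : (8 : ℝ) ^ (1 / 4 : ℝ) ≤ 2 := by
          have h5 : (8 : ℝ) ^ (1 / 4 : ℝ) ≤ (16 : ℝ) ^ (1 / 4 : ℝ) :=
            Real.rpow_le_rpow (by norm_num) (by norm_num) (by norm_num)
          have h6 : (16 : ℝ) ^ (1 / 4 : ℝ) = 2 := by
            rw [show (16 : ℝ) = 2 ^ (4 : ℝ) by norm_num, ← Real.rpow_mul (by norm_num)]
            norm_num
          linarith
        rw [h3] at h2
        exact h2.trans (mul_le_mul_of_nonneg_right h4 hgd0)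
      nlinarith
    subst hP
    subst hQ
    exact hfin

/-- the limits of the rescaled interface have dimension at most `7/4` -/
theorem law_dim_upper (hA' : 0 < A) (hB' : 0 < B) {Vis : ℕ → ℕ → Finset Edge → Finset V} (hU : HypU Vis)
    (hin : InBox Vis) {μ : ProbabilityMeasure (NonemptyCompacts (Rect A B))} {δ : ℕ → ℝ} (hδ : ∀ k, 0 < δ k)
    (hδ0 : Tendsto δ atTop (𝓝 0)) (hμ : Tendsto (fun k => law hA hB Vis (δ k)) atTop (𝓝 μ)) :
    ∀ᵐ (K : NonemptyCompacts (Rect A B)) ∂(μ : Measure (NonemptyCompacts (Rect A B))),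
      dimH (K : Set (Rect A B)) ≤ ((7 / 4 : ℝ≥0) : ℝ≥0∞) := by
  obtain ⟨C, hC, hCb⟩ := cell_bound hA hB hA' hB' hU hin
  obtain ⟨D, hD⟩ : ∃ D : ℝ, D = C * (6 * (A + B + 1) ^ (7 / 4 : ℝ)) := ⟨_, rfl⟩
  have hD0 : 0 ≤ D := by rw [hD]; positivity
  refine dim_upper (ι := fun j => Fin (nc A j + 1) × Fin (nc B j + 1)) (gb hA hB)
    (fun j i => isOpen_ball) (max 2 D.toNNReal) (fun j i => (gb_diam hA hB j i).trans ?_)
    (gb_cover hA hB) (fun j i => ENNReal.ofReal (C * gc (nc A j) (nc B j) i.1 i.2)) (7 / 4) (fun j => ?_)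
    (P := fun k => law hA hB Vis (δ k)) (fun j => ?_) (φ := fun k => k) tendsto_id hμ
  · gcongr
    exact le_max_left _ _
  rotate_left
  · obtain ⟨δ0, h0, h1⟩ := hCb j
    filter_upwards [hδ0.eventually (gt_mem_nhds h0)] with k hk
    exact h1 (δ k) (hδ k) hk
  · rw [← ENNReal.ofReal_sum_of_nonneg fun i _ => by
      have : 0 ≤ gc (nc A j) (nc B j) i.1 i.2 :=
        add_nonneg (add_nonneg (add_nonneg (gw_nonneg _) (gw_nonneg _)) (gw_nonneg _)) (gw_nonneg _)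
      positivity, ← Finset.mul_sum]
    have h2 : (1 : ℝ) ≤ 2 ^ j := one_le_pow₀ (by norm_num)
    have h1 : ∑ i : Fin (nc A j + 1) × Fin (nc B j + 1), gc (nc A j) (nc B j) i.1 i.2 ≤
        6 * ((A + B + 1) * 2 ^ j) ^ (7 / 4 : ℝ) := by
      refine sum_gc ?_ ?_
      · have h3 : (nc A j : ℝ) ≤ A * 2 ^ j := Nat.floor_le (by positivity)
        nlinarith
      · have h3 : (nc B j : ℝ) ≤ B * 2 ^ j := Nat.floor_le (by positivity)
        nlinarith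
    have h4 : C * ∑ i : Fin (nc A j + 1) × Fin (nc B j + 1), gc (nc A j) (nc B j) i.1 i.2 ≤
        D * ((2 : ℝ) ^ (7 / 4 : ℝ)) ^ j := by
      refine (mul_le_mul_of_nonneg_left h1 hC.le).trans (le_of_eq ?_)
      rw [Real.mul_rpow (by positivity) (by positivity), hD]
      have h5 : ((2 : ℝ) ^ j) ^ (7 / 4 : ℝ) = ((2 : ℝ) ^ (7 / 4 : ℝ)) ^ j := by
        rw [← Real.rpow_natCast, ← Real.rpow_mul (by norm_num), ← Real.rpow_natCast, ← Real.rpow_mul (by norm_num),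
          mul_comm]
      rw [h5]
      ring
    refine (ENNReal.ofReal_le_ofReal h4).trans ?_
    rw [ENNReal.ofReal_mul hD0, ENNReal.ofReal_pow (by positivity), ← ENNReal.ofReal_rpow_of_pos (by norm_num)]
    have h6 : ENNReal.ofReal D ≤ ((max 2 D.toNNReal : ℝ≥0) : ℝ≥0∞) := by
      show ((D.toNNReal : ℝ≥0) : ℝ≥0∞) ≤ _
      exact_mod_cast le_max_right _ _
    have h7 : ENNReal.ofReal 2 = 2 := by simp
    rw [h7]
    have h8 : (((7 / 4 : ℝ≥0)) : ℝ) = 7 / 4 := by norm_num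
    rw [h8]
    gcongr

end

end DimLim
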