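import Pool.Agent.Lib.MP_216314_pr.I.DimA

/-!
# The rescaled interface: lower bound for the dimension of the limits
-/

set_option autoImplicit false

noncomputable section

namespace DimLim

open MeasureTheory Filter Topology Set ENNReal NNReal TopologicalSpace Metric FKI FKP

/-- independent trials -/
theorem trials {E : Finset Edge} {c : ℝ} (hc1 : c ≤ 1) (F : ℕ → Finset Edge) (G : ℕ → Finset Edge → Prop) (k : ℕ)
    (hF : ∀ i < k, F i ⊆ E) (hd : ∀ i j, i < j → j < k → Disjoint (F i) (F j)) (hG : ∀ i < k, Dep (F i) (G i))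
    (hP : ∀ i < k, c ≤ Pr E (G i)) : Pr E (fun ω => ∀ i < k, ¬ G i ω) ≤ (1 - c) ^ k := by
  classical
  induction k with
  | zero =>
    rw [pow_zero]
    exact Pr_le_one _ _
  | succ k ih =>
    have ih' := ih (fun i hi => hF i (by omega)) (fun i j hij hj => hd i j hij (by omega))
      (fun i hi => hG i (by omega)) (fun i hi => hP i (by omega))
    have h1 : Dep ((Finset.range k).biUnion F) (fun ω => ∀ i < k, ¬ G i ω) := by
      intro ω
      refine forall₂_congr fun i hi => not_congr ?_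
      have h2 : F i ⊆ (Finset.range k).biUnion F := Finset.subset_biUnion_of_mem F (Finset.mem_range.2 hi)
      rw [hG i (by omega) ω, hG i (by omega) (ω ∩ (Finset.range k).biUnion F), Finset.inter_assoc,
        Finset.inter_eq_right.2 h2]
    have h3 : Dep (F k) (fun ω => ¬ G k ω) := fun ω => not_congr (hG k (by omega) ω)
    have h4 : Disjoint ((Finset.range k).biUnion F) (F k) := by
      rw [Finset.disjoint_biUnion_left]
      intro i hi
      exact hd i k (Finset.mem_range.1 hi) (by omega)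
    have h5 : (Finset.range k).biUnion F ⊆ E := by
      rw [Finset.biUnion_subset]
      intro i hi
      exact hF i (by have := Finset.mem_range.1 hi; omega)
    have h6 := Pr_indep h5 (hF k (by omega)) h4 h1 h3
    have h7 : Pr E (fun ω => ¬ G k ω) = 1 - Pr E (G k) := Pr_not _ _
    have h8 := hP k (by omega)
    calc Pr E (fun ω => ∀ i < k + 1, ¬ G i ω)
        = Pr E (fun ω => (∀ i < k, ¬ G i ω) ∧ ¬ G k ω) := by
          refine Pr_congr fun ω _ => ?_
          constructor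
          · intro h
            exact ⟨fun i hi => h i (by omega), h k (by omega)⟩
          · rintro ⟨h9, h10⟩ i hi
            rcases Nat.lt_succ_iff_lt_or_eq.1 hi with h11 | h11
            · exact h9 i h11
            · rw [h11]
              exact h10
      _ = Pr E (fun ω => ∀ i < k, ¬ G i ω) * Pr E (fun ω => ¬ G k ω) := h6
      _ ≤ (1 - c) ^ k * (1 - c) := by
          rw [h7]
          refine mul_le_mul ih' (by linarith) ?_ (pow_nonneg (by linarith) _)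
          have := Pr_le_one E (G k)
          linarith
      _ = (1 - c) ^ (k + 1) := by rw [pow_succ]

theorem qan_sub {a b l : ℕ} (h1 : 2 * l ≤ a) (h2 : 2 * l ≤ b) : qan a l ⊆ box 0 a 0 b := by
  unfold qan
  refine Finset.sdiff_subset.trans (box_mono ?_ le_rfl le_rfl ?_)
  · omega
  · omega

theorem qan_disj {a l l' : ℕ} (h : 2 * l ≤ l') : Disjoint (qan a l) (qan a l') := by
  unfold qan
  refine Finset.disjoint_of_subset_left (Finset.sdiff_subset.trans (box_mono ?_ le_rfl le_rfl ?_))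
    Finset.disjoint_sdiff
  · omega
  · omega

section

variable {A B : ℝ} (hA : 0 ≤ A) (hB : 0 ≤ B)

open Classical in
/-- a well distributed set of visited vertices gives a Frostman measure -/
theorem fro_of_set {δ : ℝ} (hδ : 0 < δ) {a b : ℕ} (ha : a = ⌊A / δ⌋₊) (hb : b = ⌊B / δ⌋₊) {S T : Finset V}
    (hS : S.Nonempty) (hST : S ⊆ T) (hT : ∀ w ∈ T, 0 ≤ w.1 ∧ w.1 ≤ a ∧ 0 ≤ w.2 ∧ w.2 ≤ b)
    {α D : ℝ} (hα : 0 ≤ α) (hD : 0 < D)
    (hr : ∀ (v : V) (r : ℕ), 1 ≤ r → ((S.filter (fun w => sd v w ≤ r)).card : ℝ) ≤ D * (r * δ) ^ α * S.card) :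
    Fro α (D * 2 ^ α).toNNReal δ (embS hA hB δ T) := by
  have hcard : (S.card : ℝ≥0∞) ≠ 0 := by
    have := Finset.card_pos.2 hS
    exact_mod_cast this.ne'
  have hTne : T.Nonempty := hS.mono hST
  obtain ⟨ν, hν⟩ : ∃ ν : Measure (Rect A B),
    ν = (S.card : ℝ≥0∞)⁻¹ • ∑ w ∈ S, Measure.dirac (emb hA hB δ w) := ⟨_, rfl⟩
  have hνp : IsProbabilityMeasure ν := by
    constructor
    rw [hν, Measure.smul_apply, Measure.finsetSum_apply]
    simp only [measure_univ, Finset.sum_const, nsmul_eq_mul, mul_one, smul_eq_mul]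
    exact ENNReal.inv_mul_cancel hcard (by simp)
  refine ⟨⟨ν, hνp⟩, ?_, ?_⟩
  · show ν _ = 0
    rw [hν, Measure.smul_apply, Measure.finsetSum_apply, smul_eq_mul]
    refine mul_eq_zero_of_right _ (Finset.sum_eq_zero fun w hw => ?_)
    rw [Measure.dirac_apply, indicator_of_notMem]
    rw [notMem_compl_iff, embS_coe hA hB hTne]
    exact ⟨w, hST hw, rfl⟩
  · intro x r hr0 hr1
    show ν _ ≤ _
    rw [hν, Measure.smul_apply, Measure.finsetSum_apply, smul_eq_mul]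
    have h1 : ∑ w ∈ S, (Measure.dirac (emb hA hB δ w) : Measure (Rect A B)) (ball x r) =
        ((S.filter (fun w => emb hA hB δ w ∈ ball x r)).card : ℝ≥0∞) := by
      simp only [Measure.dirac_apply, Set.indicator_apply, Pi.one_apply]
      rw [Finset.sum_boole]
    rw [h1]
    have hrn : 1 ≤ r / δ := by
      rw [le_div_iff₀ hδ]
      linarith
    obtain ⟨⟨x1, hx10, hx11⟩, ⟨x2, hx20, hx21⟩⟩ := x
    obtain ⟨m, hm⟩ : ∃ m, m = ⌊r / δ⌋₊ + 1 := ⟨_, rfl⟩
    have hm1 : (m : ℝ) ≤ 2 * (r / δ) := by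
      have := Nat.floor_le (show 0 ≤ r / δ by positivity)
      rw [hm]
      push_cast
      linarith
    have h2 : (S.filter (fun w => emb hA hB δ w ∈ ball ((⟨x1, hx10, hx11⟩, ⟨x2, hx20, hx21⟩) : Rect A B) r)).card ≤
        (S.filter (fun w => sd ((⌊x1 / δ⌋₊ : ℤ), (⌊x2 / δ⌋₊ : ℤ)) w ≤ m)).card := by
      refine Finset.card_le_card fun w hw => ?_
      rw [Finset.mem_filter] at hw ⊢
      refine ⟨hw.1, sd_le.2 ?_⟩
      obtain ⟨h3, h4, h5, h6⟩ := hT w (hST hw.1)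
      have h7 := hw.2
      rw [Metric.mem_ball, Prod.dist_eq, max_lt_iff] at h7
      obtain ⟨h8, h9⟩ := h7
      simp only [emb] at h8 h9
      have e1 : (⟨x1, hx10, hx11⟩ : Set.Icc (0 : ℝ) A) = Set.projIcc 0 A hA x1 :=
        (Set.projIcc_of_mem hA ⟨hx10, hx11⟩).symm
      have e2 : (⟨x2, hx20, hx21⟩ : Set.Icc (0 : ℝ) B) = Set.projIcc 0 B hB x2 :=
        (Set.projIcc_of_mem hB ⟨hx20, hx21⟩).symm
      rw [e1, dist_proj_emb hA hδ h3 (by rw [← ha]; exact h4) hx10 hx11] at h8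
      rw [e2, dist_proj_emb hB hδ h5 (by rw [← hb]; exact h6) hx20 hx21] at h9
      have h10 := scale_lt hδ h8
      have h11 := scale_lt hδ h9
      have h12 := round_le (div_nonneg hx10 hδ.le) h10
      have h13 := round_le (div_nonneg hx20 hδ.le) h11
      rw [← hm, abs_le] at h12 h13
      constructor <;> constructor <;> simp only <;> omega
    have h3 : ((S.filter (fun w => sd ((⌊x1 / δ⌋₊ : ℤ), (⌊x2 / δ⌋₊ : ℤ)) w ≤ m)).card : ℝ) ≤
        D * 2 ^ α * r ^ α * S.card := by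
      refine (hr _ m (by omega)).trans ?_
      have h4 : ((m : ℝ) * δ) ^ α ≤ 2 ^ α * r ^ α := by
        rw [← Real.mul_rpow (by norm_num) hr0.le]
        refine Real.rpow_le_rpow (by positivity) ?_ hα
        calc (m : ℝ) * δ ≤ 2 * (r / δ) * δ := by gcongr
          _ = 2 * r := by field_simp
      calc D * ((m : ℝ) * δ) ^ α * S.card ≤ D * (2 ^ α * r ^ α) * S.card := by gcongr
        _ = D * 2 ^ α * r ^ α * S.card := by ring
    have h4 : ((S.filter (fun w => emb hA hB δ w ∈ ball ((⟨x1, hx10, hx11⟩, ⟨x2, hx20, hx21⟩) : Rect A B) r)).card : ℝ≥0∞) ≤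
        ENNReal.ofReal (D * 2 ^ α * r ^ α * S.card) := by
      rw [← ENNReal.ofReal_natCast]
      refine ENNReal.ofReal_le_ofReal (le_trans ?_ h3)
      exact_mod_cast h2
    have h5 : ENNReal.ofReal (D * 2 ^ α * r ^ α * S.card) =
        ((D * 2 ^ α).toNNReal : ℝ≥0∞) * ENNReal.ofReal r ^ α * S.card := by
      rw [ENNReal.ofReal_mul (by positivity), ENNReal.ofReal_mul (by positivity), ENNReal.ofReal_natCast,
        ← ENNReal.ofReal_rpow_of_pos hr0]
      rfl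
    rw [h5] at h4
    calc (S.card : ℝ≥0∞)⁻¹ * _ ≤ (S.card : ℝ≥0∞)⁻¹ * (((D * 2 ^ α).toNNReal : ℝ≥0∞) * ENNReal.ofReal r ^ α * S.card) := by
          gcongr
      _ = ((D * 2 ^ α).toNNReal : ℝ≥0∞) * ENNReal.ofReal r ^ α * ((S.card : ℝ≥0∞)⁻¹ * S.card) := by ring
      _ = ((D * 2 ^ α).toNNReal : ℝ≥0∞) * ENNReal.ofReal r ^ α := by
          rw [ENNReal.inv_mul_cancel hcard (by simp), mul_one]

variable [MeasurableSpace (NonemptyCompacts (Rect A B))] [BorelSpace (NonemptyCompacts (Rect A B))]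

open Classical in
/-- the limits of the rescaled interface have dimension at least `α` -/
theorem law_dim_lower (hA' : 0 < A) (hB' : 0 < B) {Vis : ℕ → ℕ → Finset Edge → Finset V} {α : ℝ≥0} (hα : 0 < α)
    (hL : HypL Vis α) (hin : InBox Vis) {μ : ProbabilityMeasure (NonemptyCompacts (Rect A B))} {δ : ℕ → ℝ}
    (hδ : ∀ k, 0 < δ k) (hδ0 : Tendsto δ atTop (𝓝 0)) (hμ : Tendsto (fun k => law hA hB Vis (δ k)) atTop (𝓝 μ)) :
    ∀ᵐ (K : NonemptyCompacts (Rect A B)) ∂(μ : Measure (NonemptyCompacts (Rect A B))),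
      (α : ℝ≥0∞) ≤ dimH (K : Set (Rect A B)) := by
  obtain ⟨c, M, l0, hc, hM, hG⟩ := hL
  have hc1 : c ≤ 1 := by
    obtain ⟨G, -, h1, -⟩ := hG (2 * l0) (2 * l0) l0 le_rfl le_rfl le_rfl
    exact h1.trans (Pr_le_one _ _)
  have hα' : (0 : ℝ) ≤ α := α.2
  refine dim_lower hα (P := fun k => law hA hB Vis (δ k)) (r := δ) hδ0 ?_ (φ := fun k => k) tendsto_id hμ
  intro ρ hρ
  obtain ⟨k, hk⟩ : ∃ k : ℕ, ENNReal.ofReal ((1 - c) ^ k) ≤ ρ := by
    have h1 : Tendsto (fun k : ℕ => ENNReal.ofReal ((1 - c) ^ k)) atTop (𝓝 0) := by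
      rw [← ENNReal.ofReal_zero]
      exact ENNReal.tendsto_ofReal (tendsto_pow_atTop_nhds_zero_of_lt_one (by linarith) (by linarith))
    obtain ⟨k, hk⟩ := (h1.eventually (gt_mem_nhds hρ)).exists
    exact ⟨k, hk.le⟩
  -- the smallest scale
  obtain ⟨s, hs⟩ : ∃ s : ℝ, s = min A B / 2 ^ (k + 1) := ⟨_, rfl⟩
  have hs0 : 0 < s := by
    rw [hs]
    have := lt_min hA' hB'
    positivity
  refine ⟨((M * (2 / s) ^ (α : ℝ)) * 2 ^ (α : ℝ)).toNNReal, ?_⟩
  have hp0 : 0 < 1 + ((l0 : ℝ) + 1 + 1) / s := by positivity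
  filter_upwards [hδ0.eventually (gt_mem_nhds (show 0 < (1 + ((l0 : ℝ) + 1 + 1) / s)⁻¹ by positivity))] with k' hk'
  obtain ⟨n, hn⟩ : ∃ n : ℝ, n = (δ k')⁻¹ := ⟨_, rfl⟩
  have hnN : (1 + ((l0 : ℝ) + 1 + 1) / s) ≤ n := by
    rw [hn]
    exact (lt_inv_comm₀ (hδ k') hp0).1 hk' |>.le
  have hdn : ∀ x : ℝ, x / δ k' = x * n := fun x => by rw [hn, div_eq_mul_inv]
  have hp1 : 0 < ((l0 : ℝ) + 1 + 1) / s := by positivity
  have hn' : (0 : ℝ) < n := by linarith
  have hsn : (l0 : ℝ) + 1 + 1 ≤ s * n := by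
    have h1 : ((l0 : ℝ) + 1 + 1) / s ≤ n := by linarith
    rw [div_le_iff₀ hs0] at h1
    linarith
  obtain ⟨a, ha⟩ : ∃ a, a = ⌊A * n⌋₊ := ⟨_, rfl⟩
  obtain ⟨b, hb⟩ : ∃ b, b = ⌊B * n⌋₊ := ⟨_, rfl⟩
  obtain ⟨q, hq⟩ : ∃ q, q = ⌊s * n⌋₊ := ⟨_, rfl⟩
  have hq1 : (q : ℝ) ≤ s * n := by
    rw [hq]
    exact Nat.floor_le (by positivity)
  have hq2 : s * n / 2 ≤ q := by
    have := Nat.lt_floor_add_one (s * n)
    rw [← hq] at this
    have hl0 : (0 : ℝ) ≤ l0 := by positivity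
    linarith
  have hq3 : l0 ≤ q := by
    rw [hq]
    refine Nat.le_floor ?_
    linarith
  have hq4 : 1 ≤ q := by
    rw [hq]
    refine Nat.le_floor ?_
    have hl0 : (0 : ℝ) ≤ l0 := by positivity
    push_cast
    linarith
  have hqa : 2 ^ (k + 1) * q ≤ a := by
    rw [ha]
    refine Nat.le_floor ?_
    push_cast
    calc (2 : ℝ) ^ (k + 1) * q ≤ 2 ^ (k + 1) * (s * n) := by gcongr
      _ = min A B * n := by
          rw [hs]
          field_simp
      _ ≤ A * n := by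
          gcongr
          exact min_le_left _ _
  have hqb : 2 ^ (k + 1) * q ≤ b := by
    rw [hb]
    refine Nat.le_floor ?_
    push_cast
    calc (2 : ℝ) ^ (k + 1) * q ≤ 2 ^ (k + 1) * (s * n) := by gcongr
      _ = min A B * n := by
          rw [hs]
          field_simp
      _ ≤ B * n := by
          gcongr
          exact min_le_right _ _
  have hl : ∀ i < k, l0 ≤ 2 ^ i * q ∧ 2 * (2 ^ i * q) ≤ a ∧ 2 * (2 ^ i * q) ≤ b := by
    intro i hi
    have h1 : 1 ≤ 2 ^ i := Nat.one_le_two_pow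
    have h2 : 2 ^ (i + 1) ≤ 2 ^ (k + 1) := Nat.pow_le_pow_right (by norm_num) (by omega)
    have h3 : 2 * (2 ^ i * q) = 2 ^ (i + 1) * q := by ring
    have h4 : 2 ^ (i + 1) * q ≤ 2 ^ (k + 1) * q := Nat.mul_le_mul_right _ h2
    refine ⟨?_, ?_, ?_⟩
    · calc l0 ≤ 1 * q := by omega
        _ ≤ 2 ^ i * q := Nat.mul_le_mul_right _ h1
    · rw [h3]
      exact h4.trans hqa
    · rw [h3]
      exact h4.trans hqb
  have hex : ∀ i, ∃ G : Finset Edge → Prop, i < k → Dep (qan a (2 ^ i * q)) G ∧ c ≤ Pr (box 0 a 0 b) G ∧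
      ∀ ω, ω ⊆ box 0 a 0 b → G ω → ∃ S, S ⊆ Vis a b ω ∧ S.Nonempty ∧
        ∀ (v : V) (r : ℕ), 1 ≤ r →
          ((S.filter (fun w => sd v w ≤ r)).card : ℝ) ≤ M * ((r : ℝ) / (2 ^ i * q : ℕ)) ^ (α : ℝ) * S.card := by
    intro i
    by_cases hi : i < k
    · obtain ⟨h1, h2, h3⟩ := hl i hi
      obtain ⟨G, hG1⟩ := hG a b (2 ^ i * q) h1 h2 h3
      exact ⟨G, fun _ => hG1⟩
    · exact ⟨fun _ => True, fun h => absurd h hi⟩
  choose G hG' using hex
  have hE : (law hA hB Vis (δ k') : Measure (NonemptyCompacts (Rect A B)))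
      {K | Fro (α : ℝ) ((M * (2 / s) ^ (α : ℝ)) * 2 ^ (α : ℝ)).toNNReal (δ k') K}ᶜ =
      ENNReal.ofReal (Pr (box 0 (⌊A * n⌋₊ : ℤ) 0 (⌊B * n⌋₊ : ℤ))
        (fun ω => embS hA hB (δ k') (Vis ⌊A * n⌋₊ ⌊B * n⌋₊ ω) ∈
          {K | Fro (α : ℝ) ((M * (2 / s) ^ (α : ℝ)) * 2 ^ (α : ℝ)).toNNReal (δ k') K}ᶜ)) := by
    simp only [← hdn]
    exact lawM_apply _ _ _
  rw [hE, ← ha, ← hb]
  refine le_trans (ENNReal.ofReal_le_ofReal ?_) hk
  refine le_trans (Pr_mono (B := fun ω => ∀ i < k, ¬ G i ω) ?_)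
    (trials hc1 (fun i => qan a (2 ^ i * q)) G k (fun i hi => qan_sub (hl i hi).2.1 (hl i hi).2.2)
      (fun i j hij hj => ?_) (fun i hi => (hG' i hi).1) (fun i hi => (hG' i hi).2.1))
  · intro ω hω hF i hi hGi
    obtain ⟨S, hS1, hS2, hS3⟩ := (hG' i hi).2.2 ω hω hGi
    refine hF ?_
    refine fro_of_set hA hB (hδ k') (by rw [hdn]; exact ha) (by rw [hdn]; exact hb) hS2 hS1 (hin a b ω) hα'
      (by positivity) fun v r hr => ?_
    refine (hS3 v r hr).trans ?_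
    have hqn : (s * n / 2) ≤ ((2 ^ i * q : ℕ) : ℝ) := by
      refine hq2.trans ?_
      have h1 : 1 * q ≤ 2 ^ i * q := Nat.mul_le_mul_right _ Nat.one_le_two_pow
      rw [one_mul] at h1
      exact_mod_cast h1
    have hpos : (0 : ℝ) < ((2 ^ i * q : ℕ) : ℝ) := lt_of_lt_of_le (by positivity) hqn
    have h2 : ((r : ℝ) / (2 ^ i * q : ℕ)) ^ (α : ℝ) ≤ (2 / s) ^ (α : ℝ) * ((r : ℝ) * δ k') ^ (α : ℝ) := by
      have hδk := hδ k'
      rw [← Real.mul_rpow (by positivity) (by positivity)]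
      refine Real.rpow_le_rpow (by positivity) ?_ hα'
      rw [div_le_iff₀ hpos]
      calc (r : ℝ) = 2 / s * (r * δ k') * (s * n / 2) := by
            rw [hn]
            field_simp
        _ ≤ 2 / s * (r * δ k') * ((2 ^ i * q : ℕ) : ℝ) := by gcongr
    calc M * ((r : ℝ) / (2 ^ i * q : ℕ)) ^ (α : ℝ) * S.card
        ≤ M * ((2 / s) ^ (α : ℝ) * ((r : ℝ) * δ k') ^ (α : ℝ)) * S.card := by gcongr
      _ = M * (2 / s) ^ (α : ℝ) * ((r : ℝ) * δ k') ^ (α : ℝ) * S.card := by ring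
  · refine qan_disj ?_
    have h1 : 2 ^ (i + 1) ≤ 2 ^ j := Nat.pow_le_pow_right (by norm_num) (by omega)
    calc 2 * (2 ^ i * q) = 2 ^ (i + 1) * q := by ring
      _ ≤ 2 ^ j * q := Nat.mul_le_mul_right _ h1

end

end DimLim
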