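import Pool.Agent.Lib.MP_216314_pr.I.DimP

/-!
# Well distributed sets of visited vertices from one point and two point estimates
-/

set_option autoImplicit false

noncomputable section

namespace DimLim

open Finset FKI FKP

/-- sums over a set of vertices of a function of the distance -/
theorem sum_sd {l : ℕ} {Q : Finset V} {u : V} (hl : ∀ v ∈ Q, sd u v < l) (f : ℕ → ℝ) (hf : ∀ r, 0 ≤ f r) :
    ∑ v ∈ Q, f (sd u v).toNat ≤ ∑ r ∈ range l, 8 * ((r : ℝ) + 1) * f r := by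
  have h1 : ∀ v ∈ Q, (sd u v).toNat ∈ range l := by
    intro v hv
    have h2 := hl v hv
    have h3 := sd_nonneg u v
    rw [mem_range]
    omega
  rw [← sum_fiberwise_of_maps_to h1]
  refine sum_le_sum fun r _ => ?_
  have h3 : ∑ v ∈ Q.filter (fun v => (sd u v).toNat = r), f (sd u v).toNat =
      (Q.filter (fun v => (sd u v).toNat = r)).card * f r := by
    rw [← nsmul_eq_mul, ← sum_const]
    exact sum_congr rfl fun v hv => by rw [(mem_filter.1 hv).2]
  rw [h3]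
  refine mul_le_mul_of_nonneg_right ?_ (hf r)
  rcases Nat.eq_zero_or_pos r with h0 | h0
  · subst h0
    have h4 : (Q.filter (fun v => (sd u v).toNat = 0)).card ≤ 1 := by
      rw [card_le_one]
      intro v hv w hw
      rw [mem_filter] at hv hw
      have h5 := sd_nonneg u v
      have h6 := sd_nonneg u w
      have h7 := (sd_le (u := u) (v := v) (m := 0)).1 (by omega)
      have h8 := (sd_le (u := u) (v := w) (m := 0)).1 (by omega)
      exact Prod.ext (by omega) (by omega)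
    have h5 : ((Q.filter (fun v => (sd u v).toNat = 0)).card : ℝ) ≤ 1 := by exact_mod_cast h4
    push_cast
    linarith
  · have h4 : (Q.filter (fun v => (sd u v).toNat = r)).card ≤ 8 * r := by
      refine le_trans (card_le_card fun v hv => ?_) (card_sphere u r h0 Q)
      rw [mem_filter] at hv ⊢
      refine ⟨hv.1, ?_⟩
      have h5 := sd_nonneg u v
      omega
    have h5 : ((Q.filter (fun v => (sd u v).toNat = r)).card : ℝ) ≤ 8 * r := by exact_mod_cast h4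
    linarith

/-- the kernel `((r+1)/l)^(-α)` -/
def kn (α : ℝ) (l r : ℕ) : ℝ := (((r : ℝ) + 1) / l) ^ (-α)

theorem kn_nonneg (α : ℝ) (l r : ℕ) : 0 ≤ kn α l r := Real.rpow_nonneg (by positivity) _

/-- the sum of the kernel against the two point function -/
theorem sum_kn {α : ℝ} (hα0 : 3 / 4 ≤ α) (hα1 : α < 7 / 4) {C : ℝ} (hC : 0 ≤ C) {l : ℕ} (hl : 1 ≤ l) :
    ∑ r ∈ range l, 8 * ((r : ℝ) + 1) * (C * ((r : ℝ) + 1) ^ (-(1 / 4) : ℝ) * (l : ℝ) ^ (-(1 / 4) : ℝ) * kn α l r) ≤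
      8 * C * (7 / 4 - α)⁻¹ * (l : ℝ) ^ (3 / 2 : ℝ) := by
  have hl0 : (0 : ℝ) < l := by exact_mod_cast hl
  have h1 : ∀ r ∈ range l, 8 * ((r : ℝ) + 1) * (C * ((r : ℝ) + 1) ^ (-(1 / 4) : ℝ) * (l : ℝ) ^ (-(1 / 4) : ℝ) * kn α l r) =
      8 * C * (l : ℝ) ^ (α - 1 / 4 : ℝ) * ((r : ℝ) + 1) ^ (-(α - 3 / 4)) := by
    intro r _
    have hr : (0 : ℝ) < (r : ℝ) + 1 := by positivity
    unfold kn
    rw [Real.div_rpow hr.le hl0.le, Real.rpow_neg hl0.le α, div_inv_eq_mul]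
    have e1 : (l : ℝ) ^ (α - 1 / 4 : ℝ) = (l : ℝ) ^ (-(1 / 4) : ℝ) * (l : ℝ) ^ α := by
      rw [← Real.rpow_add hl0]
      congr 1
      ring
    have e2 : ((r : ℝ) + 1) ^ (-(α - 3 / 4)) = ((r : ℝ) + 1) * ((r : ℝ) + 1) ^ (-(1 / 4) : ℝ) * ((r : ℝ) + 1) ^ (-α) := by
      rw [mul_assoc, ← Real.rpow_add hr]
      have e3 : ((r : ℝ) + 1) * ((r : ℝ) + 1) ^ (-(1 / 4) + -α : ℝ) = ((r : ℝ) + 1) ^ (1 + (-(1 / 4) + -α) : ℝ) := by
        rw [Real.rpow_add hr 1, Real.rpow_one]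
      rw [e3]
      congr 1
      ring
    rw [e1, e2]
    ring
  rw [sum_congr rfl h1, ← mul_sum]
  have h2 := sum_rpow (s := α - 3 / 4) (by linarith) (by linarith) l
  have e3 : (l : ℝ) ^ (α - 1 / 4 : ℝ) * (l : ℝ) ^ (1 - (α - 3 / 4)) = (l : ℝ) ^ (3 / 2 : ℝ) := by
    rw [← Real.rpow_add hl0]
    congr 1
    ring
  calc 8 * C * (l : ℝ) ^ (α - 1 / 4 : ℝ) * ∑ r ∈ range l, ((r : ℝ) + 1) ^ (-(α - 3 / 4))
      ≤ 8 * C * (l : ℝ) ^ (α - 1 / 4 : ℝ) * ((1 - (α - 3 / 4))⁻¹ * (l : ℝ) ^ (1 - (α - 3 / 4))) := by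
        gcongr
    _ = 8 * C * (1 - (α - 3 / 4))⁻¹ * ((l : ℝ) ^ (α - 1 / 4 : ℝ) * (l : ℝ) ^ (1 - (α - 3 / 4))) := by ring
    _ = 8 * C * (7 / 4 - α)⁻¹ * (l : ℝ) ^ (3 / 2 : ℝ) := by
        rw [e3, show (1 - (α - 3 / 4)) = 7 / 4 - α by ring]

/-- the conclusion of the second moment argument -/
def WD (M α : ℝ) (l : ℕ) (Q : Finset V) (VL : V → Finset Edge → Prop) (ω : Finset Edge) : Prop :=
  ∃ S : Finset V, S ⊆ Q ∧ (∀ p ∈ S, VL p ω) ∧ S.Nonempty ∧ ∀ (v : V) (r : ℕ), 1 ≤ r →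
    ((S.filter (fun w => sd v w ≤ r)).card : ℝ) ≤ M * ((r : ℝ) / l) ^ α * S.card

open Classical in
/-- deterministic part: few points have a large potential -/
theorem wd_of {α : ℝ} (hα0 : 0 ≤ α) {l : ℕ} (hl : 1 ≤ l) {Q : Finset V} {VL : V → Finset Edge → Prop} {ω : Finset Edge}
    {t T T' : ℝ} (ht : 0 < t) (hT' : 0 < T') (hTT : T ≤ T' * (t / 2))
    (hN : t ≤ ((Q.filter (fun p => VL p ω)).card : ℝ))
    (hU : ∑ p ∈ Q.filter (fun p => VL p ω), ∑ p' ∈ Q.filter (fun p => VL p ω), kn α l (sd p p').toNat ≤ T) :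
    WD (T' * 3 ^ α * (2 / t)) α l Q VL ω := by
  have hl0 : (0 : ℝ) < l := by exact_mod_cast hl
  obtain ⟨R, hR⟩ : ∃ R, R = Q.filter (fun p => VL p ω) := ⟨_, rfl⟩
  rw [← hR] at hN hU
  obtain ⟨φ, hφ⟩ : ∃ φ : V → ℝ, φ = fun p => ∑ p' ∈ R, kn α l (sd p p').toNat := ⟨_, rfl⟩
  have hφ0 : ∀ p, 0 ≤ φ p := by
    intro p
    rw [hφ]
    exact sum_nonneg fun _ _ => kn_nonneg _ _ _
  have hbad : ((R.filter (fun p => ¬ φ p ≤ T')).card : ℝ) ≤ t / 2 := by
    have h1 : ((R.filter (fun p => ¬ φ p ≤ T')).card : ℝ) * T' ≤ T := by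
      calc ((R.filter (fun p => ¬ φ p ≤ T')).card : ℝ) * T' = ∑ p ∈ R.filter (fun p => ¬ φ p ≤ T'), T' := by
            rw [sum_const, nsmul_eq_mul]
        _ ≤ ∑ p ∈ R.filter (fun p => ¬ φ p ≤ T'), φ p :=
            sum_le_sum fun p hp => (not_le.1 (mem_filter.1 hp).2).le
        _ ≤ ∑ p ∈ R, φ p := sum_le_sum_of_subset_of_nonneg (filter_subset _ _) fun p _ _ => hφ0 p
        _ ≤ T := by
            rw [hφ]
            exact hU
    have h2 : ((R.filter (fun p => ¬ φ p ≤ T')).card : ℝ) * T' ≤ (t / 2) * T' := by linarith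
    exact le_of_mul_le_mul_right h2 hT'
  have hcard : ((R.filter (fun p => φ p ≤ T')).card : ℝ) + ((R.filter (fun p => ¬ φ p ≤ T')).card : ℝ) = R.card := by
    exact_mod_cast Finset.card_filter_add_card_filter_not (s := R) (fun p => φ p ≤ T')
  have hS : t / 2 ≤ ((R.filter (fun p => φ p ≤ T')).card : ℝ) := by linarith
  refine ⟨R.filter (fun p => φ p ≤ T'), ?_, ?_, ?_, ?_⟩
  · rw [hR]
    exact (filter_subset _ _).trans (filter_subset _ _)
  · intro p hp
    have h1 := (mem_filter.1 hp).1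
    rw [hR] at h1
    exact (mem_filter.1 h1).2
  · rw [← card_pos]
    have h1 : (0 : ℝ) < ((R.filter (fun p => φ p ≤ T')).card : ℝ) := by linarith
    exact_mod_cast h1
  · intro v r hr
    obtain ⟨S, hSd⟩ : ∃ S, S = R.filter (fun p => φ p ≤ T') := ⟨_, rfl⟩
    rw [← hSd] at hS ⊢
    have hr0 : (0 : ℝ) < r := by exact_mod_cast hr
    have hM : 0 ≤ T' * 3 ^ α * (2 / t) * ((r : ℝ) / l) ^ α * S.card := by positivity
    rcases (S.filter (fun w => sd v w ≤ r)).eq_empty_or_nonempty with h0 | ⟨p, hp⟩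
    · rw [h0, card_empty]
      push_cast
      exact hM
    · rw [mem_filter] at hp
      have hpS : p ∈ R ∧ φ p ≤ T' := by
        rw [hSd, mem_filter] at hp
        exact hp.1
      have h1 : ((S.filter (fun w => sd v w ≤ r)).card : ℝ) * (3 * ((r : ℝ) / l)) ^ (-α) ≤ T' := by
        calc ((S.filter (fun w => sd v w ≤ r)).card : ℝ) * (3 * ((r : ℝ) / l)) ^ (-α)
            = ∑ w ∈ S.filter (fun w => sd v w ≤ r), (3 * ((r : ℝ) / l)) ^ (-α) := by
              rw [sum_const, nsmul_eq_mul]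
          _ ≤ ∑ w ∈ S.filter (fun w => sd v w ≤ r), kn α l (sd p w).toNat := by
              refine sum_le_sum fun w hw => ?_
              have h2 := (mem_filter.1 hw).2
              have h3 := sd_tri p v w
              rw [sd_comm p v] at h3
              have h4 := sd_nonneg p w
              have h5 : (((sd p w).toNat : ℕ) : ℤ) ≤ 2 * r := by
                rw [Int.toNat_of_nonneg h4]
                have := hp.2
                omega
              have h6 : (((sd p w).toNat : ℕ) : ℝ) ≤ 2 * r := by exact_mod_cast h5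
              unfold kn
              refine Real.rpow_le_rpow_of_nonpos (by positivity) ?_ (by linarith)
              rw [mul_div_assoc', div_le_div_iff_of_pos_right hl0]
              have h7 : (1 : ℝ) ≤ r := by exact_mod_cast hr
              linarith
          _ ≤ ∑ w ∈ R, kn α l (sd p w).toNat := by
              refine sum_le_sum_of_subset_of_nonneg ?_ fun _ _ _ => kn_nonneg _ _ _
              rw [hSd]
              exact (filter_subset _ _).trans (filter_subset _ _)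
          _ ≤ T' := by
              have := hpS.2
              rw [hφ] at this
              exact this
      have h2 : (0 : ℝ) < (3 * ((r : ℝ) / l)) ^ α := by positivity
      have h3 : ((S.filter (fun w => sd v w ≤ r)).card : ℝ) ≤ T' * (3 * ((r : ℝ) / l)) ^ α := by
        rw [Real.rpow_neg (by positivity), ← div_eq_mul_inv, div_le_iff₀ h2] at h1
        exact h1
      refine h3.trans ?_
      rw [Real.mul_rpow (by norm_num) (by positivity)]
      have h4 : (1 : ℝ) ≤ (2 / t) * S.card := by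
        rw [div_mul_eq_mul_div, le_div_iff₀ ht]
        linarith
      calc T' * (3 ^ α * ((r : ℝ) / l) ^ α) = T' * (3 ^ α * ((r : ℝ) / l) ^ α) * 1 := by ring
        _ ≤ T' * (3 ^ α * ((r : ℝ) / l) ^ α) * ((2 / t) * S.card) := by
            refine mul_le_mul_of_nonneg_left h4 (by positivity)
        _ = T' * 3 ^ α * (2 / t) * ((r : ℝ) / l) ^ α * S.card := by ring

open Classical in
/-- the second moment argument -/
theorem frostman_event {α : ℝ} (hα0 : 3 / 4 ≤ α) (hα1 : α < 7 / 4) {c C κ : ℝ} (hc : 0 < c) (hC : 0 < C)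
    (hκ : 0 < κ) : ∃ c' M : ℝ, 0 < c' ∧ 0 < M ∧ ∀ (l : ℕ) (E : Finset Edge) (Q : Finset V)
      (VL : V → Finset Edge → Prop), 1 ≤ l → κ * (l : ℝ) ^ 2 ≤ Q.card → (Q.card : ℝ) ≤ (l : ℝ) ^ 2 →
      (∀ u ∈ Q, ∀ v ∈ Q, sd u v < l) →
      (∀ p ∈ Q, c * (l : ℝ) ^ (-(1 / 4) : ℝ) ≤ Pr E (VL p)) →
      (∀ p ∈ Q, ∀ p' ∈ Q, Pr E (fun ω => VL p ω ∧ VL p' ω) ≤
        C * (((sd p p').toNat : ℝ) + 1) ^ (-(1 / 4) : ℝ) * (l : ℝ) ^ (-(1 / 4) : ℝ)) →
      c' ≤ Pr E (WD M α l Q VL) := by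
  obtain ⟨D, hD⟩ : ∃ D : ℝ, D = 8 * C * (7 / 4 - α)⁻¹ := ⟨_, rfl⟩
  have hD0 : 0 < D := by
    rw [hD]
    have : 0 < 7 / 4 - α := by linarith
    positivity
  obtain ⟨s, hs⟩ : ∃ s : ℝ, s = c * κ / 2 := ⟨_, rfl⟩
  have hs0 : 0 < s := by rw [hs]; positivity
  obtain ⟨p0, hp0⟩ : ∃ p0 : ℝ, p0 = s ^ 2 / D := ⟨_, rfl⟩
  have hp00 : 0 < p0 := by rw [hp0]; positivity
  -- T = T1 l^(7/2), T' = T2 l^(7/4)
  obtain ⟨T1, hT1⟩ : ∃ T1 : ℝ, T1 = 2 * D / p0 := ⟨_, rfl⟩
  have hT10 : 0 < T1 := by rw [hT1]; positivity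
  obtain ⟨T2, hT2⟩ : ∃ T2 : ℝ, T2 = 2 * T1 / s := ⟨_, rfl⟩
  have hT20 : 0 < T2 := by rw [hT2]; positivity
  refine ⟨p0 / 2, T2 * 3 ^ α * (2 / s), by positivity, by positivity, ?_⟩
  intro l E Q VL hl hQ1 hQ2 hQ3 hP1 hP2
  have hl0 : (0 : ℝ) < l := by exact_mod_cast hl
  obtain ⟨L, hL⟩ : ∃ L : ℝ, L = (l : ℝ) ^ (7 / 4 : ℝ) := ⟨_, rfl⟩
  have hL0 : 0 < L := by rw [hL]; positivity
  have hLL : L * L = (l : ℝ) ^ (7 / 2 : ℝ) := by
    rw [hL, ← Real.rpow_add hl0]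
    norm_num
  obtain ⟨R, hR⟩ : ∃ R : Finset Edge → Finset V, R = fun ω => Q.filter (fun p => VL p ω) := ⟨_, rfl⟩
  obtain ⟨U, hU⟩ : ∃ U : Finset Edge → ℝ,
    U = fun ω => ∑ p ∈ R ω, ∑ p' ∈ R ω, kn α l (sd p p').toNat := ⟨_, rfl⟩
  have hU0 : ∀ ω, 0 ≤ U ω := by
    intro ω
    rw [hU]
    exact sum_nonneg fun _ _ => sum_nonneg fun _ _ => kn_nonneg _ _ _
  -- the mean of the energy
  have hEU : Ex E U ≤ D * (L * L) := by
    have h1 : U = fun ω => ∑ p ∈ Q, ∑ p' ∈ Q, kn α l (sd p p').toNat * (if VL p ω ∧ VL p' ω then (1 : ℝ) else 0) := by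
      rw [hU, hR]
      funext ω
      simp only
      rw [sum_filter]
      refine sum_congr rfl fun p _ => ?_
      by_cases h : VL p ω
      · rw [if_pos h, sum_filter]
        refine sum_congr rfl fun p' _ => ?_
        by_cases h' : VL p' ω
        · rw [if_pos h', if_pos ⟨h, h'⟩, mul_one]
        · rw [if_neg h', if_neg (fun h2 => h' h2.2), mul_zero]
      · rw [if_neg h]
        refine (sum_eq_zero fun p' _ => ?_).symm
        rw [if_neg (fun h2 => h h2.1), mul_zero]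
    rw [h1, Ex_sum]
    have h2 : ∀ p ∈ Q, Ex E (fun ω => ∑ p' ∈ Q, kn α l (sd p p').toNat * (if VL p ω ∧ VL p' ω then (1 : ℝ) else 0)) ≤
        D * (l : ℝ) ^ (3 / 2 : ℝ) := by
      intro p hp
      rw [Ex_sum]
      have h3 : ∀ p' ∈ Q, Ex E (fun ω => kn α l (sd p p').toNat * (if VL p ω ∧ VL p' ω then (1 : ℝ) else 0)) ≤
          (fun r : ℕ => C * ((r : ℝ) + 1) ^ (-(1 / 4) : ℝ) * (l : ℝ) ^ (-(1 / 4) : ℝ) * kn α l r) (sd p p').toNat := by
        intro p' hp'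
        have h5 : FKP.Ex E (fun ω => if VL p ω ∧ VL p' ω then (1 : ℝ) else 0) = Pr E (fun ω => VL p ω ∧ VL p' ω) := by
          rw [← Ex_ind]
          congr 1
          funext ω
          by_cases h : VL p ω ∧ VL p' ω
          · rw [if_pos h, if_pos h]
          · rw [if_neg h, if_neg h]
        rw [FKP.Ex_smul, h5]
        simp only
        rw [mul_comm]
        exact mul_le_mul_of_nonneg_right (hP2 p hp p' hp') (kn_nonneg _ _ _)
      refine (sum_le_sum h3).trans ?_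
      refine (sum_sd (hQ3 p hp) (fun r : ℕ => C * ((r : ℝ) + 1) ^ (-(1 / 4) : ℝ) * (l : ℝ) ^ (-(1 / 4) : ℝ) * kn α l r)
        (fun r => ?_)).trans ?_
      · have := kn_nonneg α l r
        positivity
      · rw [hD]
        exact sum_kn hα0 hα1 hC.le hl
    refine (sum_le_sum h2).trans ?_
    rw [sum_const, nsmul_eq_mul, hLL]
    calc (Q.card : ℝ) * (D * (l : ℝ) ^ (3 / 2 : ℝ)) ≤ (l : ℝ) ^ 2 * (D * (l : ℝ) ^ (3 / 2 : ℝ)) := by gcongr
      _ = D * ((l : ℝ) ^ (2 : ℝ) * (l : ℝ) ^ (3 / 2 : ℝ)) := by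
          rw [Real.rpow_two]
          ring
      _ = D * (l : ℝ) ^ (7 / 2 : ℝ) := by
          rw [← Real.rpow_add hl0]
          norm_num
  -- the mean of the number
  have hEN : 2 * (s * L) ≤ Ex E (fun ω => ((R ω).card : ℝ)) := by
    rw [hR, Ex_card Q VL]
    have h1 : (Q.card : ℝ) * (c * (l : ℝ) ^ (-(1 / 4) : ℝ)) ≤ ∑ p ∈ Q, Pr E (VL p) := by
      rw [← nsmul_eq_mul, ← sum_const]
      exact sum_le_sum hP1
    refine le_trans ?_ h1
    have h2 : L = (l : ℝ) ^ 2 * (l : ℝ) ^ (-(1 / 4) : ℝ) := by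
      rw [hL, ← Real.rpow_two, ← Real.rpow_add hl0]
      norm_num
    rw [h2, hs]
    calc 2 * (c * κ / 2 * ((l : ℝ) ^ 2 * (l : ℝ) ^ (-(1 / 4) : ℝ)))
        = (κ * (l : ℝ) ^ 2) * (c * (l : ℝ) ^ (-(1 / 4) : ℝ)) := by ring
      _ ≤ (Q.card : ℝ) * (c * (l : ℝ) ^ (-(1 / 4) : ℝ)) := by gcongr
  -- the square of the number is at most the energy
  have hNU : ∀ ω, ((R ω).card : ℝ) ^ 2 ≤ U ω := by
    intro ω
    rw [hU]
    simp only
    have h1 : ∀ p ∈ R ω, ∀ p' ∈ R ω, (1 : ℝ) ≤ kn α l (sd p p').toNat := by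
      intro p hp p' hp'
      rw [hR] at hp hp'
      have h2 := hQ3 p (mem_filter.1 hp).1 p' (mem_filter.1 hp').1
      have h3 := sd_nonneg p p'
      have h4 : (sd p p').toNat + 1 ≤ l := by omega
      have h5 : (((sd p p').toNat : ℝ) + 1) / l ≤ 1 := by
        rw [div_le_one hl0]
        exact_mod_cast h4
      unfold kn
      exact Real.one_le_rpow_of_pos_of_le_one_of_nonpos (by positivity) h5 (by linarith)
    calc ((R ω).card : ℝ) ^ 2 = ∑ p ∈ R ω, ∑ p' ∈ R ω, (1 : ℝ) := by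
          rw [sum_const, sum_const, nsmul_eq_mul, nsmul_eq_mul]
          ring
      _ ≤ _ := sum_le_sum fun p hp => sum_le_sum fun p' hp' => h1 p hp p' hp'
  have hpz : p0 ≤ Pr E (fun ω => s * L ≤ ((R ω).card : ℝ)) := by
    have h1 := Ex_pz (E := E) (f := fun ω => ((R ω).card : ℝ)) (fun ω _ => by positivity) (t := s * L)
      (by positivity) hEN
    have h2 : Ex E (fun ω => ((R ω).card : ℝ) ^ 2) ≤ D * (L * L) :=
      (Ex_mono fun ω _ => hNU ω).trans hEU
    have h3 := Pr_nonneg E (fun ω => s * L ≤ ((R ω).card : ℝ))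
    have h4 : (s * L) ^ 2 ≤ D * (L * L) * Pr E (fun ω => s * L ≤ ((R ω).card : ℝ)) :=
      h1.trans (mul_le_mul_of_nonneg_right h2 h3)
    have h5 : (0 : ℝ) < D * (L * L) := by positivity
    rw [hp0]
    have h6 : s ^ 2 / D = (s * L) ^ 2 / (D * (L * L)) := by field_simp
    rw [h6, div_le_iff₀ h5]
    linarith
  have hmk : Pr E (fun ω => T1 * (L * L) ≤ U ω) ≤ p0 / 2 := by
    have h1 := Ex_markov (E := E) (f := U) (fun ω _ => hU0 ω) (t := T1 * (L * L))
      (fun ω => T1 * (L * L) ≤ U ω) (fun ω _ h => h)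
    have h2 : T1 * (L * L) * Pr E (fun ω => T1 * (L * L) ≤ U ω) ≤ D * (L * L) := h1.trans hEU
    have h3 : D * (L * L) = T1 * (L * L) * (p0 / 2) := by
      rw [hT1]
      field_simp
    rw [h3] at h2
    exact le_of_mul_le_mul_left h2 (by positivity)
  have hsub : Pr E (fun ω => s * L ≤ ((R ω).card : ℝ)) ≤
      Pr E (WD (T2 * 3 ^ α * (2 / s)) α l Q VL) + Pr E (fun ω => T1 * (L * L) ≤ U ω) := by
    refine le_trans (Pr_mono fun ω _ h => ?_) (Pr_or_le _ _ _)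
    by_cases h1 : T1 * (L * L) ≤ U ω
    · exact Or.inr h1
    · left
      have h2 : U ω ≤ T1 * (L * L) := (not_le.1 h1).le
      have h3 := wd_of (α := α) (by linarith) hl (Q := Q) (VL := VL) (ω := ω) (t := s * L) (T := T1 * (L * L))
        (T' := T2 * L) (by positivity) (by positivity) (by
          rw [hT2]
          apply le_of_eq
          field_simp) (by
          rw [hR] at h
          exact h) (by
          rw [hU, hR] at h2
          exact h2)
      have h4 : T2 * L * 3 ^ α * (2 / (s * L)) = T2 * 3 ^ α * (2 / s) := by field_simp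
      rw [h4] at h3
      exact h3
  linarith

end DimLim
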