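import Pool.Agent.Lib.MP_216314_pr.I.DimB
import Pool.Agent.Lib.MP_216314_pr.I.DimC

/-!
# The rescaled interface: the dimension of the scaling limits is `7/4`
-/

set_option autoImplicit false

noncomputable section

namespace DimLim

open MeasureTheory Filter Topology Set ENNReal NNReal TopologicalSpace Metric FKI FKP

variable {A B : ℝ} (hA : 0 ≤ A) (hB : 0 ≤ B)
  [MeasurableSpace (NonemptyCompacts (Rect A B))] [BorelSpace (NonemptyCompacts (Rect A B))]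

/-- subsequential limits exist -/
theorem law_limit (Vis : ℕ → ℕ → Finset Edge → Finset V) (δ : ℕ → ℝ) :
    ∃ (μ : ProbabilityMeasure (NonemptyCompacts (Rect A B))) (ψ : ℕ → ℕ), StrictMono ψ ∧
      Tendsto (fun k => law hA hB Vis (δ (ψ k))) atTop (𝓝 μ) := by
  obtain ⟨μ, -, ψ, hψ, hμ⟩ := isCompact_univ.tendsto_subseq (x := fun k => law hA hB Vis (δ k)) fun _ => mem_univ _
  exact ⟨μ, ψ, hψ, hμ⟩

/-- all subsequential limits have dimension `7/4` -/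
theorem law_dim (hA' : 0 < A) (hB' : 0 < B) {Vis : ℕ → ℕ → Finset Edge → Finset V} (hU : HypU Vis)
    (hL : ∀ α : ℝ, 3 / 4 ≤ α → α < 7 / 4 → HypL Vis α) (hin : InBox Vis)
    {μ : ProbabilityMeasure (NonemptyCompacts (Rect A B))} {δ : ℕ → ℝ} (hδ : ∀ k, 0 < δ k)
    (hδ0 : Tendsto δ atTop (𝓝 0)) (hμ : Tendsto (fun k => law hA hB Vis (δ k)) atTop (𝓝 μ)) :
    ∀ᵐ (K : NonemptyCompacts (Rect A B)) ∂(μ : Measure (NonemptyCompacts (Rect A B))),
      dimH (K : Set (Rect A B)) = 7 / 4 := by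
  have h1 := law_dim_upper hA hB hA' hB' hU hin hδ hδ0 hμ
  have h74 : (((7 / 4 : ℝ≥0)) : ℝ≥0∞) = 7 / 4 := by
    rw [ENNReal.coe_div (by norm_num)]
    norm_num
  have h2 : ∀ᵐ (K : NonemptyCompacts (Rect A B)) ∂(μ : Measure (NonemptyCompacts (Rect A B))),
      ∀ m : ℕ, ((7 / 4 - 1 / ((m : ℝ≥0) + 1) : ℝ≥0) : ℝ≥0∞) ≤ dimH (K : Set (Rect A B)) := by
    rw [ae_all_iff]
    intro m
    rcases eq_or_ne (7 / 4 - 1 / ((m : ℝ≥0) + 1) : ℝ≥0) 0 with h0 | h0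
    · rw [h0]
      exact Eventually.of_forall fun K => bot_le
    · have h3 : (0 : ℝ≥0) < 7 / 4 - 1 / ((m : ℝ≥0) + 1) := pos_iff_ne_zero.2 h0
      refine law_dim_lower hA hB hA' hB' h3 (hL _ ?_ ?_) hin hδ hδ0 hμ
      · have h5 : (3 / 4 : ℝ≥0) ≤ 7 / 4 - 1 / ((m : ℝ≥0) + 1) := by
          refine le_tsub_of_add_le_right ?_
          have h6 : 1 / ((m : ℝ≥0) + 1) ≤ 1 := by
            rw [div_le_one (by positivity)]
            exact le_add_self
          calc (3 / 4 : ℝ≥0) + 1 / ((m : ℝ≥0) + 1) ≤ 3 / 4 + 1 := by gcongr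
            _ = 7 / 4 := by norm_num
        exact_mod_cast h5
      have h4 : (7 / 4 - 1 / ((m : ℝ≥0) + 1) : ℝ≥0) < 7 / 4 := by
        refine tsub_lt_self (by positivity) (by positivity)
      exact_mod_cast h4
  filter_upwards [h1, h2] with K hK1 hK2
  refine le_antisymm (by rw [← h74]; exact hK1) ?_
  rw [← h74]
  refine ENNReal.le_of_forall_pos_le_add fun ε hε _ => ?_
  obtain ⟨m, hm⟩ := exists_nat_one_div_lt (K := ℝ≥0) hε
  calc ((7 / 4 : ℝ≥0) : ℝ≥0∞) ≤ (((7 / 4 - 1 / ((m : ℝ≥0) + 1)) + 1 / ((m : ℝ≥0) + 1) : ℝ≥0) : ℝ≥0∞) := by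
        exact_mod_cast le_tsub_add
    _ ≤ dimH (K : Set (Rect A B)) + ε := by
        rw [ENNReal.coe_add]
        exact add_le_add (hK2 m) (by exact_mod_cast hm.le)

end DimLim
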