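import Pool.Agent.Lib.MP_216314_pr.I.DimE
import Pool.Agent.Lib.MP_216314_pr.I.DimF

/-!
# The dimension of the scaling limits from one point and two point estimates
-/

set_option autoImplicit false

noncomputable section

namespace DimLim

open FKI FKP

/-- the square around `(a - 3l/2, 3l/2)` with half side `l/8` -/
def qs (a l : ℕ) : Finset V :=
  Finset.Icc ((a : ℤ) - (3 * l / 2 : ℕ) - (l / 8 : ℕ)) ((a : ℤ) - (3 * l / 2 : ℕ) + (l / 8 : ℕ)) ×ˢ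
    Finset.Icc (((3 * l / 2 : ℕ) : ℤ) - (l / 8 : ℕ)) (((3 * l / 2 : ℕ) : ℤ) + (l / 8 : ℕ))

theorem card_qs (a l : ℕ) : (qs a l).card = (2 * (l / 8) + 1) ^ 2 := by
  unfold qs
  rw [Finset.card_product, Int.card_Icc, Int.card_Icc, sq]
  congr 1 <;> omega

theorem mem_qs {a l : ℕ} {v : V} : v ∈ qs a l ↔
    ((a : ℤ) - (3 * l / 2 : ℕ) - (l / 8 : ℕ) ≤ v.1 ∧ v.1 ≤ (a : ℤ) - (3 * l / 2 : ℕ) + (l / 8 : ℕ)) ∧
    (((3 * l / 2 : ℕ) : ℤ) - (l / 8 : ℕ) ≤ v.2 ∧ v.2 ≤ ((3 * l / 2 : ℕ) : ℤ) + (l / 8 : ℕ)) := by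
  unfold qs
  rw [Finset.mem_product, Finset.mem_Icc, Finset.mem_Icc]

/-- local events: one point and two point estimates -/
def HypLoc (Vis : ℕ → ℕ → Finset Edge → Finset V) : Prop :=
  ∃ (VL : ℕ → ℕ → V → Finset Edge → Prop) (c C : ℝ) (l0 : ℕ), 0 < c ∧ 0 < C ∧ ∀ a l : ℕ, l0 ≤ l → 2 * l ≤ a →
    (∀ p ∈ qs a l, Dep (qan a l) (VL a l p)) ∧
    (∀ b : ℕ, 2 * l ≤ b → ∀ ω, ω ⊆ box 0 a 0 b → ∀ p ∈ qs a l, VL a l p ω → p ∈ Vis a b ω) ∧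
    (∀ p ∈ qs a l, c * (l : ℝ) ^ (-(1 / 4) : ℝ) ≤ Pr (qan a l) (VL a l p)) ∧
    (∀ p ∈ qs a l, ∀ p' ∈ qs a l, Pr (qan a l) (fun ω => VL a l p ω ∧ VL a l p' ω) ≤
      C * (((sd p p').toNat : ℝ) + 1) ^ (-(1 / 4) : ℝ) * (l : ℝ) ^ (-(1 / 4) : ℝ))

theorem hypL_of_loc {Vis : ℕ → ℕ → Finset Edge → Finset V} (h : HypLoc Vis) {α : ℝ} (hα0 : 3 / 4 ≤ α)
    (hα1 : α < 7 / 4) : HypL Vis α := by
  obtain ⟨VL, c, C, l0, hc, hC, hV⟩ := h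
  obtain ⟨c', M, hc', hM, hF⟩ := frostman_event hα0 hα1 hc hC (κ := 1 / 64) (by norm_num)
  refine ⟨c', M, max l0 8, hc', hM, ?_⟩
  intro a b l hl hla hlb
  have hl1 : l0 ≤ l := (le_max_left _ _).trans hl
  have hl8 : 8 ≤ l := (le_max_right _ _).trans hl
  obtain ⟨h1, h2, h3, h4⟩ := hV a l hl1 hla
  have hQ1 : (1 / 64 : ℝ) * (l : ℝ) ^ 2 ≤ (qs a l).card := by
    rw [card_qs]
    have h5 : l ≤ 16 * (l / 8) := by omega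
    have h6 : (l : ℝ) ≤ 16 * ((l / 8 : ℕ) : ℝ) := by exact_mod_cast h5
    have h7 : (0 : ℝ) ≤ (l : ℝ) := by positivity
    have h8 : ((l : ℝ)) ^ 2 ≤ (16 * ((l / 8 : ℕ) : ℝ)) ^ 2 := by gcongr
    push_cast
    nlinarith
  have hQ2 : (((qs a l).card : ℕ) : ℝ) ≤ (l : ℝ) ^ 2 := by
    rw [card_qs]
    have h5 : 2 * (l / 8) + 1 ≤ l := by omega
    have h6 : (2 * (l / 8) + 1) ^ 2 ≤ l ^ 2 := Nat.pow_le_pow_left h5 2
    exact_mod_cast h6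
  have hQ3 : ∀ u ∈ qs a l, ∀ v ∈ qs a l, sd u v < l := by
    intro u hu v hv
    rw [mem_qs] at hu hv
    have h5 : sd u v ≤ 2 * (l / 8 : ℕ) := by
      rw [sd_le]
      constructor <;> constructor <;> omega
    omega
  have hG := hF l (qan a l) (qs a l) (VL a l) (by omega) hQ1 hQ2 hQ3 h3 h4
  have hdep : Dep (qan a l) (WD M α l (qs a l) (VL a l)) := by
    intro ω
    unfold WD
    constructor
    · rintro ⟨S, hS1, hS2, hS3⟩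
      exact ⟨S, hS1, fun p hp => (h1 p (hS1 hp) ω).1 (hS2 p hp), hS3⟩
    · rintro ⟨S, hS1, hS2, hS3⟩
      exact ⟨S, hS1, fun p hp => (h1 p (hS1 hp) ω).2 (hS2 p hp), hS3⟩
  refine ⟨WD M α l (qs a l) (VL a l), hdep, ?_, ?_⟩
  · rw [Pr_dep (qan_sub hla hlb) hdep]
    exact hG
  · intro ω hω hW
    obtain ⟨S, hS1, hS2, hS3, hS4⟩ := hW
    exact ⟨S, fun p hp => h2 b hlb ω hω p (hS1 hp) (hS2 p hp), hS3, hS4⟩

end DimLim
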