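import Pool.Agent.Lib.MP_216314_pr.I.DimU

/-!
# Dimension of subsequential limits of random compact sets: lower bound
-/

set_option autoImplicit false

noncomputable section

namespace DimLim

open MeasureTheory Filter Topology Set ENNReal NNReal TopologicalSpace Metric

variable {E : Type*} [MetricSpace E] [MeasurableSpace E] [BorelSpace E]

/-- `K` carries a probability measure with `ν (ball x r) ≤ M r^α` for all `r ≥ r0` -/
def Fro (α : ℝ) (M : ℝ≥0) (r0 : ℝ) (K : NonemptyCompacts E) : Prop :=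
  ∃ ν : ProbabilityMeasure E, (ν : Measure E) (K : Set E)ᶜ = 0 ∧
    ∀ (x : E) (r : ℝ), 0 < r → r0 ≤ r → (ν : Measure E) (ball x r) ≤ M * ENNReal.ofReal r ^ α

omit [BorelSpace E] in
theorem Fro.mono {α : ℝ} {M : ℝ≥0} {r0 r1 : ℝ} (h : r0 ≤ r1) {K : NonemptyCompacts E}
    (hK : Fro α M r0 K) : Fro α M r1 K := by
  obtain ⟨ν, h1, h2⟩ := hK
  exact ⟨ν, h1, fun x r hr0 hr => h2 x r hr0 (h.trans hr)⟩

/-- limit of Frostman measures along a filter -/
theorem fro_limit {ι : Type*} {L : Filter ι} [L.NeBot] {α : ℝ} {M : ℝ≥0} {r0 : ι → ℝ} {r1 : ℝ}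
    {K : NonemptyCompacts E} {Ks : ι → NonemptyCompacts E} (hK : Tendsto Ks L (𝓝 K))
    {νs : ι → ProbabilityMeasure E} {ν : ProbabilityMeasure E} (hν : Tendsto νs L (𝓝 ν))
    (h1 : ∀ᶠ i in L, (νs i : Measure E) (Ks i : Set E)ᶜ = 0)
    (h2 : ∀ᶠ i in L, ∀ (x : E) (r : ℝ), 0 < r → r0 i ≤ r →
      (νs i : Measure E) (ball x r) ≤ M * ENNReal.ofReal r ^ α)
    (hr : ∀ r : ℝ, 0 < r → r1 ≤ r → ∀ᶠ i in L, r0 i ≤ r) [SecondCountableTopology E] :
    (ν : Measure E) (K : Set E)ᶜ = 0 ∧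
    ∀ (x : E) (r : ℝ), 0 < r → r1 ≤ r → (ν : Measure E) (ball x r) ≤ M * ENNReal.ofReal r ^ α := by
  constructor
  · refine measure_null_of_locally_null _ fun y hy => ?_
    obtain ⟨ε, hε, hball⟩ := Metric.isOpen_iff.1 K.isCompact.isClosed.isOpen_compl y hy
    refine ⟨ball y (ε / 2), mem_nhdsWithin_of_mem_nhds (ball_mem_nhds y (by linarith)), ?_⟩
    refine le_antisymm ((ProbabilityMeasure.le_liminf_measure_open_of_tendsto hν isOpen_ball).trans ?_) bot_le
    refine liminf_le_of_le (by isBoundedDefault) fun c hc => ?_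
    have h3 : ∀ᶠ i in L, dist (Ks i) K < ε / 2 :=
      (hK.eventually (Metric.ball_mem_nhds K (half_pos hε)))
    obtain ⟨i, hi1, hi2, hi3⟩ := (hc.and (h1.and h3)).exists
    refine hi1.trans (le_of_eq ?_)
    refine measure_mono_null (t := ((Ks i : Set E))ᶜ) (fun z hz => ?_) hi2
    intro hzK
    obtain ⟨w, hw, hzw⟩ := exists_near hi3 hzK
    refine hball ?_ hw
    rw [Metric.mem_ball] at hz ⊢
    calc dist w y ≤ dist w z + dist z y := dist_triangle _ _ _
      _ < ε / 2 + ε / 2 := by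
          rw [dist_comm w z]
          exact add_lt_add hzw hz
      _ = ε := by ring
  · intro x r hr0 hr1
    refine (ProbabilityMeasure.le_liminf_measure_open_of_tendsto hν isOpen_ball).trans ?_
    refine liminf_le_of_le (by isBoundedDefault) fun c hc => ?_
    obtain ⟨i, hi1, hi2, hi3⟩ := (hc.and (h2.and (hr r hr0 hr1))).exists
    exact hi1.trans (hi2 x r hr0 hi3)

variable [CompactSpace E]

/-- the Frostman condition is closed -/
theorem isClosed_fro (α : ℝ) (M : ℝ≥0) (r0 : ℝ) :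
    IsClosed {K : NonemptyCompacts E | Fro α M r0 K} := by
  classical
  rw [isClosed_iff_ultrafilter]
  intro K u hu hF
  obtain ⟨ν, hν⟩ : ∃ ν : NonemptyCompacts E → ProbabilityMeasure E, ∀ K' : NonemptyCompacts E,
      Fro α M r0 K' → (ν K' : Measure E) (K' : Set E)ᶜ = 0 ∧
      ∀ (x : E) (r : ℝ), 0 < r → r0 ≤ r → (ν K' : Measure E) (ball x r) ≤ M * ENNReal.ofReal r ^ α := by
    obtain ⟨K0, ν0, -, -⟩ := u.nonempty_of_mem hF
    have hex : ∀ K' : NonemptyCompacts E, ∃ ν : ProbabilityMeasure E, Fro α M r0 K' →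
        (ν : Measure E) (K' : Set E)ᶜ = 0 ∧
        ∀ (x : E) (r : ℝ), 0 < r → r0 ≤ r → (ν : Measure E) (ball x r) ≤ M * ENNReal.ofReal r ^ α := by
      intro K'
      by_cases h : Fro α M r0 K'
      · obtain ⟨ν, h1, h2⟩ := h
        exact ⟨ν, fun _ => ⟨h1, h2⟩⟩
      · exact ⟨ν0, fun h' => absurd h' h⟩
    choose ν hν using hex
    exact ⟨ν, hν⟩
  obtain ⟨ν0, -, hν0⟩ := isCompact_univ.ultrafilter_le_nhds (u.map ν) (by simp)
  have h1 : Tendsto ν u (𝓝 ν0) := hν0
  obtain ⟨h2, h3⟩ := fro_limit (L := (u : Filter (NonemptyCompacts E))) (α := α) (M := M) (r0 := fun _ => r0)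
    (r1 := r0) (K := K) (Ks := fun K' => K') hu h1 (by
      filter_upwards [hF] with K' hK'
      exact (hν K' hK').1) (by
      filter_upwards [hF] with K' hK'
      exact (hν K' hK').2) (fun r _ hr => Eventually.of_forall fun _ => hr)
  exact ⟨ν0, h2, h3⟩

/-- Frostman measures at all scales give one Frostman measure -/
theorem fro_all {α : ℝ} {M : ℝ≥0} {K : NonemptyCompacts E}
    (h : ∀ m : ℕ, Fro α M (1 / ((m : ℝ) + 1)) K) : Fro α M 0 K := by
  choose ν h1 h2 using h
  obtain ⟨ν0, -, hν0⟩ := isCompact_univ.ultrafilter_le_nhds ((Ultrafilter.of atTop).map ν) (by simp)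
  have h3 : Tendsto ν (Ultrafilter.of (atTop : Filter ℕ)) (𝓝 ν0) := hν0
  obtain ⟨h4, h5⟩ := fro_limit (L := ((Ultrafilter.of (atTop : Filter ℕ) : Ultrafilter ℕ) : Filter ℕ))
    (α := α) (M := M) (r0 := fun m : ℕ => 1 / ((m : ℝ) + 1)) (r1 := 0) (K := K) (Ks := fun _ => K)
    tendsto_const_nhds h3 (Eventually.of_forall h1) (Eventually.of_forall h2) (fun r hr _ => by
      have h6 : ∀ᶠ m : ℕ in atTop, 1 / ((m : ℝ) + 1) ≤ r := by
        have h7 := tendsto_one_div_add_atTop_nhds_zero_nat (𝕜 := ℝ)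
        exact (h7.eventually (gt_mem_nhds hr)).mono fun m hm => le_of_lt hm
      exact Ultrafilter.of_le atTop h6)
  exact ⟨ν0, h4, h5⟩

omit [CompactSpace E] in
/-- mass distribution principle -/
theorem dim_of_fro {α : ℝ≥0} (hα : 0 < α) {M : ℝ≥0} {K : NonemptyCompacts E} (h : Fro α M 0 K) :
    (α : ℝ≥0∞) ≤ dimH (K : Set E) := by
  obtain ⟨ν, h1, h2⟩ := h
  refine le_dimH_of_hausdorffMeasure_ne_zero fun h3 => ?_
  obtain ⟨A, hA⟩ : ∃ A : ℝ≥0∞, A = (M + 1) * 2 ^ (α : ℝ) := ⟨_, rfl⟩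
  have hA0 : A ≠ 0 := by
    rw [hA]
    exact mul_ne_zero (by simp) (by positivity)
  have hAt : A ≠ ∞ := by
    rw [hA]
    exact ENNReal.mul_ne_top (by simp) (ENNReal.rpow_ne_top_of_nonneg α.2 (by simp))
  have hα' : (0 : ℝ) < α := by exact_mod_cast hα
  have h4 : A⁻¹ • (ν : Measure E) ≤ μH[(α : ℝ)] := by
    refine Measure.le_hausdorffMeasure (α : ℝ) _ 1 one_pos fun s hs => ?_
    rw [Measure.smul_apply, smul_eq_mul]
    rcases s.eq_empty_or_nonempty with he | ⟨x, hx⟩
    · rw [he, measure_empty, mul_zero]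
      exact bot_le
    have hst : ediam s ≠ ∞ := ne_top_of_le_ne_top one_ne_top hs
    rcases eq_or_ne (ediam s) 0 with h0 | h0
    · -- a single point
      have h5 : ∀ r : ℝ, 0 < r → (ν : Measure E) s ≤ M * ENNReal.ofReal r ^ (α : ℝ) := by
        intro r hr
        refine le_trans (measure_mono fun y hy => ?_) (h2 x r hr hr.le)
        have h6 : edist y x ≤ ediam s := edist_le_ediam_of_mem hy hx
        rw [h0] at h6
        have h7 : y = x := edist_le_zero.1 h6
        rw [h7]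
        exact mem_ball_self hr
      have h8 : (ν : Measure E) s = 0 := by
        refine le_antisymm ?_ bot_le
        have h9 : Tendsto (fun m : ℕ => (M : ℝ≥0∞) * ENNReal.ofReal (1 / ((m : ℝ) + 1)) ^ (α : ℝ)) atTop
            (𝓝 (M * ENNReal.ofReal 0 ^ (α : ℝ))) := by
          refine ENNReal.Tendsto.const_mul ?_ (Or.inr coe_ne_top)
          exact (ENNReal.continuous_rpow_const.tendsto _).comp
            ((ENNReal.continuous_ofReal.tendsto _).comp tendsto_one_div_add_atTop_nhds_zero_nat)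
        rw [ENNReal.ofReal_zero, ENNReal.zero_rpow_of_pos hα', mul_zero] at h9
        exact ge_of_tendsto' h9 fun m => h5 _ (by positivity)
      rw [h8, mul_zero]
      exact bot_le
    · obtain ⟨d, hd⟩ : ∃ d : ℝ, d = (ediam s).toReal := ⟨_, rfl⟩
      have hd0 : 0 < d := by
        rw [hd]
        exact ENNReal.toReal_pos h0 hst
      have hds : ENNReal.ofReal d = ediam s := by
        rw [hd]
        exact ENNReal.ofReal_toReal hst
      have h5 : (ν : Measure E) s ≤ M * ENNReal.ofReal (2 * d) ^ (α : ℝ) := by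
        refine le_trans (measure_mono fun y hy => ?_) (h2 x (2 * d) (by linarith) (by linarith))
        have h6 : edist y x ≤ ediam s := edist_le_ediam_of_mem hy hx
        rw [Metric.mem_ball]
        have h7 : dist y x ≤ d := by
          rw [edist_dist, ← hds] at h6
          exact (ENNReal.ofReal_le_ofReal_iff hd0.le).1 h6
        linarith
      have h6 : (ν : Measure E) s ≤ A * ediam s ^ (α : ℝ) := by
        refine h5.trans ?_
        rw [ENNReal.ofReal_mul (by norm_num), ENNReal.mul_rpow_of_nonneg _ _ hα'.le, hds, hA, ← mul_assoc]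
        refine mul_le_mul_left ?_ _
        refine mul_le_mul' le_self_add ?_
        simp
      calc A⁻¹ * (ν : Measure E) s ≤ A⁻¹ * (A * ediam s ^ (α : ℝ)) := by gcongr
        _ = ediam s ^ (α : ℝ) := by
          rw [← mul_assoc, ENNReal.inv_mul_cancel hA0 hAt, one_mul]
  have h5 := h4 (K : Set E)
  rw [h3, Measure.smul_apply, smul_eq_mul, nonpos_iff_eq_zero, mul_eq_zero] at h5
  rcases h5 with h5 | h5
  · exact hAt (ENNReal.inv_eq_zero.1 h5)
  · have h6 : (ν : Measure E) univ = 0 := by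
      have h7 : (univ : Set E) = (K : Set E) ∪ (K : Set E)ᶜ := (union_compl_self _).symm
      rw [h7]
      exact measure_union_null h5 h1
    rw [measure_univ] at h6
    exact one_ne_zero h6

variable [MeasurableSpace (NonemptyCompacts E)] [BorelSpace (NonemptyCompacts E)]

/-- lower bound for the dimension of almost every set of a subsequential limit -/
theorem dim_lower {α : ℝ≥0} (hα : 0 < α) {P : ℕ → ProbabilityMeasure (NonemptyCompacts E)}
    {r : ℕ → ℝ} (hr : Tendsto r atTop (𝓝 0))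
    (h : ∀ ρ : ℝ≥0∞, 0 < ρ → ∃ M : ℝ≥0, ∀ᶠ n in atTop,
      (P n : Measure (NonemptyCompacts E)) {K | Fro α M (r n) K}ᶜ ≤ ρ)
    {μ : ProbabilityMeasure (NonemptyCompacts E)} {φ : ℕ → ℕ} (hφ : Tendsto φ atTop atTop)
    (hμ : Tendsto (fun k => P (φ k)) atTop (𝓝 μ)) :
    ∀ᵐ (K : NonemptyCompacts E) ∂(μ : Measure (NonemptyCompacts E)), (α : ℝ≥0∞) ≤ dimH (K : Set E) := by
  have key : ∀ ρ : ℝ≥0∞, 0 < ρ → ∃ M : ℝ≥0, ∀ m : ℕ,
      (μ : Measure (NonemptyCompacts E)) {K | Fro α M (1 / ((m : ℝ) + 1)) K}ᶜ ≤ ρ := by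
    intro ρ hρ
    obtain ⟨M, hM⟩ := h ρ hρ
    refine ⟨M, fun m => ?_⟩
    refine (ProbabilityMeasure.le_liminf_measure_open_of_tendsto hμ
      (isClosed_fro (α : ℝ) M (1 / ((m : ℝ) + 1))).isOpen_compl).trans ?_
    refine liminf_le_of_le (by isBoundedDefault) fun c hc => ?_
    have h3 : ∀ᶠ n in atTop, r n < 1 / ((m : ℝ) + 1) := hr.eventually (gt_mem_nhds (by positivity))
    obtain ⟨k, hk1, hk2, hk3⟩ := (hc.and (hφ.eventually (hM.and h3))).exists
    refine hk1.trans (le_trans (measure_mono ?_) hk2)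
    exact compl_subset_compl.2 fun K hK => Fro.mono hk3.le hK
  have key2 : ∀ ρ : ℝ≥0∞, 0 < ρ → ∃ M : ℝ≥0,
      (μ : Measure (NonemptyCompacts E)) {K | Fro α M 0 K}ᶜ ≤ ρ := by
    intro ρ hρ
    obtain ⟨M, hM⟩ := key ρ hρ
    refine ⟨M, ?_⟩
    have h4 : {K : NonemptyCompacts E | Fro (α : ℝ) M 0 K}ᶜ ⊆
        ⋃ m : ℕ, {K | Fro (α : ℝ) M (1 / ((m : ℝ) + 1)) K}ᶜ := by
      intro K hK
      by_contra hcon
      apply hK
      refine fro_all fun m => ?_
      by_contra hm
      exact hcon (mem_iUnion.2 ⟨m, hm⟩)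
    refine (measure_mono h4).trans ?_
    have hmono : Monotone fun m : ℕ => {K : NonemptyCompacts E | Fro (α : ℝ) M (1 / ((m : ℝ) + 1)) K}ᶜ := by
      intro m m' hm
      refine compl_subset_compl.2 fun K hK => Fro.mono ?_ hK
      exact one_div_le_one_div_of_le (by positivity) (by
        have : (m : ℝ) ≤ m' := by exact_mod_cast hm
        linarith)
    rw [hmono.measure_iUnion]
    exact iSup_le hM
  have h5 : (μ : Measure (NonemptyCompacts E))
      {K : NonemptyCompacts E | ¬ (α : ℝ≥0∞) ≤ dimH (K : Set E)} ≤ 0 := by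
    refine le_of_forall_gt_imp_ge_of_dense fun ρ hρ => ?_
    obtain ⟨M, hM⟩ := key2 ρ hρ
    refine (measure_mono fun K hK hF => ?_).trans hM
    exact hK (dim_of_fro hα hF)
  exact ae_iff.2 (le_antisymm h5 bot_le)

end DimLim
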