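import Pool.Agent.Lib.MP_216314_pr.I.DimL
import Pool.Agent.Lib.MP_216314_pr.Cy.CyO

/-!
# The rescaled interface as a random compact subset of a rectangle

`Rect A B = [0,A] × [0,B]`. `Vis a b ω`: a finite set of vertices of `[0,a] × [0,b]` (the vertices visited by the interface in the
configuration `ω` of the box). With the mesh `δ` and `a = ⌊A / δ⌋`, `b = ⌊B / δ⌋` the rescaled set `{δ w : w ∈ Vis a b ω}` is
a random compact subset of the rectangle; `law δ` is its distribution if `ω` is uniform (bond percolation with parameter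
`1/2`).
-/

set_option autoImplicit false

noncomputable section

namespace DimLim

open MeasureTheory Filter Topology Set ENNReal NNReal TopologicalSpace Metric FKI FKP

/-- the rectangle `[0,A] × [0,B]` -/
abbrev Rect (A B : ℝ) : Type := (Set.Icc (0 : ℝ) A) × (Set.Icc (0 : ℝ) B)

section

variable {A B : ℝ} (hA : 0 ≤ A) (hB : 0 ≤ B)

/-- the rescaled vertex `δ w` (projected to the rectangle) -/
def emb (δ : ℝ) (w : V) : Rect A B :=
  (Set.projIcc 0 A hA (δ * w.1), Set.projIcc 0 B hB (δ * w.2))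

/-- the finite set of rescaled vertices as a compact set (the corner if there is none) -/
def embS (δ : ℝ) (S : Finset V) : NonemptyCompacts (Rect A B) where
  carrier := if S.Nonempty then (emb hA hB δ) '' (S : Set V) else {emb hA hB δ (0, 0)}
  isCompact' := by
    split_ifs
    · exact (S.finite_toSet.image _).isCompact
    · exact isCompact_singleton
  nonempty' := by
    split_ifs with h
    · obtain ⟨w, hw⟩ := h
      exact ⟨_, w, hw, rfl⟩
    · exact ⟨_, rfl⟩

theorem embS_coe {δ : ℝ} {S : Finset V} (h : S.Nonempty) :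
    ((embS hA hB δ S : NonemptyCompacts (Rect A B)) : Set (Rect A B)) = (emb hA hB δ) '' (S : Set V) := by
  show (if S.Nonempty then (emb hA hB δ) '' (S : Set V) else {emb hA hB δ (0, 0)}) = _
  rw [if_pos h]

variable [MeasurableSpace (NonemptyCompacts (Rect A B))] [BorelSpace (NonemptyCompacts (Rect A B))]

/-- the uniform measure on the subsets of `E`, image under `f` -/
def lawM {X : Type*} [MeasurableSpace X] (E : Finset Edge) (f : Finset Edge → X) : Measure X :=
  (2 ^ E.card : ℝ≥0∞)⁻¹ • ∑ ω ∈ E.powerset, Measure.dirac (f ω)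

theorem lawM_prob {X : Type*} [MeasurableSpace X] (E : Finset Edge) (f : Finset Edge → X) :
    IsProbabilityMeasure (lawM E f) := by
  constructor
  unfold lawM
  rw [Measure.smul_apply, Measure.finsetSum_apply]
  simp only [measure_univ, Finset.sum_const, Finset.card_powerset, nsmul_eq_mul, mul_one, smul_eq_mul]
  push_cast
  exact ENNReal.inv_mul_cancel (by positivity) (by simp)

open Classical in
/-- the law as a probability -/
theorem lawM_apply {X : Type*} [MeasurableSpace X] [MeasurableSingletonClass X] (E : Finset Edge)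
    (f : Finset Edge → X) (S : Set X) :
    lawM E f S = ENNReal.ofReal (Pr E (fun ω => f ω ∈ S)) := by
  unfold lawM
  rw [Measure.smul_apply, Measure.finsetSum_apply, pproba_eq, smul_eq_mul,
    ENNReal.ofReal_div_of_pos (by positivity), ENNReal.div_eq_inv_mul]
  congr 1
  · rw [ENNReal.ofReal_pow (by norm_num)]
    simp
  · simp only [Measure.dirac_apply, Set.indicator_apply, Pi.one_apply]
    rw [Finset.sum_boole, ENNReal.ofReal_natCast]

/-- the law of the rescaled interface, mesh `δ` -/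
def law (Vis : ℕ → ℕ → Finset Edge → Finset V) (δ : ℝ) :
    ProbabilityMeasure (NonemptyCompacts (Rect A B)) :=
  ⟨lawM (box 0 (⌊A / δ⌋₊ : ℤ) 0 (⌊B / δ⌋₊ : ℤ))
    (fun ω => embS hA hB δ (Vis ⌊A / δ⌋₊ ⌊B / δ⌋₊ ω)), lawM_prob _ _⟩

end

/-- (u): the probability that the interface comes near a vertex -/
def HypU (Vis : ℕ → ℕ → Finset Edge → Finset V) : Prop :=
  ∀ K : ℕ, ∃ C : ℝ, 0 < C ∧ ∀ (a b m d : ℕ) (v : V), 1 ≤ a → 1 ≤ b → a ≤ K * b → b ≤ K * a →
    1 ≤ m → m ≤ d → (d : ℤ) ≤ v.1 → v.1 + d ≤ a → (d : ℤ) ≤ v.2 → v.2 + d ≤ b →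
    Pr (box 0 a 0 b) (fun ω => ∃ w ∈ Vis a b ω, sd v w ≤ m) ≤ C * ((m : ℝ) / d) ^ (1 / 4 : ℝ)

/-- the quarter annulus around the corner `(a,0)` -/
def qan (a l : ℕ) : Finset Edge := box ((a : ℤ) - 2 * l) a 0 (2 * l) \ box ((a : ℤ) - l) a 0 l

/-- (l): local events with a well distributed set of visited vertices -/
def HypL (Vis : ℕ → ℕ → Finset Edge → Finset V) (α : ℝ) : Prop :=
  ∃ (c M : ℝ) (l0 : ℕ), 0 < c ∧ 0 < M ∧ ∀ (a b l : ℕ), l0 ≤ l → 2 * l ≤ a → 2 * l ≤ b →
    ∃ G : Finset Edge → Prop, Dep (qan a l) G ∧ c ≤ Pr (box 0 a 0 b) G ∧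
      ∀ ω, ω ⊆ box 0 a 0 b → G ω → ∃ S, S ⊆ Vis a b ω ∧ S.Nonempty ∧
        ∀ (v : V) (r : ℕ), 1 ≤ r →
          ((S.filter (fun w => sd v w ≤ r)).card : ℝ) ≤ M * ((r : ℝ) / l) ^ α * S.card

end DimLim
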