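import Mathlib

/-!
# Dimension of subsequential limits of random compact sets: upper bound

`E` is a compact metric space, `P n` are probability measures on the space of its nonempty compact subsets (Hausdorff metric).
-/

set_option autoImplicit false

noncomputable section

namespace DimLim

open MeasureTheory Filter Topology Set ENNReal NNReal TopologicalSpace Metric

variable {E : Type*} [MetricSpace E]

/-- the compact sets which meet `U` -/
def mt (U : Set E) : Set (NonemptyCompacts E) := {K | ((K : Set E) ∩ U).Nonempty}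

theorem mem_mt {U : Set E} {K : NonemptyCompacts E} : K ∈ mt U ↔ ((K : Set E) ∩ U).Nonempty := Iff.rfl

/-- if `K'` is close to `K` then every point of `K` is close to `K'` -/
theorem exists_near {K K' : NonemptyCompacts E} {ε : ℝ} (h : dist K K' < ε) {x : E} (hx : x ∈ (K : Set E)) :
    ∃ y ∈ (K' : Set E), dist x y < ε := by
  rw [NonemptyCompacts.dist_eq] at h
  exact exists_dist_lt_of_hausdorffDist_lt hx h
    (hausdorffEDist_ne_top_of_nonempty_of_bounded K.nonempty K'.nonempty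
      K.isCompact.isBounded K'.isCompact.isBounded)

theorem isOpen_mt {U : Set E} (hU : IsOpen U) : IsOpen (mt U) := by
  rw [Metric.isOpen_iff]
  rintro K ⟨x, hx, hxU⟩
  obtain ⟨ε, hε, hball⟩ := Metric.isOpen_iff.1 hU x hxU
  refine ⟨ε, hε, fun K' hK' => ?_⟩
  rw [Metric.mem_ball, dist_comm] at hK'
  obtain ⟨y, hy, hxy⟩ := exists_near hK' hx
  exact ⟨y, hy, hball (by rw [Metric.mem_ball, dist_comm]; exact hxy)⟩

variable [MeasurableSpace (NonemptyCompacts E)] [BorelSpace (NonemptyCompacts E)]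

open Classical in
/-- upper bound for the dimension of almost every set of a subsequential limit -/
theorem dim_upper [MeasurableSpace E] [BorelSpace E] {ι : ℕ → Type} [∀ j, Fintype (ι j)] (U : ∀ j, ι j → Set E)
    (hU : ∀ j i, IsOpen (U j i)) (C : ℝ≥0) (hdiam : ∀ j i, ediam (U j i) ≤ C * (2 : ℝ≥0∞)⁻¹ ^ j)
    (hcov : ∀ j, ⋃ i, U j i = univ) (b : ∀ j, ι j → ℝ≥0∞) (s : ℝ≥0)
    (hb : ∀ j, ∑ i, b j i ≤ C * ((2 : ℝ≥0∞) ^ (s : ℝ)) ^ j) {P : ℕ → ProbabilityMeasure (NonemptyCompacts E)}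
    (hP : ∀ j, ∀ᶠ n in atTop, ∀ i, (P n : Measure (NonemptyCompacts E)) (mt (U j i)) ≤ b j i)
    {μ : ProbabilityMeasure (NonemptyCompacts E)} {φ : ℕ → ℕ} (hφ : Tendsto φ atTop atTop)
    (hμ : Tendsto (fun k => P (φ k)) atTop (𝓝 μ)) :
    ∀ᵐ (K : NonemptyCompacts E) ∂(μ : Measure (NonemptyCompacts E)), dimH (K : Set E) ≤ s := by
  have h1 : ∀ j i, (μ : Measure (NonemptyCompacts E)) (mt (U j i)) ≤ b j i := by
    intro j i
    refine (ProbabilityMeasure.le_liminf_measure_open_of_tendsto hμ (isOpen_mt (hU j i))).trans ?_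
    refine liminf_le_of_le (by isBoundedDefault) fun c hc => ?_
    obtain ⟨k, hk1, hk2⟩ := (hc.and (hφ.eventually (hP j))).exists
    exact hk1.trans (hk2 i)
  have hmeas : ∀ j i, MeasurableSet (mt (U j i)) := fun j i => (isOpen_mt (hU j i)).measurableSet
  -- the number of sets of the cover which are hit
  obtain ⟨f, hf⟩ : ∃ f : ℕ → NonemptyCompacts E → ℝ≥0∞,
    f = fun j K => ∑ i, (mt (U j i)).indicator (fun _ => 1) K := ⟨_, rfl⟩
  have hfm : ∀ j, Measurable (f j) := by
    intro j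
    rw [hf]
    exact Finset.measurable_fun_sum _ fun i _ => measurable_const.indicator (hmeas j i)
  have hfi : ∀ j, ∫⁻ K, f j K ∂(μ : Measure (NonemptyCompacts E)) ≤ C * ((2 : ℝ≥0∞) ^ (s : ℝ)) ^ j := by
    intro j
    rw [hf]
    simp only
    rw [lintegral_finsetSum _ fun i _ => measurable_const.indicator (hmeas j i)]
    refine le_trans (Finset.sum_le_sum fun i _ => ?_) (hb j)
    rw [lintegral_indicator (hmeas j i), lintegral_const, one_mul, Measure.restrict_apply_univ]
    exact h1 j i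
  have key : ∀ t : ℝ≥0, s < t → ∀ᵐ (K : NonemptyCompacts E) ∂(μ : Measure (NonemptyCompacts E)), dimH (K : Set E) ≤ t := by
    intro t ht
    have ht0 : (0 : ℝ) < t := lt_of_le_of_lt s.2 ht
    obtain ⟨w, hw⟩ : ∃ w : ℝ≥0∞, w = ((2 : ℝ≥0∞)⁻¹) ^ (t : ℝ) := ⟨_, rfl⟩
    have hF : ∫⁻ K, ∑' j, w ^ j * f j K ∂(μ : Measure (NonemptyCompacts E)) ≠ ∞ := by
      rw [lintegral_tsum fun j => ((hfm j).const_mul _).aemeasurable]
      have h2 : ∀ j, ∫⁻ K, w ^ j * f j K ∂(μ : Measure (NonemptyCompacts E)) ≤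
          C * (w * (2 : ℝ≥0∞) ^ (s : ℝ)) ^ j := by
        intro j
        rw [lintegral_const_mul _ (hfm j)]
        calc w ^ j * ∫⁻ K, f j K ∂(μ : Measure (NonemptyCompacts E))
            ≤ w ^ j * (C * ((2 : ℝ≥0∞) ^ (s : ℝ)) ^ j) := by gcongr; exact hfi j
          _ = C * (w * (2 : ℝ≥0∞) ^ (s : ℝ)) ^ j := by rw [mul_pow]; ring
      refine ne_top_of_le_ne_top ?_ (ENNReal.tsum_le_tsum h2)
      rw [ENNReal.tsum_mul_left, ENNReal.tsum_geometric]
      refine ENNReal.mul_ne_top coe_ne_top (ENNReal.inv_ne_top.2 ?_)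
      have h3 : w * (2 : ℝ≥0∞) ^ (s : ℝ) = (2 : ℝ≥0∞) ^ (-((t : ℝ) - s)) := by
        rw [hw, ← ENNReal.rpow_neg_one, ← ENNReal.rpow_mul, ← ENNReal.rpow_add _ _ two_ne_zero ofNat_ne_top]
        congr 1
        ring
      have h4 : w * (2 : ℝ≥0∞) ^ (s : ℝ) < 1 := by
        rw [h3]
        refine ENNReal.rpow_lt_one_of_one_lt_of_neg (by norm_num) ?_
        have : (s : ℝ) < t := by exact_mod_cast ht
        linarith
      exact (tsub_pos_iff_lt.2 h4).ne'
    have hae := ae_lt_top' (AEMeasurable.tsum fun j => ((hfm j).const_mul _).aemeasurable) hF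
    filter_upwards [hae] with K hK
    have h5 : Tendsto (fun j => w ^ j * f j K) atTop (𝓝 0) := ENNReal.tendsto_atTop_zero_of_tsum_ne_top hK.ne
    have h6 : μH[(t : ℝ)] (K : Set E) ≤
        liminf (fun j => ∑ i, ediam (if K ∈ mt (U j i) then U j i else ∅) ^ (t : ℝ)) atTop := by
      refine Measure.hausdorffMeasure_le_liminf_sum (t : ℝ) (K : Set E)
        (fun j => C * (2 : ℝ≥0∞)⁻¹ ^ j) ?_ (fun j i => if K ∈ mt (U j i) then U j i else ∅)
        (Eventually.of_forall fun j i => ?_) (Eventually.of_forall fun j x hx => ?_)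
      · have h7 : Tendsto (fun j : ℕ => (2 : ℝ≥0∞)⁻¹ ^ j) atTop (𝓝 0) :=
          ENNReal.tendsto_pow_atTop_nhds_zero_of_lt_one (by norm_num)
        have h8 := ENNReal.Tendsto.const_mul h7 (Or.inr (coe_ne_top (r := C)))
        rwa [mul_zero] at h8
      · by_cases h : K ∈ mt (U j i)
        · rw [if_pos h]
          exact hdiam j i
        · rw [if_neg h, ediam_empty]
          exact bot_le
      · have h9 : x ∈ ⋃ i, U j i := by
          rw [hcov j]
          exact mem_univ x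
        obtain ⟨i, hi⟩ := mem_iUnion.1 h9
        refine mem_iUnion.2 ⟨i, ?_⟩
        rw [if_pos (show K ∈ mt (U j i) from ⟨x, hx, hi⟩)]
        exact hi
    have h7 : ∀ j, ∑ i, ediam (if K ∈ mt (U j i) then U j i else ∅) ^ (t : ℝ) ≤
        (C : ℝ≥0∞) ^ (t : ℝ) * (w ^ j * f j K) := by
      intro j
      rw [hf]
      simp only
      rw [Finset.mul_sum, Finset.mul_sum]
      refine Finset.sum_le_sum fun i _ => ?_
      by_cases h : K ∈ mt (U j i)
      · rw [if_pos h, indicator_of_mem h, mul_one]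
        calc ediam (U j i) ^ (t : ℝ) ≤ (C * (2 : ℝ≥0∞)⁻¹ ^ j) ^ (t : ℝ) :=
              ENNReal.rpow_le_rpow (hdiam j i) ht0.le
          _ = (C : ℝ≥0∞) ^ (t : ℝ) * w ^ j := by
              rw [ENNReal.mul_rpow_of_nonneg _ _ ht0.le, hw, ← ENNReal.rpow_natCast, ← ENNReal.rpow_natCast,
                ← ENNReal.rpow_mul, ← ENNReal.rpow_mul, mul_comm (j : ℝ)]
      · rw [if_neg h, ediam_empty, indicator_of_notMem h, ENNReal.zero_rpow_of_pos ht0]
        exact bot_le
    have h8 : μH[(t : ℝ)] (K : Set E) = 0 := by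
      refine le_antisymm (h6.trans ?_) bot_le
      have h9 : Tendsto (fun j => (C : ℝ≥0∞) ^ (t : ℝ) * (w ^ j * f j K)) atTop (𝓝 0) := by
        have := ENNReal.Tendsto.const_mul (a := (C : ℝ≥0∞) ^ (t : ℝ)) h5
          (Or.inr (ENNReal.rpow_ne_top_of_nonneg ht0.le coe_ne_top))
        rwa [mul_zero] at this
      rw [← h9.liminf_eq]
      exact liminf_le_liminf (Eventually.of_forall h7)
    exact dimH_le_of_hausdorffMeasure_ne_top (by rw [h8]; exact zero_ne_top)
  have h10 : ∀ᵐ (K : NonemptyCompacts E) ∂(μ : Measure (NonemptyCompacts E)), ∀ m : ℕ,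
      dimH (K : Set E) ≤ ((s + 1 / ((m : ℝ≥0) + 1) : ℝ≥0) : ℝ≥0∞) := by
    rw [ae_all_iff]
    intro m
    exact key _ (lt_add_of_pos_right s (by positivity))
  filter_upwards [h10] with K hK
  refine ENNReal.le_of_forall_pos_le_add fun ε hε _ => ?_
  obtain ⟨m, hm⟩ := exists_nat_one_div_lt (K := ℝ≥0) hε
  refine (hK m).trans ?_
  rw [ENNReal.coe_add]
  gcongr

end DimLim
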