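import Pool.Agent.Lib.MP_216314_pr.I.DimG
import Pool.Agent.Lib.MP_216314_pr.N.BDef
import Pool.Agent.Lib.MP_216314_pr.N.NBase

/-!
# Two arms around a vertex: translation, basic facts

`T2 v r R ω`: the annulus between the radii `r` and `R` around `v` is crossed by an open path and by a dual path (the square of radius `r` is
declared open for the first, closed for the second).
-/

set_option autoImplicit false

noncomputable section

namespace DimLim

open Finset FKI FKP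

/-- open arm of the origin when the box of radius `r` is open -/
def PA (r R : ℕ) (ω : Finset Edge) : Prop :=
  ∃ u : V, FKN.nrm u = R ∧ (gr ((ω ∪ FKN.bx r) ∩ FKN.bx R)).Reachable (0, 0) u

/-- dual arm of the face of the origin when the box of radius `r` is closed -/
def DA (r R : ℕ) (ω : Finset Edge) : Prop :=
  ∃ f : V, FKN.fl f = R ∧ (gr (FKN.dc (FKN.bx R) (ω \ FKN.bx r))).Reachable (0, 0) f

/-- two arms -/
def Tw (r R : ℕ) (ω : Finset Edge) : Prop := PA r R ω ∧ DA r R ω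

/-- two-arm probability -/
def t2 (r R : ℕ) : ℝ := IPC.Pr (1 / 2) (FKN.bx R) (Tw r R)

/-- the level of a face relative to the vertex `v` -/
def fsd (v f : V) : ℤ := FKN.fl (f.1 - v.1, f.2 - v.2)

/-- two arms crossing the annulus around `v` -/
def T2 (v : V) (r R : ℕ) (ω : Finset Edge) : Prop :=
  (∃ u, sd v u = R ∧ (gr ((ω ∪ bu v r) ∩ bu v R)).Reachable v u) ∧
    ∃ f, fsd v f = R ∧ (gr (FKN.dc (bu v R) (ω \ bu v r))).Reachable v f

theorem dep_T2 (v : V) (r R : ℕ) : Dep (bu v R) (T2 v r R) := by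
  intro ω
  have h1 : (ω ∩ bu v R ∪ bu v r) ∩ bu v R = (ω ∪ bu v r) ∩ bu v R := by
    ext e
    simp only [mem_inter, mem_union]
    tauto
  have h2 : FKN.dc (bu v R) ((ω ∩ bu v R) \ bu v r) = FKN.dc (bu v R) (ω \ bu v r) := by
    unfold FKN.dc
    congr 1
    ext e
    simp only [mem_inter, mem_sdiff]
    tauto
  unfold T2
  rw [h1, h2]

theorem dl_sh (a b : ℤ) (e : Edge) : FKN.dl (shE a b e) = shE a b (FKN.dl e) := by
  obtain ⟨x, y, t⟩ := e
  cases t
  · show (x + a, y + b - 1, true) = (x + a, y - 1 + b, true)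
    congr 2
    ring
  · show (x + a - 1, y + b, false) = (x - 1 + a, y + b, false)
    congr 1
    ring

theorem dc_sh (a b : ℤ) (F ω : Finset Edge) : (FKN.dc F ω).map (shE a b).toEmbedding =
    FKN.dc (F.map (shE a b).toEmbedding) (ω.map (shE a b).toEmbedding) := by
  ext e
  unfold FKN.dc
  simp only [mem_map, mem_sdiff, Equiv.coe_toEmbedding, not_exists, not_and]
  constructor
  · rintro ⟨_, ⟨e1, ⟨h1, h2⟩, rfl⟩, rfl⟩
    refine ⟨shE a b e1, ⟨⟨e1, h1, rfl⟩, fun e2 he2 h3 => ?_⟩, dl_sh a b e1⟩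
    rw [(shE a b).injective h3] at he2
    exact h2 he2
  · rintro ⟨_, ⟨⟨e1, h1, rfl⟩, h2⟩, rfl⟩
    exact ⟨FKN.dl e1, ⟨e1, ⟨h1, fun h3 => h2 e1 h3 rfl⟩, rfl⟩, (dl_sh a b e1).symm⟩

theorem bu_map (u : V) (m : ℕ) : (FKN.bx m).map (shE u.1 u.2).toEmbedding = bu u m := by
  unfold FKN.bx bu
  rw [box_sh]
  congr 1 <;> ring

theorem sd_sh (v u : V) : sd v (u.1 + v.1, u.2 + v.2) = FKN.nrm u := by
  unfold sd FKN.nrm
  simp only [add_sub_cancel_right]

theorem fsd_sh (v f : V) : fsd v (f.1 + v.1, f.2 + v.2) = FKN.fl f := by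
  unfold fsd
  simp only [add_sub_cancel_right]

theorem T2_sh (v : V) (r R : ℕ) (ω : Finset Edge) :
    T2 v r R (ω.map (shE v.1 v.2).toEmbedding) ↔ Tw r R ω := by
  have e0 : shV v.1 v.2 (0, 0) = v := by
    show ((0 + v.1, 0 + v.2) : V) = v
    simp
  have key1 : ∀ u : V, (gr ((ω.map (shE v.1 v.2).toEmbedding ∪ bu v r) ∩ bu v R)).Reachable v (u.1 + v.1, u.2 + v.2) ↔
      (gr ((ω ∪ FKN.bx r) ∩ FKN.bx R)).Reachable (0, 0) u := by
    intro u
    have h := reach_map (cp_sh v.1 v.2) ((ω ∪ FKN.bx r) ∩ FKN.bx R) (0, 0) u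
    rw [e0, map_inter, map_union, bu_map, bu_map] at h
    exact h
  have key2 : ∀ u : V, (gr (FKN.dc (bu v R) (ω.map (shE v.1 v.2).toEmbedding \ bu v r))).Reachable v (u.1 + v.1, u.2 + v.2) ↔
      (gr (FKN.dc (FKN.bx R) (ω \ FKN.bx r))).Reachable (0, 0) u := by
    intro u
    have h := reach_map (cp_sh v.1 v.2) (FKN.dc (FKN.bx R) (ω \ FKN.bx r)) (0, 0) u
    rw [e0, dc_sh, Finset.map_sdiff, bu_map, bu_map] at h
    exact h
  unfold T2 Tw PA DA
  refine and_congr ?_ ?_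
  · constructor
    · rintro ⟨u, h1, h2⟩
      have e1 : u = ((u.1 - v.1) + v.1, (u.2 - v.2) + v.2) := by ext <;> simp
      rw [e1] at h1 h2
      exact ⟨(u.1 - v.1, u.2 - v.2), (sd_sh v (u.1 - v.1, u.2 - v.2)).symm.trans h1, (key1 (u.1 - v.1, u.2 - v.2)).1 h2⟩
    · rintro ⟨u, h1, h2⟩
      exact ⟨(u.1 + v.1, u.2 + v.2), (sd_sh v u).trans h1, (key1 u).2 h2⟩
  · constructor
    · rintro ⟨u, h1, h2⟩
      have e1 : u = ((u.1 - v.1) + v.1, (u.2 - v.2) + v.2) := by ext <;> simp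
      rw [e1] at h1 h2
      exact ⟨(u.1 - v.1, u.2 - v.2), (fsd_sh v (u.1 - v.1, u.2 - v.2)).symm.trans h1, (key2 (u.1 - v.1, u.2 - v.2)).1 h2⟩
    · rintro ⟨u, h1, h2⟩
      exact ⟨(u.1 + v.1, u.2 + v.2), (fsd_sh v u).trans h1, (key2 u).2 h2⟩

theorem Pr_T2 {v : V} {r R : ℕ} {E : Finset Edge} (hE : bu v R ⊆ E) : Pr E (T2 v r R) = t2 r R := by
  rw [Pr_dep hE (dep_T2 v r R), ← bu_map, Pr_map, FKN.pr_half]
  unfold t2 FKN.Pp
  congr 1
  funext ω
  exact propext (T2_sh v r R ω)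

/-- following a path until a level is reached -/
theorem reach_level {S : Finset Edge} {lv : V → ℤ}
    (hlv : ∀ e ∈ S, lv (ea e) - lv (eb e) ≤ 1 ∧ lv (eb e) - lv (ea e) ≤ 1) {u w : V} (h : (gr S).Reachable u w) {R : ℤ}
    (hu : lv u ≤ R) (hw : R ≤ lv w) :
    ∃ x, lv x = R ∧ (gr (S.filter (fun e => lv (ea e) < R ∨ lv (eb e) < R))).Reachable u x := by
  obtain ⟨p⟩ := h
  induction p with
  | nil => exact ⟨_, le_antisymm hu hw, SimpleGraph.Reachable.refl _⟩
  | @cons u v w hadj p ih =>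
    rcases eq_or_lt_of_le hu with h1 | h1
    · exact ⟨u, h1, SimpleGraph.Reachable.refl _⟩
    · obtain ⟨e, he, hends⟩ := pexit_adj hadj
      have h2 := hlv e he
      have h3 : lv v ≤ R := by
        rcases hends with ⟨h4, h5⟩ | ⟨h4, h5⟩
        · rw [h4, h5] at h2
          omega
        · rw [h4, h5] at h2
          omega
      obtain ⟨x, hx1, hx2⟩ := ih h3 hw
      refine ⟨x, hx1, SimpleGraph.Reachable.trans ?_ hx2⟩
      have he' : e ∈ S.filter (fun e => lv (ea e) < R ∨ lv (eb e) < R) := by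
        rw [mem_filter]
        refine ⟨he, ?_⟩
        rcases hends with ⟨h4, h5⟩ | ⟨h4, h5⟩
        · left
          rw [h4]
          exact h1
        · right
          rw [h5]
          exact h1
      exact (pexit_edge he' he' hends).reach.mono (by
        intro a b hab
        exact hab)

end DimLim
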