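import Pool.Agent.Lib.MP_216314_pr.I.IVa

/-!
# The visited vertices and the two-arm event

`VisS a b ω`: vertices `p` of the rectangle which are connected to the wired left and lower sides and whose face (to the upper right of `p`) is
connected to the free right and upper sides by a dual path.
-/

set_option autoImplicit false

noncomputable section

namespace DimLim

open Finset FKI FKP

/-- the face `p` is connected to the free sides by a dual path -/
def DF (a b : ℕ) (p : V) (ω : Finset Edge) : Prop :=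
  ∃ f : V, (f.1 = a ∨ f.2 = b) ∧ (gr (FKN.dc (box 0 a 0 b) (ω ∪ wsd a b))).Reachable p f

open Classical in
/-- the visited vertices -/
def VisS (a b : ℕ) (ω : Finset Edge) : Finset V := (rv a b).filter (fun p => WC a b p ω ∧ DF a b p ω)

theorem inBox_visS : InBox VisS := by
  intro a b ω w hw
  classical
  rw [VisS, mem_filter] at hw
  obtain ⟨⟨h1, h2⟩, h3, h4⟩ := mem_rv.1 hw.1
  exact ⟨h1, h2, h3, h4⟩

/-- a full box is connected -/
theorem box_line_h {x1 x2 y1 y2 y : ℤ} (h1 : y1 ≤ y) (h2 : y ≤ y2) (k : ℕ) (hk : x1 + k ≤ x2) :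
    (gr (box x1 x2 y1 y2)).Reachable (x1, y) (x1 + k, y) := by
  induction k with
  | zero =>
    simp only [Nat.cast_zero, add_zero]
    exact SimpleGraph.Reachable.refl _
  | succ k ih =>
    refine (ih (by push_cast at hk; omega)).trans ?_
    have he : ((x1 + k, y, false) : Edge) ∈ box x1 x2 y1 y2 := by
      rw [mem_box]
      left
      push_cast at hk
      exact ⟨rfl, by simp only; omega, by simp only; omega, h1, h2⟩
    have h3 := pexit_edge (u := (x1 + k, y)) (v := (x1 + (k + 1 : ℕ), y)) he he (Or.inl ⟨rfl, by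
      show ((x1 + k + 1, y) : V) = (x1 + (k + 1 : ℕ), y)
      congr 1
      push_cast
      ring⟩)
    exact h3.reach

theorem box_line_v {x1 x2 y1 y2 x : ℤ} (h1 : x1 ≤ x) (h2 : x ≤ x2) (k : ℕ) (hk : y1 + k ≤ y2) :
    (gr (box x1 x2 y1 y2)).Reachable (x, y1) (x, y1 + k) := by
  induction k with
  | zero =>
    simp only [Nat.cast_zero, add_zero]
    exact SimpleGraph.Reachable.refl _
  | succ k ih =>
    refine (ih (by push_cast at hk; omega)).trans ?_
    have he : ((x, y1 + k, true) : Edge) ∈ box x1 x2 y1 y2 := by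
      rw [mem_box]
      right
      push_cast at hk
      exact ⟨rfl, h1, h2, by simp only; omega, by simp only; omega⟩
    have h3 := pexit_edge (u := (x, y1 + k)) (v := (x, y1 + (k + 1 : ℕ))) he he (Or.inl ⟨rfl, by
      show ((x, y1 + k + 1) : V) = (x, y1 + (k + 1 : ℕ))
      congr 1
      push_cast
      ring⟩)
    exact h3.reach

theorem box_reach {x1 x2 y1 y2 : ℤ} {u v : V} (hu : (x1 ≤ u.1 ∧ u.1 ≤ x2) ∧ (y1 ≤ u.2 ∧ u.2 ≤ y2))
    (hv : (x1 ≤ v.1 ∧ v.1 ≤ x2) ∧ (y1 ≤ v.2 ∧ v.2 ≤ y2)) : (gr (box x1 x2 y1 y2)).Reachable u v := by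
  have key : ∀ u : V, (x1 ≤ u.1 ∧ u.1 ≤ x2) ∧ (y1 ≤ u.2 ∧ u.2 ≤ y2) → (gr (box x1 x2 y1 y2)).Reachable (x1, y1) u := by
    rintro ⟨x, y⟩ ⟨⟨h1, h2⟩, h3, h4⟩
    simp only at h1 h2 h3 h4
    have h5 := box_line_v (x1 := x1) (x2 := x2) (y1 := y1) (y2 := y2) (x := x1) le_rfl (by omega) (y - y1).toNat
      (by rw [Int.toNat_of_nonneg (by omega)]; omega)
    have h6 := box_line_h (x1 := x1) (x2 := x2) (y1 := y1) (y2 := y2) (y := y) h3 h4 (x - x1).toNat
      (by rw [Int.toNat_of_nonneg (by omega)]; omega)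
    rw [Int.toNat_of_nonneg (by omega)] at h5 h6
    have e1 : y1 + (y - y1) = y := by ring
    have e2 : x1 + (x - x1) = x := by ring
    rw [e1] at h5
    rw [e2] at h6
    exact h5.trans h6
  exact (key u hu).symm.trans (key v hv)

/-- the dual edges of a box join its faces -/
theorem box_dual {x1 x2 y1 y2 : ℤ} : box x1 (x2 - 1) y1 (y2 - 1) ⊆ (box x1 x2 y1 y2).map FKN.dl.toEmbedding := by
  rintro ⟨x, y, t⟩ he
  rw [mem_box] at he
  rw [mem_map_equiv, mem_box]
  cases t
  · show (true = false ∧ _) ∨ (true = true ∧ _)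
    right
    rcases he with ⟨_, h1, h2, h3, h4⟩ | ⟨h0, _⟩
    · simp only at h1 h2 h3 h4
      refine ⟨rfl, ?_, ?_, ?_, ?_⟩
      · show x1 ≤ x + 1
        omega
      · show x + 1 ≤ x2
        omega
      · exact h3
      · show y < y2
        omega
    · exact absurd h0 (by simp)
  · show (false = false ∧ _) ∨ (false = true ∧ _)
    left
    rcases he with ⟨h0, _⟩ | ⟨_, h1, h2, h3, h4⟩
    · exact absurd h0 (by simp)
    · simp only at h1 h2 h3 h4
      refine ⟨rfl, ?_, ?_, ?_, ?_⟩
      · exact h1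
      · show x < x2
        omega
      · show y1 ≤ y + 1
        omega
      · show y + 1 ≤ y2
        omega

theorem fsd_le {v f : V} {m : ℤ} : fsd v f ≤ m ↔
    (v.1 - m - 1 ≤ f.1 ∧ f.1 ≤ v.1 + m) ∧ (v.2 - m - 1 ≤ f.2 ∧ f.2 ≤ v.2 + m) := by
  unfold fsd FKN.fl
  simp only
  rw [max_le_iff, max_le_iff, max_le_iff]
  constructor
  · rintro ⟨⟨h1, h2⟩, h3, h4⟩
    exact ⟨⟨by omega, by omega⟩, ⟨by omega, by omega⟩⟩
  · rintro ⟨⟨h1, h2⟩, h3, h4⟩
    exact ⟨⟨by omega, by omega⟩, ⟨by omega, by omega⟩⟩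

theorem fsd_edge (v : V) (e : Edge) : fsd v (ea e) - fsd v (eb e) ≤ 1 ∧ fsd v (eb e) - fsd v (ea e) ≤ 1 := by
  obtain ⟨x, y, t⟩ := e
  cases t
  · show FKN.fl (x - v.1, y - v.2) - FKN.fl (x + 1 - v.1, y - v.2) ≤ 1 ∧
      FKN.fl (x + 1 - v.1, y - v.2) - FKN.fl (x - v.1, y - v.2) ≤ 1
    unfold FKN.fl
    simp only
    omega
  · show FKN.fl (x - v.1, y - v.2) - FKN.fl (x - v.1, y + 1 - v.2) ≤ 1 ∧
      FKN.fl (x - v.1, y + 1 - v.2) - FKN.fl (x - v.1, y - v.2) ≤ 1
    unfold FKN.fl
    simp only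
    omega

/-- the primal arm: a path which starts near `v` and goes far -/
theorem arm_primal {v p w : V} {r R : ℕ} {S : Finset Edge} {ω : Finset Edge} (hr : r ≤ R) (hp : sd v p ≤ r)
    (hw : (R : ℤ) ≤ sd v w) (h : (gr S).Reachable p w)
    (hS : ∀ e ∈ S, (sd v (ea e) < R ∨ sd v (eb e) < R) → e ∈ ω ∪ bu v r) :
    ∃ u, sd v u = R ∧ (gr ((ω ∪ bu v r) ∩ bu v R)).Reachable v u := by
  obtain ⟨u, h1, h2⟩ := reach_level (lv := sd v) (fun e _ => sd_edge v e) h (hp.trans (by exact_mod_cast hr)) hw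
  refine ⟨u, h1, SimpleGraph.Reachable.trans ?_ (h2.mono (gr_mono ?_))⟩
  · have h3 : (gr (bu v r)).Reachable v p := by
      rw [sd_le] at hp
      exact box_reach (by constructor <;> constructor <;> omega) hp
    refine h3.mono (gr_mono ?_)
    intro e he
    rw [mem_inter, mem_union]
    refine ⟨Or.inr he, ?_⟩
    refine bu_sub ?_ he
    rw [sd_self]
    omega
  · intro e he
    rw [mem_filter] at he
    rw [mem_inter]
    refine ⟨hS e he.1 he.2, ?_⟩
    rw [mem_bu]
    have h3 := sd_edge v e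
    rcases he.2 with h4 | h4
    · exact ⟨h4.le, by omega⟩
    · exact ⟨by omega, h4.le⟩

/-- the dual arm -/
theorem arm_dual {v p w : V} {r R : ℕ} {F ω : Finset Edge} (hr : r ≤ R) (hp : fsd v p < r)
    (hw : (R : ℤ) ≤ fsd v w) (h : (gr (FKN.dc F ω)).Reachable p w) :
    ∃ f, fsd v f = R ∧ (gr (FKN.dc (bu v R) (ω \ bu v r))).Reachable v f := by
  obtain ⟨f, h1, h2⟩ := reach_level (lv := fsd v) (R := (R : ℤ)) (fun e _ => fsd_edge v e) h (by omega) hw
  refine ⟨f, h1, SimpleGraph.Reachable.trans ?_ (h2.mono (gr_mono ?_))⟩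
  · have hp' : fsd v p ≤ (r : ℤ) - 1 := by omega
    rw [fsd_le] at hp'
    have h3 : (gr (box (v.1 - r) (v.1 + r - 1) (v.2 - r) (v.2 + r - 1))).Reachable v p :=
      box_reach (by constructor <;> constructor <;> omega) (by constructor <;> constructor <;> omega)
    refine h3.mono (gr_mono (box_dual.trans ?_))
    unfold FKN.dc
    refine map_subset_map.2 ?_
    intro e he
    rw [mem_sdiff, mem_sdiff]
    have he' : e ∈ bu v r := he
    refine ⟨bu_sub (by rw [sd_self]; omega) he', fun h4 => h4.2 he'⟩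
  · intro e he
    rw [mem_filter] at he
    obtain ⟨he1, he2⟩ := he
    unfold FKN.dc at he1 ⊢
    rw [mem_map] at he1 ⊢
    obtain ⟨e1, h4, rfl⟩ := he1
    refine ⟨e1, ?_, rfl⟩
    rw [mem_sdiff] at h4 ⊢
    refine ⟨?_, fun h5 => h4.2 (mem_sdiff.1 h5).1⟩
    -- the crossed edge is in the box
    obtain ⟨x, y, t⟩ := e1
    have h6 : fsd v (ea (FKN.dl (x, y, t))) < R ∨ fsd v (eb (FKN.dl (x, y, t))) < R := he2
    unfold bu
    rw [mem_box]
    cases t
    · have e1 : ea (FKN.dl (x, y, false)) = (x, y - 1) := rfl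
      have e2 : eb (FKN.dl (x, y, false)) = (x, y - 1 + 1) := rfl
      rw [e1, e2] at h6
      left
      rcases h6 with h6 | h6
      · have h7 : fsd v (x, y - 1) ≤ (R : ℤ) - 1 := by omega
        rw [fsd_le] at h7
        simp only at h7 ⊢
        exact ⟨trivial, by omega, by omega, by omega, by omega⟩
      · have h7 : fsd v (x, y - 1 + 1) ≤ (R : ℤ) - 1 := by omega
        rw [fsd_le] at h7
        simp only at h7 ⊢
        exact ⟨trivial, by omega, by omega, by omega, by omega⟩
    · have e1 : ea (FKN.dl (x, y, true)) = (x - 1, y) := rfl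
      have e2 : eb (FKN.dl (x, y, true)) = (x - 1 + 1, y) := rfl
      rw [e1, e2] at h6
      right
      rcases h6 with h6 | h6
      · have h7 : fsd v (x - 1, y) ≤ (R : ℤ) - 1 := by omega
        rw [fsd_le] at h7
        simp only at h7 ⊢
        exact ⟨trivial, by omega, by omega, by omega, by omega⟩
      · have h7 : fsd v (x - 1 + 1, y) ≤ (R : ℤ) - 1 := by omega
        rw [fsd_le] at h7
        simp only at h7 ⊢
        exact ⟨trivial, by omega, by omega, by omega, by omega⟩

/-- a visited vertex near `v` gives two arms -/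
theorem T2_of_vis {a b r R : ℕ} {v p : V} {ω : Finset Edge} (hr1 : 1 ≤ r) (hr : r ≤ R)
    (h1 : (R : ℤ) ≤ v.1) (h2 : v.1 + R ≤ a) (h3 : (R : ℤ) ≤ v.2) (h4 : v.2 + R ≤ b) (hp : sd v p < r)
    (hW : WC a b p ω) (hD : DF a b p ω) : T2 v r R ω := by
  constructor
  · refine arm_primal (S := (ω ∪ wsd a b) ∩ box 0 a 0 b) (w := (0, 0)) hr hp.le ?_ hW.symm ?_
    · unfold sd
      rw [le_max_iff]
      left
      simp only [zero_sub, abs_neg]
      exact h1.trans (le_abs_self _)
    · intro e he h5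
      rw [mem_inter, mem_union] at he
      rcases he.1 with h6 | h6
      · exact mem_union_left _ h6
      · exfalso
        unfold wsd at h6
        rw [mem_union] at h6
        have key : ∀ u : V, (u.1 = 0 ∨ u.2 = 0) → (R : ℤ) ≤ sd v u := by
          intro u hu
          unfold sd
          rw [le_max_iff]
          rcases hu with hu | hu
          · left
            rw [hu, zero_sub, abs_neg]
            exact h1.trans (le_abs_self _)
          · right
            rw [hu, zero_sub, abs_neg]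
            exact h3.trans (le_abs_self _)
        have h7 : ((ea e).1 = 0 ∨ (ea e).2 = 0) ∧ ((eb e).1 = 0 ∨ (eb e).2 = 0) := by
          rcases h6 with h6 | h6
          · have := pexit_box h6
            exact ⟨Or.inl (by omega), Or.inl (by omega)⟩
          · have := pexit_box h6
            exact ⟨Or.inr (by omega), Or.inr (by omega)⟩
        have h8 := key _ h7.1
        have h9 := key _ h7.2
        rcases h5 with h5 | h5 <;> omega
  · obtain ⟨f, hf, hreach⟩ := hD
    obtain ⟨g, h5, h6⟩ := arm_dual (v := v) (r := r) (R := R) hr (p := p) (w := f) (F := box 0 a 0 b)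
      (ω := ω ∪ wsd a b) (by
        have h5 : sd v p ≤ (r : ℤ) - 1 := by omega
        rw [sd_le] at h5
        have h6 : fsd v p ≤ (r : ℤ) - 1 := by
          rw [fsd_le]
          constructor <;> constructor <;> omega
        omega) (by
        unfold fsd FKN.fl
        simp only
        rcases hf with hf | hf
        · rw [hf]
          omega
        · rw [hf]
          omega) hreach
    refine ⟨g, h5, h6.mono (gr_mono ?_)⟩
    unfold FKN.dc
    refine map_subset_map.2 ?_
    intro e he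
    rw [mem_sdiff, mem_sdiff] at he ⊢
    refine ⟨he.1, fun h7 => he.2 ⟨mem_union_left _ h7.1, h7.2⟩⟩

end DimLim
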