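import Pool.Agent.Lib.MP_216314_pr.I.IVb

/-!
# The hypotheses `HypU` and `HypLoc` from two-arm estimates
-/

set_option autoImplicit false

noncomputable section

namespace DimLim

open Finset FKI FKP

/-- the two-arm upper bound in annuli -/
def TwoUp : Prop := ∃ C : ℝ, 0 < C ∧ ∀ r R : ℕ, 1 ≤ r → r ≤ R → t2 r R ≤ C * ((r : ℝ) / R) ^ (1 / 4 : ℝ)

theorem bu_box {a b : ℕ} {v : V} {d : ℕ} (h1 : (d : ℤ) ≤ v.1) (h2 : v.1 + d ≤ a) (h3 : (d : ℤ) ≤ v.2)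
    (h4 : v.2 + d ≤ b) : bu v d ⊆ box 0 a 0 b := by
  unfold bu
  exact box_mono (by omega) h2 (by omega) h4

theorem hypU_of_t2 (h : TwoUp) : HypU VisS := by
  obtain ⟨C, hC, hT⟩ := h
  intro K
  refine ⟨2 * C + 1, by linarith, ?_⟩
  intro a b m d v _ _ _ _ hm hmd h1 h2 h3 h4
  have hm0 : (0 : ℝ) < m := by exact_mod_cast hm
  have hd0 : (0 : ℝ) < d := by exact_mod_cast (lt_of_lt_of_le hm hmd)
  have hpos : 0 ≤ ((m : ℝ) / d) ^ (1 / 4 : ℝ) := by positivity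
  rcases eq_or_lt_of_le hmd with he | hlt
  · refine (Pr_le_one _ _).trans ?_
    rw [he, div_self hd0.ne', Real.one_rpow]
    linarith
  · have h5 : Pr (box 0 a 0 b) (fun ω => ∃ w ∈ VisS a b ω, sd v w ≤ m) ≤ Pr (box 0 a 0 b) (T2 v (m + 1) d) := by
      refine Pr_mono fun ω _ hω => ?_
      obtain ⟨p, hp1, hp2⟩ := hω
      classical
      rw [VisS, mem_filter] at hp1
      exact T2_of_vis (by omega) hlt h1 h2 h3 h4 (by push_cast; omega) hp1.2.1 hp1.2.2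
    rw [Pr_T2 (bu_box h1 h2 h3 h4)] at h5
    refine h5.trans ((hT (m + 1) d (by omega) hlt).trans ?_)
    have h6 : (((m + 1 : ℕ) : ℝ) / d) ^ (1 / 4 : ℝ) ≤ 2 * ((m : ℝ) / d) ^ (1 / 4 : ℝ) := by
      have h7 : (((m + 1 : ℕ) : ℝ) / d) ≤ 2 * ((m : ℝ) / d) := by
        rw [mul_div_assoc', div_le_div_iff_of_pos_right hd0]
        push_cast
        have : (1 : ℝ) ≤ m := by exact_mod_cast hm
        linarith
      calc (((m + 1 : ℕ) : ℝ) / d) ^ (1 / 4 : ℝ) ≤ (2 * ((m : ℝ) / d)) ^ (1 / 4 : ℝ) :=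
            Real.rpow_le_rpow (by positivity) h7 (by norm_num)
        _ = 2 ^ (1 / 4 : ℝ) * ((m : ℝ) / d) ^ (1 / 4 : ℝ) := Real.mul_rpow (by norm_num) (by positivity)
        _ ≤ 2 * ((m : ℝ) / d) ^ (1 / 4 : ℝ) := by
            refine mul_le_mul_of_nonneg_right ?_ hpos
            calc (2 : ℝ) ^ (1 / 4 : ℝ) ≤ 2 ^ (1 : ℝ) :=
                  Real.rpow_le_rpow_of_exponent_le (by norm_num) (by norm_num)
              _ = 2 := Real.rpow_one 2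
    nlinarith

/-- the left and lower sides of the square `[a-2l,a] × [0,2l]` -/
def wsq (a l : ℕ) : Finset Edge :=
  box ((a : ℤ) - 2 * l) ((a : ℤ) - 2 * l) 0 (2 * l) ∪ box ((a : ℤ) - 2 * l) a 0 0

/-- the local event: `p` is connected to the lower side and its face to the right side, inside the quarter annulus -/
def VL (a l : ℕ) (p : V) (ω : Finset Edge) : Prop :=
  (∃ x : ℤ, (a : ℤ) - 2 * l ≤ x ∧ x ≤ a ∧ Conn (qan a l) ω p (x, 0)) ∧
    ∃ f : V, f.1 = a ∧ (gr (FKN.dc (qan a l) (ω ∪ wsq a l))).Reachable p f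

theorem dep_VL (a l : ℕ) (p : V) : Dep (qan a l) (VL a l p) := by
  intro ω
  have h1 : ∀ x : ℤ, Conn (qan a l) (ω ∩ qan a l) p (x, 0) ↔ Conn (qan a l) ω p (x, 0) := by
    intro x
    unfold Conn
    rw [inter_assoc, inter_self]
  have h2 : FKN.dc (qan a l) ((ω ∩ qan a l) ∪ wsq a l) = FKN.dc (qan a l) (ω ∪ wsq a l) := by
    unfold FKN.dc
    congr 1
    ext e
    simp only [mem_inter, mem_sdiff, mem_union]
    tauto
  unfold VL
  rw [h2]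
  simp only [h1]

theorem qan_wsd {a b l : ℕ} (ha : 2 * l ≤ a) {e : Edge} (he : e ∈ qan a l) (h : e ∈ wsd a b) : e ∈ wsq a l := by
  unfold qan at he
  unfold wsd at h
  unfold wsq
  rw [mem_sdiff, mem_box] at he
  rw [mem_union, mem_box, mem_box] at h ⊢
  obtain ⟨x, y, t⟩ := e
  simp only at he h ⊢
  cases t
  · simp only [Bool.false_eq_true, false_and, or_false, true_and] at he h ⊢
    right
    omega
  · simp only [Bool.true_eq_false, false_and, false_or, true_and] at he h ⊢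
    left
    omega

theorem vis_of_VL {a b l : ℕ} (ha : 2 * l ≤ a) (hb : 2 * l ≤ b) {p : V} (hp : p ∈ rv a b) {ω : Finset Edge}
    (h : VL a l p ω) : p ∈ VisS a b ω := by
  classical
  obtain ⟨⟨x, hx1, hx2, hx3⟩, f, hf1, hf2⟩ := h
  rw [VisS, mem_filter]
  refine ⟨hp, ?_, f, Or.inl hf1, hf2.mono (gr_mono ?_)⟩
  · refine WC_of_conn (x := x) (by omega) hx2 ?_
    exact hx3.mono (qan_sub ha hb) (Finset.Subset.refl _)
  · unfold FKN.dc
    refine map_subset_map.2 ?_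
    intro e he
    rw [mem_sdiff, mem_union] at he ⊢
    refine ⟨qan_sub ha hb he.1, ?_⟩
    rintro (h1 | h1)
    · exact he.2 (Or.inl h1)
    · exact he.2 (Or.inr (qan_wsd ha he.1 h1))

theorem T2_of_VL {a l r R : ℕ} {v p : V} {ω : Finset Edge} (hr : r ≤ R) (h1 : (R : ℤ) ≤ v.2)
    (h2 : v.1 + R ≤ a) (hp : sd v p < r) (h : VL a l p ω) : T2 v r R ω := by
  obtain ⟨⟨x, -, -, hx⟩, f, hf1, hf2⟩ := h
  constructor
  · refine arm_primal (S := ω ∩ qan a l) (w := (x, 0)) hr hp.le ?_ hx ?_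
    · unfold sd
      rw [le_max_iff]
      right
      simp only [zero_sub, abs_neg]
      exact h1.trans (le_abs_self _)
    · intro e he _
      exact mem_union_left _ (mem_inter.1 he).1
  · obtain ⟨g, h5, h6⟩ := arm_dual (v := v) (r := r) (R := R) hr (p := p) (w := f) (F := qan a l)
      (ω := ω ∪ wsq a l) (by
        have h5 : sd v p ≤ (r : ℤ) - 1 := by omega
        rw [sd_le] at h5
        have h6 : fsd v p ≤ (r : ℤ) - 1 := by
          rw [fsd_le]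
          constructor <;> constructor <;> omega
        omega) (by
        unfold fsd FKN.fl
        simp only
        rw [hf1]
        omega) hf2
    refine ⟨g, h5, h6.mono (gr_mono ?_)⟩
    unfold FKN.dc
    refine map_subset_map.2 ?_
    intro e he
    rw [mem_sdiff, mem_sdiff] at he ⊢
    refine ⟨he.1, fun h7 => he.2 ⟨mem_union_left _ h7.1, h7.2⟩⟩

/-- the two-arm event depends on the annulus only -/
theorem dep_T2' (v : V) (r R : ℕ) : Dep (bu v R \ bu v r) (T2 v r R) := by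
  intro ω
  have h1 : (ω ∩ (bu v R \ bu v r) ∪ bu v r) ∩ bu v R = (ω ∪ bu v r) ∩ bu v R := by
    ext e
    simp only [mem_inter, mem_union, mem_sdiff]
    tauto
  have h2 : FKN.dc (bu v R) ((ω ∩ (bu v R \ bu v r)) \ bu v r) = FKN.dc (bu v R) (ω \ bu v r) := by
    unfold FKN.dc
    congr 1
    ext e
    simp only [mem_inter, mem_sdiff]
    tauto
  unfold T2
  rw [h1, h2]

theorem bu_qan {a l R : ℕ} (hl : 8 ≤ l) (hR : R ≤ l / 4) {v : V} (hv : v ∈ qs a l) : bu v R ⊆ qan a l := by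
  rw [mem_qs] at hv
  intro e he
  unfold bu at he
  unfold qan
  rw [mem_sdiff, mem_box, mem_box]
  rw [mem_box] at he
  constructor
  · rcases he with ⟨h0, h1, h2, h3, h4⟩ | ⟨h0, h1, h2, h3, h4⟩
    · exact Or.inl ⟨h0, by omega, by omega, by omega, by omega⟩
    · exact Or.inr ⟨h0, by omega, by omega, by omega, by omega⟩
  · rcases he with ⟨h0, h1, h2, h3, h4⟩ | ⟨h0, h1, h2, h3, h4⟩
    · rintro (⟨h5, h6, h7, h8, h9⟩ | ⟨h5, h6, h7, h8, h9⟩) <;> omega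
    · rintro (⟨h5, h6, h7, h8, h9⟩ | ⟨h5, h6, h7, h8, h9⟩) <;> omega

theorem dep_up {F F' : Finset Edge} {A : Finset Edge → Prop} (hs : F ⊆ F') (h : Dep F A) : Dep F' A := by
  intro ω
  rw [h ω, h (ω ∩ F'), inter_assoc, inter_eq_right.2 hs]

/-- balls around different points are disjoint -/
theorem bu_disj {v v' : V} {k : ℕ} (h : (2 * k : ℤ) < sd v v') : Disjoint (bu v k) (bu v' k) := by
  rw [disjoint_left]
  intro e h1 h2
  rw [mem_bu] at h1 h2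
  have h3 := sd_tri v (ea e) v'
  rw [sd_comm (ea e) v'] at h3
  omega

theorem t2_one {C : ℝ} (hC : 0 < C) (hT : ∀ r R : ℕ, 1 ≤ r → r ≤ R → t2 r R ≤ C * ((r : ℝ) / R) ^ (1 / 4 : ℝ))
    {k : ℕ} {x : ℝ} (hx : 0 < x) (hk : x / 16 ≤ k) (hk1 : 1 ≤ k) :
    t2 1 k ≤ 2 * C * x ^ (-(1 / 4) : ℝ) := by
  refine (hT 1 k le_rfl hk1).trans ?_
  have hk0 : (0 : ℝ) < k := by exact_mod_cast hk1
  have h1 : (((1 : ℕ) : ℝ) / k) ^ (1 / 4 : ℝ) ≤ (16 / x) ^ (1 / 4 : ℝ) := by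
    refine Real.rpow_le_rpow (by positivity) ?_ (by norm_num)
    rw [div_le_div_iff₀ hk0 hx]
    push_cast
    linarith
  have h2 : (16 / x) ^ (1 / 4 : ℝ) = 2 * x ^ (-(1 / 4) : ℝ) := by
    rw [Real.div_rpow (by norm_num) hx.le, Real.rpow_neg hx.le]
    have h3 : (16 : ℝ) ^ (1 / 4 : ℝ) = 2 := by
      rw [show (16 : ℝ) = 2 ^ (4 : ℝ) by norm_num, ← Real.rpow_mul (by norm_num)]
      norm_num
    rw [h3]
    rfl
  rw [h2] at h1
  calc C * (((1 : ℕ) : ℝ) / k) ^ (1 / 4 : ℝ) ≤ C * (2 * x ^ (-(1 / 4) : ℝ)) := by gcongr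
    _ = 2 * C * x ^ (-(1 / 4) : ℝ) := by ring

/-- one point bound -/
theorem one_point {C : ℝ} (hC : 0 < C) (hT : ∀ r R : ℕ, 1 ≤ r → r ≤ R → t2 r R ≤ C * ((r : ℝ) / R) ^ (1 / 4 : ℝ))
    {a l : ℕ} (hl : 8 ≤ l) {p : V} (hp : p ∈ qs a l) :
    Pr (qan a l) (VL a l p) ≤ 2 * C * (l : ℝ) ^ (-(1 / 4) : ℝ) := by
  have hl0 : (0 : ℝ) < l := by positivity
  have h1 : Pr (qan a l) (VL a l p) ≤ Pr (qan a l) (T2 p 1 (l / 4)) := by
    refine Pr_mono fun ω _ hω => T2_of_VL (by omega) ?_ ?_ ?_ hω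
    · rw [mem_qs] at hp
      omega
    · rw [mem_qs] at hp
      omega
    · rw [sd_self]
      norm_num
  rw [Pr_T2 (bu_qan hl le_rfl hp)] at h1
  refine h1.trans (t2_one hC hT hl0 ?_ (by omega))
  have h2 : l ≤ 16 * (l / 4) := by omega
  have h3 : (l : ℝ) ≤ 16 * ((l / 4 : ℕ) : ℝ) := by exact_mod_cast h2
  linarith

/-- two point bound -/
theorem two_point {C : ℝ} (hC : 0 < C) (hT : ∀ r R : ℕ, 1 ≤ r → r ≤ R → t2 r R ≤ C * ((r : ℝ) / R) ^ (1 / 4 : ℝ))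
    {a l : ℕ} (hl : 16 ≤ l) {p p' : V} (hp : p ∈ qs a l) (hp' : p' ∈ qs a l) {d : ℕ} (hd : sd p p' = d) (hd4 : 4 ≤ d) :
    Pr (qan a l) (fun ω => VL a l p ω ∧ VL a l p' ω) ≤
      (8 * C ^ 2 + 16 * C ^ 3) * (d : ℝ) ^ (-(1 / 4) : ℝ) * (l : ℝ) ^ (-(1 / 4) : ℝ) := by
  have hl0 : (0 : ℝ) < l := by positivity
  have hd0 : (0 : ℝ) < d := by positivity
  have hdl : d ≤ l / 4 := by
    rw [mem_qs] at hp hp'
    have h1 : sd p p' ≤ 2 * (l / 8 : ℕ) := by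
      rw [sd_le]
      constructor <;> constructor <;> omega
    omega
  obtain ⟨k, hk⟩ : ∃ k, k = d / 4 := ⟨_, rfl⟩
  have hk1 : 1 ≤ k := by omega
  have hkd : d ≤ 16 * k := by omega
  have hkd' : (d : ℝ) / 16 ≤ k := by
    have : (d : ℝ) ≤ 16 * k := by exact_mod_cast hkd
    linarith
  have hq := hp
  have hq' := hp'
  rw [mem_qs] at hq hq'
  have e1 : ∀ ω, VL a l p ω → T2 p 1 k ω := fun ω h => T2_of_VL hk1 (by omega) (by omega) (by rw [sd_self]; norm_num) h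
  have e2 : ∀ ω, VL a l p' ω → T2 p' 1 k ω := fun ω h => T2_of_VL hk1 (by omega) (by omega) (by rw [sd_self]; norm_num) h
  have b1 : bu p k ⊆ qan a l := bu_qan (by omega) (by omega) hp
  have b2 : bu p' k ⊆ qan a l := bu_qan (by omega) (by omega) hp'
  have hdis : Disjoint (bu p k) (bu p' k) := bu_disj (by rw [hd]; omega)
  have ht := t2_one hC hT hd0 hkd' hk1
  have ht0 : 0 ≤ t2 1 k := by
    rw [← Pr_T2 (v := p) (r := 1) (R := k) (E := qan a l) b1]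
    exact Pr_nonneg _ _
  have hprod : Pr (qan a l) (fun ω => T2 p 1 k ω ∧ T2 p' 1 k ω) = t2 1 k * t2 1 k := by
    rw [Pr_indep b1 b2 hdis (dep_T2 p 1 k) (dep_T2 p' 1 k), Pr_T2 b1, Pr_T2 b2]
  have hsq : t2 1 k * t2 1 k ≤ (2 * C * (d : ℝ) ^ (-(1 / 4) : ℝ)) * (2 * C * (d : ℝ) ^ (-(1 / 4) : ℝ)) :=
    mul_le_mul ht ht ht0 (by positivity)
  have hdn : 0 < (d : ℝ) ^ (-(1 / 4) : ℝ) := by positivity
  have hln : 0 < (l : ℝ) ^ (-(1 / 4) : ℝ) := by positivity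
  rcases lt_or_ge (l / 4) (2 * d) with hc | hc
  · -- the points are far apart
    have h1 : Pr (qan a l) (fun ω => VL a l p ω ∧ VL a l p' ω) ≤ t2 1 k * t2 1 k := by
      rw [← hprod]
      exact Pr_mono fun ω _ h => ⟨e1 ω h.1, e2 ω h.2⟩
    have h2 : (d : ℝ) ^ (-(1 / 4) : ℝ) ≤ 2 * (l : ℝ) ^ (-(1 / 4) : ℝ) := by
      have h3 : (l : ℝ) / 16 ≤ d := by
        have h4 : l ≤ 16 * d := by omega
        have h5 : (l : ℝ) ≤ 16 * d := by exact_mod_cast h4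
        linarith
      have h4 : (d : ℝ) ^ (-(1 / 4) : ℝ) ≤ ((l : ℝ) / 16) ^ (-(1 / 4) : ℝ) :=
        Real.rpow_le_rpow_of_nonpos (by positivity) h3 (by norm_num)
      refine h4.trans (le_of_eq ?_)
      rw [Real.div_rpow hl0.le (by norm_num)]
      have h5 : (16 : ℝ) ^ (-(1 / 4) : ℝ) = 2⁻¹ := by
        rw [show (16 : ℝ) = 2 ^ (4 : ℝ) by norm_num, ← Real.rpow_mul (by norm_num)]
        rw [show (4 : ℝ) * -(1 / 4) = -1 by norm_num, Real.rpow_neg_one]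
      rw [h5]
      field_simp
    calc Pr (qan a l) (fun ω => VL a l p ω ∧ VL a l p' ω)
        ≤ (2 * C * (d : ℝ) ^ (-(1 / 4) : ℝ)) * (2 * C * (d : ℝ) ^ (-(1 / 4) : ℝ)) := h1.trans hsq
      _ = 4 * C ^ 2 * (d : ℝ) ^ (-(1 / 4) : ℝ) * (d : ℝ) ^ (-(1 / 4) : ℝ) := by ring
      _ ≤ 4 * C ^ 2 * (d : ℝ) ^ (-(1 / 4) : ℝ) * (2 * (l : ℝ) ^ (-(1 / 4) : ℝ)) := by gcongr
      _ = 8 * C ^ 2 * (d : ℝ) ^ (-(1 / 4) : ℝ) * (l : ℝ) ^ (-(1 / 4) : ℝ) := by ring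
      _ ≤ (8 * C ^ 2 + 16 * C ^ 3) * (d : ℝ) ^ (-(1 / 4) : ℝ) * (l : ℝ) ^ (-(1 / 4) : ℝ) := by
          gcongr
          have : 0 < C ^ 3 := by positivity
          linarith
  · -- the third annulus
    have e3 : ∀ ω, VL a l p ω → T2 p (2 * d) (l / 4) ω := fun ω h =>
      T2_of_VL hc (by omega) (by omega) (by rw [sd_self]; push_cast; omega) h
    have b3 : bu p (l / 4) ⊆ qan a l := bu_qan (by omega) le_rfl hp
    have hsub : bu p k ∪ bu p' k ⊆ bu p (2 * d) := by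
      refine union_subset (bu_sub ?_) (bu_sub ?_)
      · rw [sd_self]
        push_cast
        omega
      · rw [hd]
        push_cast
        omega
    have hdis3 : Disjoint (bu p k ∪ bu p' k) (bu p (l / 4) \ bu p (2 * d)) :=
      Finset.disjoint_of_subset_left hsub Finset.disjoint_sdiff
    have hdep12 : Dep (bu p k ∪ bu p' k) (fun ω => T2 p 1 k ω ∧ T2 p' 1 k ω) := by
      intro ω
      exact and_congr (dep_up subset_union_left (dep_T2 p 1 k) ω) (dep_up subset_union_right (dep_T2 p' 1 k) ω)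
    have hind := Pr_indep (E := qan a l) (union_subset b1 b2) (sdiff_subset.trans b3) hdis3 hdep12 (dep_T2' p (2 * d) (l / 4))
    rw [hprod, Pr_T2 b3] at hind
    have h1 : Pr (qan a l) (fun ω => VL a l p ω ∧ VL a l p' ω) ≤ t2 1 k * t2 1 k * t2 (2 * d) (l / 4) := by
      rw [← hind]
      exact Pr_mono fun ω _ h => ⟨⟨e1 ω h.1, e2 ω h.2⟩, e3 ω h.1⟩
    have h3 : t2 (2 * d) (l / 4) ≤ 4 * C * (d : ℝ) ^ (1 / 4 : ℝ) * (l : ℝ) ^ (-(1 / 4) : ℝ) := by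
      refine (hT (2 * d) (l / 4) (by omega) hc).trans ?_
      have h4 : (((2 * d : ℕ) : ℝ) / (l / 4 : ℕ)) ^ (1 / 4 : ℝ) ≤ (16 * d / l) ^ (1 / 4 : ℝ) := by
        refine Real.rpow_le_rpow (by positivity) ?_ (by norm_num)
        have h5 : l ≤ 8 * (l / 4) := by omega
        have h6 : (l : ℝ) ≤ 8 * ((l / 4 : ℕ) : ℝ) := by exact_mod_cast h5
        have h7 : (0 : ℝ) < ((l / 4 : ℕ) : ℝ) := by linarith
        rw [div_le_div_iff₀ h7 hl0]
        push_cast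
        nlinarith
      have h5 : (16 * (d : ℝ) / l) ^ (1 / 4 : ℝ) = 2 * (d : ℝ) ^ (1 / 4 : ℝ) * (l : ℝ) ^ (-(1 / 4) : ℝ) := by
        rw [Real.div_rpow (by positivity) hl0.le, Real.mul_rpow (by norm_num) hd0.le, Real.rpow_neg hl0.le]
        have h3 : (16 : ℝ) ^ (1 / 4 : ℝ) = 2 := by
          rw [show (16 : ℝ) = 2 ^ (4 : ℝ) by norm_num, ← Real.rpow_mul (by norm_num)]
          norm_num
        rw [h3]
        rfl
      rw [h5] at h4
      have h6 : 0 < (d : ℝ) ^ (1 / 4 : ℝ) * (l : ℝ) ^ (-(1 / 4) : ℝ) := by positivity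
      calc C * (((2 * d : ℕ) : ℝ) / (l / 4 : ℕ)) ^ (1 / 4 : ℝ)
          ≤ C * (2 * (d : ℝ) ^ (1 / 4 : ℝ) * (l : ℝ) ^ (-(1 / 4) : ℝ)) := by gcongr
        _ ≤ 4 * C * (d : ℝ) ^ (1 / 4 : ℝ) * (l : ℝ) ^ (-(1 / 4) : ℝ) := by nlinarith
    have h30 : 0 ≤ t2 (2 * d) (l / 4) := by
      rw [← Pr_T2 (v := p) (r := 2 * d) (R := l / 4) (E := qan a l) b3]
      exact Pr_nonneg _ _
    have hdd : (d : ℝ) ^ (-(1 / 4) : ℝ) * (d : ℝ) ^ (1 / 4 : ℝ) = 1 := by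
      rw [← Real.rpow_add hd0]
      norm_num
    calc Pr (qan a l) (fun ω => VL a l p ω ∧ VL a l p' ω)
        ≤ t2 1 k * t2 1 k * t2 (2 * d) (l / 4) := h1
      _ ≤ (2 * C * (d : ℝ) ^ (-(1 / 4) : ℝ)) * (2 * C * (d : ℝ) ^ (-(1 / 4) : ℝ)) *
          (4 * C * (d : ℝ) ^ (1 / 4 : ℝ) * (l : ℝ) ^ (-(1 / 4) : ℝ)) := mul_le_mul hsq h3 h30 (by positivity)
      _ = 16 * C ^ 3 * (d : ℝ) ^ (-(1 / 4) : ℝ) * ((d : ℝ) ^ (-(1 / 4) : ℝ) * (d : ℝ) ^ (1 / 4 : ℝ)) *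
          (l : ℝ) ^ (-(1 / 4) : ℝ) := by ring
      _ = 16 * C ^ 3 * (d : ℝ) ^ (-(1 / 4) : ℝ) * (l : ℝ) ^ (-(1 / 4) : ℝ) := by rw [hdd, mul_one]
      _ ≤ (8 * C ^ 2 + 16 * C ^ 3) * (d : ℝ) ^ (-(1 / 4) : ℝ) * (l : ℝ) ^ (-(1 / 4) : ℝ) := by
          gcongr
          have : 0 < C ^ 2 := by positivity
          linarith

/-- the local lower bound -/
def TwoLow : Prop := ∃ (c : ℝ) (l0 : ℕ), 0 < c ∧ ∀ a l : ℕ, l0 ≤ l → 2 * l ≤ a → ∀ p ∈ qs a l,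
  c * (l : ℝ) ^ (-(1 / 4) : ℝ) ≤ Pr (qan a l) (VL a l p)

theorem hypLoc_of (hU : TwoUp) (hL : TwoLow) : HypLoc VisS := by
  obtain ⟨C, hC, hT⟩ := hU
  obtain ⟨c, l0, hc, hc1⟩ := hL
  obtain ⟨C', hC'⟩ : ∃ C' : ℝ, C' = 2 * (8 * C ^ 2 + 16 * C ^ 3) + 4 * C := ⟨_, rfl⟩
  have hC'0 : 0 < C' := by rw [hC']; positivity
  refine ⟨VL, c, C', max l0 16, hc, hC'0, ?_⟩
  intro a l hl hla
  have hl1 : l0 ≤ l := (le_max_left _ _).trans hl
  have hl16 : 16 ≤ l := (le_max_right _ _).trans hl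
  have hl0 : (0 : ℝ) < l := by positivity
  have hln : 0 < (l : ℝ) ^ (-(1 / 4) : ℝ) := by positivity
  refine ⟨fun p _ => dep_VL a l p, ?_, hc1 a l hl1 hla, ?_⟩
  · intro b hb ω _ p hp h
    refine vis_of_VL hla hb ?_ h
    rw [mem_qs] at hp
    rw [mem_rv]
    constructor <;> constructor <;> omega
  · intro p hp p' hp'
    obtain ⟨d, hd⟩ : ∃ d : ℕ, sd p p' = d := ⟨(sd p p').toNat, (Int.toNat_of_nonneg (sd_nonneg _ _)).symm⟩
    rw [hd, Int.toNat_natCast]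
    rcases lt_or_ge d 4 with h4 | h4
    · have h1 : Pr (qan a l) (fun ω => VL a l p ω ∧ VL a l p' ω) ≤ 2 * C * (l : ℝ) ^ (-(1 / 4) : ℝ) :=
        (Pr_mono fun ω _ h => h.1).trans (one_point hC hT (by omega) hp)
      have h2 : (1 / 2 : ℝ) ≤ ((d : ℝ) + 1) ^ (-(1 / 4) : ℝ) := by
        have h3 : (1 / 2 : ℝ) = (16 : ℝ) ^ (-(1 / 4 : ℝ)) := by
          rw [show (16 : ℝ) = 2 ^ (4 : ℝ) by norm_num, ← Real.rpow_mul (by norm_num)]
          norm_num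
        rw [h3]
        refine Real.rpow_le_rpow_of_nonpos (by positivity) ?_ (by norm_num)
        have h5 : (d : ℝ) < 4 := by exact_mod_cast h4
        linarith
      have h3 : 4 * C ≤ C' := by
        rw [hC']
        have : 0 < 2 * (8 * C ^ 2 + 16 * C ^ 3) := by positivity
        linarith
      calc Pr (qan a l) (fun ω => VL a l p ω ∧ VL a l p' ω) ≤ 2 * C * (l : ℝ) ^ (-(1 / 4) : ℝ) := h1
        _ = (4 * C) * (1 / 2) * (l : ℝ) ^ (-(1 / 4) : ℝ) := by ring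
        _ ≤ C' * ((d : ℝ) + 1) ^ (-(1 / 4) : ℝ) * (l : ℝ) ^ (-(1 / 4) : ℝ) := by gcongr
    · have h1 := two_point hC hT hl16 hp hp' hd h4
      have hd0 : (0 : ℝ) < d := by positivity
      have h2 : (d : ℝ) ^ (-(1 / 4) : ℝ) ≤ 2 * ((d : ℝ) + 1) ^ (-(1 / 4) : ℝ) := by
        have h3 : ((d : ℝ) + 1) / 16 ≤ d := by
          have h5 : (4 : ℝ) ≤ d := by exact_mod_cast h4
          linarith
        have h5 : (d : ℝ) ^ (-(1 / 4) : ℝ) ≤ (((d : ℝ) + 1) / 16) ^ (-(1 / 4) : ℝ) :=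
          Real.rpow_le_rpow_of_nonpos (by positivity) h3 (by norm_num)
        refine h5.trans (le_of_eq ?_)
        rw [Real.div_rpow (by positivity) (by norm_num)]
        have h6 : (16 : ℝ) ^ (-(1 / 4) : ℝ) = 2⁻¹ := by
          rw [show (16 : ℝ) = 2 ^ (4 : ℝ) by norm_num, ← Real.rpow_mul (by norm_num)]
          rw [show (4 : ℝ) * -(1 / 4) = -1 by norm_num, Real.rpow_neg_one]
        rw [h6]
        field_simp
      have h3 : 0 < ((d : ℝ) + 1) ^ (-(1 / 4) : ℝ) := by positivity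
      calc Pr (qan a l) (fun ω => VL a l p ω ∧ VL a l p' ω)
          ≤ (8 * C ^ 2 + 16 * C ^ 3) * (d : ℝ) ^ (-(1 / 4) : ℝ) * (l : ℝ) ^ (-(1 / 4) : ℝ) := h1
        _ ≤ (8 * C ^ 2 + 16 * C ^ 3) * (2 * ((d : ℝ) + 1) ^ (-(1 / 4) : ℝ)) * (l : ℝ) ^ (-(1 / 4) : ℝ) := by gcongr
        _ = (2 * (8 * C ^ 2 + 16 * C ^ 3)) * ((d : ℝ) + 1) ^ (-(1 / 4) : ℝ) * (l : ℝ) ^ (-(1 / 4) : ℝ) := by ring
        _ ≤ C' * ((d : ℝ) + 1) ^ (-(1 / 4) : ℝ) * (l : ℝ) ^ (-(1 / 4) : ℝ) := by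
            gcongr
            rw [hC']
            linarith

end DimLim
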