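import Pool.Agent.Lib.MP_216314_pr.I.IVc
import Pool.Agent.Lib.MP_216314_pr.I.Curve

/-!
# The trace of the interface

`Trc a b ω`: the vertices of `[0,a] × [0,b]` one of whose corners is visited by the interface from the lower right corner to the upper left corner.
`interface_dim`: from the two-arm estimates `TwoUp` and `TwoLow`, every limit of the rescaled trace has dimension `7/4`.
-/

set_option autoImplicit false

noncomputable section

namespace DimLim

open Finset FKI FKP

open Classical in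
/-- the vertices along which the interface passes -/
def Trc (a b : ℕ) (ω : Finset Edge) : Finset V := (rv a b).filter (fun v => ∃ p, vtx p = v ∧ FKN.Gam a b ω p)

theorem inBox_trc : InBox Trc := by
  intro a b ω w hw
  classical
  rw [Trc, mem_filter] at hw
  obtain ⟨⟨h1, h2⟩, h3, h4⟩ := mem_rv.1 hw.1
  exact ⟨h1, h2, h3, h4⟩

/-- a visited corner near `v` gives two arms -/
theorem T2_of_corner {a b r R : ℕ} {v p f : V} {ω : Finset Edge} (hr : r ≤ R)
    (h1 : (R : ℤ) ≤ v.1) (h2 : v.1 + R ≤ a) (h3 : (R : ℤ) ≤ v.2) (h4 : v.2 + R ≤ b) (hp : sd v p ≤ r)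
    (hf : fsd v f < r) (hW : WC a b p ω) (hD : FKN.FD a b ω f) : T2 v r R ω := by
  constructor
  · refine arm_primal (S := (ω ∪ wsd a b) ∩ box 0 a 0 b) (w := (0, 0)) hr hp ?_ hW.symm ?_
    · unfold sd
      rw [le_max_iff]
      left
      simp only [zero_sub, abs_neg]
      exact h1.trans (le_abs_self _)
    · intro e he h5
      rw [mem_inter, mem_union] at he
      rcases he.1 with h6 | h6
      · exact mem_union_left _ h6
      · exfalso
        unfold wsd at h6
        rw [mem_union] at h6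
        have key : ∀ u : V, (u.1 = 0 ∨ u.2 = 0) → (R : ℤ) ≤ sd v u := by
          intro u hu
          unfold sd
          rw [le_max_iff]
          rcases hu with hu | hu
          · left
            rw [hu, zero_sub, abs_neg]
            exact h1.trans (le_abs_self _)
          · right
            rw [hu, zero_sub, abs_neg]
            exact h3.trans (le_abs_self _)
        have h7 : ((ea e).1 = 0 ∨ (ea e).2 = 0) ∧ ((eb e).1 = 0 ∨ (eb e).2 = 0) := by
          rcases h6 with h6 | h6
          · have := pexit_box h6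
            exact ⟨Or.inl (by omega), Or.inl (by omega)⟩
          · have := pexit_box h6
            exact ⟨Or.inr (by omega), Or.inr (by omega)⟩
        have h8 := key _ h7.1
        have h9 := key _ h7.2
        rcases h5 with h5 | h5 <;> omega
  · obtain ⟨f', hf', hreach⟩ := hD
    obtain ⟨g, h5, h6⟩ := arm_dual (v := v) (r := r) (R := R) hr (p := f) (w := f') (F := box 0 a 0 b)
      (ω := ω ∪ wsd a b) hf (by
        unfold fsd FKN.fl
        simp only
        rcases hf' with hf' | hf'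
        · rw [hf']
          omega
        · rw [hf']
          omega) hreach
    refine ⟨g, h5, h6.mono (gr_mono ?_)⟩
    unfold FKN.dc
    refine map_subset_map.2 ?_
    intro e he
    rw [mem_sdiff, mem_sdiff] at he ⊢
    refine ⟨he.1, fun h7 => he.2 ⟨mem_union_left _ h7.1, h7.2⟩⟩

theorem hypU_trc (h : TwoUp) : HypU Trc := by
  obtain ⟨C, hC, hT⟩ := h
  intro K
  refine ⟨2 * C + 1, by linarith, ?_⟩
  intro a b m d v _ _ _ _ hm hmd h1 h2 h3 h4
  have hm0 : (0 : ℝ) < m := by exact_mod_cast hm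
  have hd0 : (0 : ℝ) < d := by exact_mod_cast (lt_of_lt_of_le hm hmd)
  have hpos : 0 ≤ ((m : ℝ) / d) ^ (1 / 4 : ℝ) := by positivity
  rcases eq_or_lt_of_le hmd with he | hlt
  · refine (Pr_le_one _ _).trans ?_
    rw [he, div_self hd0.ne', Real.one_rpow]
    linarith
  · have h5 : Pr (box 0 a 0 b) (fun ω => ∃ w ∈ Trc a b ω, sd v w ≤ m) ≤ Pr (box 0 a 0 b) (T2 v (m + 1) d) := by
      refine Pr_mono fun ω hω hω' => ?_
      obtain ⟨w, hw1, hw2⟩ := hω'
      classical
      rw [Trc, mem_filter] at hw1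
      obtain ⟨-, p, hp1, hp2⟩ := hw1
      have hw3 := sd_le.1 hw2
      have hw1 : w.1 = p.1 / 2 := by rw [← hp1]; rfl
      have hw2 : w.2 = p.2 / 2 := by rw [← hp1]; rfl
      rcases FKN.gam_range hω hp2 with h6 | h6 | ⟨h6, h7, h8, h9⟩
      · exfalso
        rw [h6] at hw1 hw2
        simp only at hw1 hw2
        omega
      · exfalso
        rw [h6] at hw1 hw2
        simp only at hw1 hw2
        omega
      · obtain ⟨h10, h11⟩ := (FKN.gam_iff hω h6 h8 h7 h9).1 hp2
        rw [hp1] at h10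
        refine T2_of_corner hlt h1 h2 h3 h4 ?_ ?_ h10 h11
        · rw [sd_le]
          push_cast
          constructor <;> constructor <;> omega
        · have h12 : fsd v (FKN.fc p) ≤ m := by
            rw [fsd_le]
            unfold FKN.fc
            simp only
            constructor <;> constructor <;> omega
          push_cast
          omega
    rw [Pr_T2 (bu_box h1 h2 h3 h4)] at h5
    refine h5.trans ((hT (m + 1) d (by omega) hlt).trans ?_)
    have h6 : (((m + 1 : ℕ) : ℝ) / d) ^ (1 / 4 : ℝ) ≤ 2 * ((m : ℝ) / d) ^ (1 / 4 : ℝ) := by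
      have h7 : (((m + 1 : ℕ) : ℝ) / d) ≤ 2 * ((m : ℝ) / d) := by
        rw [mul_div_assoc', div_le_div_iff_of_pos_right hd0]
        push_cast
        have : (1 : ℝ) ≤ m := by exact_mod_cast hm
        linarith
      calc (((m + 1 : ℕ) : ℝ) / d) ^ (1 / 4 : ℝ) ≤ (2 * ((m : ℝ) / d)) ^ (1 / 4 : ℝ) :=
            Real.rpow_le_rpow (by positivity) h7 (by norm_num)
        _ = 2 ^ (1 / 4 : ℝ) * ((m : ℝ) / d) ^ (1 / 4 : ℝ) := Real.mul_rpow (by norm_num) (by positivity)
        _ ≤ 2 * ((m : ℝ) / d) ^ (1 / 4 : ℝ) := by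
            refine mul_le_mul_of_nonneg_right ?_ hpos
            calc (2 : ℝ) ^ (1 / 4 : ℝ) ≤ 2 ^ (1 : ℝ) :=
                  Real.rpow_le_rpow_of_exponent_le (by norm_num) (by norm_num)
              _ = 2 := Real.rpow_one 2
    nlinarith

theorem trc_of_vis {a b : ℕ} {ω : Finset Edge} (hω : ω ⊆ box 0 a 0 b) {p : V} (h : p ∈ VisS a b ω) : p ∈ Trc a b ω := by
  classical
  rw [VisS, mem_filter] at h
  rw [Trc, mem_filter]
  obtain ⟨h1, h2, h3⟩ := h
  obtain ⟨⟨h4, h5⟩, h6, h7⟩ := mem_rv.1 h1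
  refine ⟨h1, (2 * p.1 + 1, 2 * p.2 + 1), ?_, (FKN.gam_ne hω h4 h5 h6 h7).2 ⟨h2, h3⟩⟩
  unfold vtx
  ext
  · simp only
    omega
  · simp only
    omega

theorem hypLoc_trc (hU : TwoUp) (hL : TwoLow) : HypLoc Trc := by
  obtain ⟨VL, c, C, l0, hc, hC, h⟩ := hypLoc_of hU hL
  refine ⟨VL, c, C, l0, hc, hC, fun a l hl hla => ?_⟩
  obtain ⟨h1, h2, h3, h4⟩ := h a l hl hla
  exact ⟨h1, fun b hb ω hω p hp hV => trc_of_vis hω (h2 b hb ω hω p hp hV), h3, h4⟩

open MeasureTheory Filter Topology TopologicalSpace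

/-- the dimension of the interface -/
theorem interface_dim (hU : TwoUp) (hL : TwoLow) {A B : ℝ} (hA : 0 < A) (hB : 0 < B)
    [MeasurableSpace (NonemptyCompacts (Rect A B))] [BorelSpace (NonemptyCompacts (Rect A B))]
    {μ : ProbabilityMeasure (NonemptyCompacts (Rect A B))} {δ : ℕ → ℝ} (hδ : ∀ k, 0 < δ k)
    (hδ0 : Tendsto δ atTop (𝓝 0)) (hμ : Tendsto (fun k => law hA.le hB.le Trc (δ k)) atTop (𝓝 μ)) :
    ∀ᵐ (K : NonemptyCompacts (Rect A B)) ∂(μ : Measure (NonemptyCompacts (Rect A B))),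
      dimH (K : Set (Rect A B)) = 7 / 4 :=
  law_dim hA.le hB.le hA hB (hypU_trc hU) (fun _ h1 h2 => hypL_of_loc (hypLoc_trc hU hL) h1 h2) inBox_trc hδ hδ0 hμ

end DimLim
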