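import Pool.Agent.Lib.MP_216314_pr.I.IVd
import Pool.Agent.Lib.MP_216314_pr.EV.Def

/-!
# The two-arm upper bound from the even arms theorem for `l = 1`
-/

set_option autoImplicit false

noncomputable section

namespace DimLim

open Finset FKI FKP

/-- the upper bound of the even arms theorem, two arms -/
def EvUp : Prop := ∃ (r0 : ℕ) (C : ℝ), 0 < C ∧ ∀ r n : ℕ, r0 ≤ r → 2 * r ≤ n →
  EV.pil 1 r n ≤ C * ((r : ℝ) / n) ^ (1 / 4 : ℝ)

theorem nrm_edge' (e : Edge) : FKN.nrm (ea e) - FKN.nrm (eb e) ≤ 1 ∧ FKN.nrm (eb e) - FKN.nrm (ea e) ≤ 1 := by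
  have h := sd_edge (0, 0) e
  have h1 : ∀ u : V, sd (0, 0) u = FKN.nrm u := by
    intro u
    unfold sd FKN.nrm
    simp only [sub_zero]
  rw [h1, h1] at h
  exact h

theorem fl_edge' (e : Edge) : FKN.fl (ea e) - FKN.fl (eb e) ≤ 1 ∧ FKN.fl (eb e) - FKN.fl (ea e) ≤ 1 := by
  have h := fsd_edge (0, 0) e
  have h1 : ∀ u : V, fsd (0, 0) u = FKN.fl u := by
    intro u
    unfold fsd
    simp only [sub_zero]
  rw [h1, h1] at h
  exact h

theorem lvf_fl (f : V) : FKN.lvf f = 2 * FKN.fl f + 1 := by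
  unfold FKN.lvf FKN.fl
  have h1 : ∀ x : ℤ, |2 * x + 1| = 2 * max x (-x - 1) + 1 := by
    intro x
    rcases le_or_gt 0 x with h | h
    · rw [abs_of_nonneg (by omega), max_eq_left (by omega)]
    · rw [abs_of_neg (by omega), max_eq_right (by omega)]
      ring
  rw [h1, h1]
  omega

theorem mem_bx_nrm {n : ℕ} {e : Edge} : e ∈ FKN.bx n ↔ FKN.nrm (ea e) ≤ n ∧ FKN.nrm (eb e) ≤ n := by
  have h := mem_bu (u := (0, 0)) (m := n) (e := e)
  have h1 : ∀ u : V, sd (0, 0) u = FKN.nrm u := by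
    intro u
    unfold sd FKN.nrm
    simp only [sub_zero]
  have h2 : bu (0, 0) n = FKN.bx n := by
    unfold bu FKN.bx
    simp
  rw [h1, h1, h2] at h
  exact h

/-- the faces of an edge of `bx n` are at level at most `n` -/
theorem bx_fl {n : ℕ} {e : Edge} (he : e ∈ FKN.bx n) :
    FKN.fl (ea (FKN.dl e)) ≤ n ∧ FKN.fl (eb (FKN.dl e)) ≤ n := by
  unfold FKN.bx at he
  rw [mem_box] at he
  obtain ⟨x, y, t⟩ := e
  cases t
  · show FKN.fl (x, y - 1) ≤ n ∧ FKN.fl (x, y - 1 + 1) ≤ n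
    unfold FKN.fl
    simp only [Bool.false_eq_true, false_and, or_false, true_and] at he ⊢
    omega
  · show FKN.fl (x - 1, y) ≤ n ∧ FKN.fl (x - 1 + 1, y) ≤ n
    unfold FKN.fl
    simp only [Bool.true_eq_false, false_and, false_or, true_and] at he ⊢
    omega

theorem cl_of_tw {r R : ℕ} (hr : r ≤ R) {ω : Finset Edge} (h : Tw r R ω) : EV.Cl 1 r R ω := by
  obtain ⟨⟨u, hu1, hu2⟩, f, hf1, hf2⟩ := h
  have hr' : (r : ℤ) ≤ R := by exact_mod_cast hr
  constructor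
  · -- the open crossing
    obtain ⟨x, hx1, hx2⟩ := reach_level (lv := fun v => - FKN.nrm v) (R := -(r : ℤ))
      (fun e _ => by have := nrm_edge' e; constructor <;> omega) hu2.symm (by rw [hu1]; omega) (by
        show -(r : ℤ) ≤ -FKN.nrm (0, 0)
        unfold FKN.nrm
        simp)
    have hx3 : FKN.nrm x = r := by omega
    refine ⟨fun _ => x, fun i => ⟨hx3, u, hu1, ?_⟩, ?_⟩
    · refine (hx2.symm.mono (gr_mono ?_))
      intro e he
      rw [mem_filter, mem_inter, mem_union] at he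
      obtain ⟨⟨h1, h2⟩, h3⟩ := he
      have h4 : e ∉ FKN.bx r := by
        intro h5
        rw [mem_bx_nrm] at h5
        rcases h3 with h3 | h3 <;> omega
      rw [mem_inter]
      refine ⟨h1.resolve_right h4, ?_⟩
      unfold FKN.an
      rw [mem_sdiff]
      exact ⟨h2, h4⟩
    · intro i j hij
      exact absurd (Subsingleton.elim i j) hij
  · -- the dual crossing
    obtain ⟨g, hg1, hg2⟩ := reach_level (lv := fun v => - FKN.fl v) (R := -(r : ℤ))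
      (fun e _ => by have := fl_edge' e; constructor <;> omega) hf2.symm (by rw [hf1]; omega) (by
        show -(r : ℤ) ≤ -FKN.fl (0, 0)
        unfold FKN.fl
        simp)
    refine ⟨g, f, by rw [lvf_fl]; omega, by rw [lvf_fl, hf1], hg2.symm.mono (gr_mono ?_)⟩
    intro e he
    rw [mem_filter] at he
    obtain ⟨h1, h2⟩ := he
    unfold FKN.dc at h1 ⊢
    rw [mem_map] at h1 ⊢
    obtain ⟨e1, h3, rfl⟩ := h1
    have h4 : e1 ∉ FKN.bx r := by
      intro h5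
      have h6 := bx_fl h5
      have h7 : -FKN.fl (ea (FKN.dl e1)) < -(r : ℤ) ∨ -FKN.fl (eb (FKN.dl e1)) < -(r : ℤ) := h2
      omega
    refine ⟨e1, ?_, rfl⟩
    rw [mem_sdiff, mem_sdiff] at h3
    rw [mem_sdiff]
    unfold FKN.an
    rw [mem_sdiff]
    exact ⟨⟨h3.1, h4⟩, fun h5 => h3.2 ⟨h5, h4⟩⟩

theorem dep_cl (l r R : ℕ) : Dep (FKN.an r R) (EV.Cl l r R) := by
  intro ω
  have h1 : ∀ u v : V, Conn (FKN.an r R) (ω ∩ FKN.an r R) u v ↔ Conn (FKN.an r R) ω u v := by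
    intro u v
    unfold Conn
    rw [inter_assoc, inter_self]
  have h2 : FKN.dc (FKN.an r R) (ω ∩ FKN.an r R) = FKN.dc (FKN.an r R) ω := by
    unfold FKN.dc
    congr 1
    ext e
    simp only [mem_inter, mem_sdiff]
    tauto
  unfold EV.Cl
  rw [h2]
  simp only [h1]

theorem t2_le_pil {r R : ℕ} (hr : r ≤ R) : t2 r R ≤ EV.pil 1 r R := by
  have h1 : t2 r R = Pr (FKN.bx R) (Tw r R) := (FKN.pr_half _ _).symm
  have h2 : EV.pil 1 r R = Pr (FKN.an r R) (EV.Cl 1 r R) := (FKN.pr_half _ _).symm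
  have h3 : FKN.an r R ⊆ FKN.bx R := sdiff_subset
  rw [h1, h2, ← Pr_dep h3 (dep_cl 1 r R)]
  exact Pr_mono fun ω _ h => cl_of_tw hr h

theorem t2_mono {r r' R : ℕ} (h : r ≤ r') : t2 r R ≤ t2 r' R := by
  have h1 : t2 r R = Pr (FKN.bx R) (Tw r R) := (FKN.pr_half _ _).symm
  have h2 : t2 r' R = Pr (FKN.bx R) (Tw r' R) := (FKN.pr_half _ _).symm
  rw [h1, h2]
  have h3 : FKN.bx r ⊆ FKN.bx r' := by
    unfold FKN.bx
    exact box_mono (by omega) (by omega) (by omega) (by omega)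
  refine Pr_mono fun ω _ hω => ?_
  obtain ⟨⟨u, hu1, hu2⟩, f, hf1, hf2⟩ := hω
  refine ⟨⟨u, hu1, hu2.mono (gr_mono ?_)⟩, f, hf1, hf2.mono (gr_mono ?_)⟩
  · exact inter_subset_inter_right (union_subset_union_right h3)
  · unfold FKN.dc
    refine map_subset_map.2 (sdiff_subset_sdiff (Finset.Subset.refl _) (sdiff_subset_sdiff (Finset.Subset.refl _) h3))

theorem t2_le_one (r R : ℕ) : t2 r R ≤ 1 := by
  have h1 : t2 r R = Pr (FKN.bx R) (Tw r R) := (FKN.pr_half _ _).symm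
  rw [h1]
  exact Pr_le_one _ _

theorem twoUp_of_ev (h : EvUp) : TwoUp := by
  obtain ⟨r0, C, hC, hT⟩ := h
  obtain ⟨q, hq1, hq⟩ : ∃ q : ℕ, 1 ≤ q ∧ r0 ≤ q := ⟨max r0 1, le_max_right _ _, le_max_left _ _⟩
  have hq0 : (1 : ℝ) ≤ q := by exact_mod_cast hq1
  refine ⟨(C + 2) * q, by positivity, ?_⟩
  intro r R hr1 hrR
  have hr0 : (0 : ℝ) < r := by exact_mod_cast hr1
  have hR0 : (0 : ℝ) < R := by exact_mod_cast (lt_of_lt_of_le hr1 hrR)
  have hrq : q * r ≥ r := by nlinarith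
  have hpos : 0 < ((r : ℝ) / R) ^ (1 / 4 : ℝ) := by positivity
  have hqq : (q : ℝ) ^ (1 / 4 : ℝ) ≤ q := by
    calc (q : ℝ) ^ (1 / 4 : ℝ) ≤ (q : ℝ) ^ (1 : ℝ) := Real.rpow_le_rpow_of_exponent_le hq0 (by norm_num)
      _ = q := Real.rpow_one _
  rcases le_or_gt (2 * (q * r)) R with h2 | h2
  · have h3 : t2 r R ≤ EV.pil 1 (q * r) R := (t2_mono hrq).trans (t2_le_pil (by omega))
    have h4 := hT (q * r) R (by nlinarith) h2
    have h5 : (((q * r : ℕ) : ℝ) / R) ^ (1 / 4 : ℝ) ≤ q * ((r : ℝ) / R) ^ (1 / 4 : ℝ) := by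
      have h6 : ((q * r : ℕ) : ℝ) / R = q * ((r : ℝ) / R) := by
        push_cast
        ring
      rw [h6, Real.mul_rpow (by positivity) (by positivity)]
      exact mul_le_mul_of_nonneg_right hqq hpos.le
    calc t2 r R ≤ C * (((q * r : ℕ) : ℝ) / R) ^ (1 / 4 : ℝ) := h3.trans h4
      _ ≤ C * (q * ((r : ℝ) / R) ^ (1 / 4 : ℝ)) := by gcongr
      _ = C * q * ((r : ℝ) / R) ^ (1 / 4 : ℝ) := by ring
      _ ≤ (C + 2) * q * ((r : ℝ) / R) ^ (1 / 4 : ℝ) := by gcongr; linarith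
  · have h3 : (1 : ℝ) ≤ 2 * q * (r / R) := by
      rw [mul_div_assoc', le_div_iff₀ hR0, one_mul]
      have h4 : (R : ℝ) < 2 * (q * r) := by exact_mod_cast h2
      linarith
    have h4 : (1 : ℝ) ≤ (2 * q * (r / R)) ^ (1 / 4 : ℝ) := Real.one_le_rpow h3 (by norm_num)
    rw [Real.mul_rpow (by positivity) (by positivity), Real.mul_rpow (by positivity) (by positivity)] at h4
    have h5 : (2 : ℝ) ^ (1 / 4 : ℝ) ≤ 2 := by
      calc (2 : ℝ) ^ (1 / 4 : ℝ) ≤ 2 ^ (1 : ℝ) := Real.rpow_le_rpow_of_exponent_le (by norm_num) (by norm_num)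
        _ = 2 := Real.rpow_one 2
    calc t2 r R ≤ 1 := t2_le_one r R
      _ ≤ 2 ^ (1 / 4 : ℝ) * (q : ℝ) ^ (1 / 4 : ℝ) * ((r : ℝ) / R) ^ (1 / 4 : ℝ) := h4
      _ ≤ 2 * q * ((r : ℝ) / R) ^ (1 / 4 : ℝ) := by gcongr
      _ ≤ (C + 2) * q * ((r : ℝ) / R) ^ (1 / 4 : ℝ) := by gcongr; linarith

end DimLim
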