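import Pool.Agent.Lib.MP_216314_pr.I.Low1
import Pool.Agent.Lib.MP_216314_pr.I.IVc

/-!
# The local lower bound `TwoLow` from the canonical two-arm state
-/

set_option autoImplicit false

noncomputable section

namespace DimLim

open Finset FKI FKP

theorem ea_sh (a b : ℤ) (e : Edge) : (shE a b e).1 = e.1 + a ∧ (shE a b e).2.1 = e.2.1 + b ∧ (shE a b e).2.2 = e.2.2 :=
  ⟨rfl, rfl, rfl⟩

/-- membership in the quarter annulus from the position -/
theorem mem_qan_of {a l : ℕ} {e : Edge} (hx1 : (a : ℤ) - 2 * l ≤ e.1) (hx2 : e.1 ≤ a) (hx3 : e.2.2 = false → e.1 < a)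
    (hy1 : 0 ≤ e.2.1) (hy2 : e.2.1 < 2 * l) (hh : e.1 + 1 < (a : ℤ) - l ∨ (l : ℤ) < e.2.1) : e ∈ qan a l := by
  unfold qan
  rw [mem_sdiff, mem_box, mem_box]
  constructor
  · cases h : e.2.2
    · left
      exact ⟨rfl, hx1, hx3 h, hy1, hy2.le⟩
    · right
      exact ⟨rfl, hx1, hx2, hy1, hy2⟩
  · rintro (⟨-, h5, h6, h7, h8⟩ | ⟨-, h5, h6, h7, h8⟩)
    · omega
    · omega

theorem VL_of {a l r T : ℕ} {p : V} (hr : 1 ≤ r) (h1 : 6400 * r ≤ l) (h2 : l < 6400 * (r + 1)) (hp : p ∈ qs a l)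
    {ω : Finset Edge} (hP : FKN.FarP (23000 * r) (ω ∩ FKN.Gp r T)) (hD : FKN.FarD (23000 * r) (FKN.dc (FKN.Gm r T) ω)) :
    VL a l p (ω.map (shE p.1 p.2).toEmbedding) := by
  rw [mem_qs] at hp
  obtain ⟨⟨p1, p2⟩, p3, p4⟩ := hp
  have hr1 : (1 : ℤ) ≤ r := by exact_mod_cast hr
  have e0 : shV p.1 p.2 (0, 0) = p := by
    show ((0 + p.1, 0 + p.2) : V) = p
    simp
  constructor
  · obtain ⟨w, hw1, hw2⟩ := hP
    have h3 := (reach_map (cp_sh p.1 p.2) (ω ∩ FKN.Gp r T) (0, 0) w).2 hw2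
    rw [e0] at h3
    obtain ⟨x, hx1, hx2⟩ := reach_level (lv := fun u => -u.2) (R := 0) (fun e _ => by
      obtain ⟨x, y, t⟩ := e
      cases t
      · show -y - -y ≤ 1 ∧ -y - -y ≤ 1
        omega
      · show -y - -(y + 1) ≤ 1 ∧ -(y + 1) - -y ≤ 1
        omega) h3 (by
        show -p.2 ≤ 0
        omega) (by
        show 0 ≤ -(w.2 + p.2)
        omega)
    simp only [neg_eq_zero] at hx1
    have hc : Conn (qan a l) (ω.map (shE p.1 p.2).toEmbedding) p (x.1, 0) := by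
      have hx : x = (x.1, 0) := by
        ext
        · rfl
        · exact hx1
      rw [← hx]
      unfold Conn
      refine hx2.mono (gr_mono ?_)
      intro e he
      rw [mem_filter, mem_map] at he
      obtain ⟨⟨e1, he1, rfl⟩, he2⟩ := he
      rw [mem_inter] at he1 ⊢
      refine ⟨mem_map_of_mem _ he1.1, ?_⟩
      obtain ⟨s1, s2, s3⟩ := ea_sh p.1 p.2 e1
      have hy : 0 ≤ e1.2.1 + p.2 := by
        obtain ⟨x, y, t⟩ := e1
        cases t
        · have he3 : -(y + p.2) < 0 ∨ -(y + p.2) < 0 := he2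
          show 0 ≤ y + p.2
          omega
        · have he3 : -(y + p.2) < 0 ∨ -(y + p.2 + 1) < 0 := he2
          show 0 ≤ y + p.2
          omega
      rcases mem_union.1 he1.2 with h4 | h4
      · have h5 := FKN.Kp_pos h4
        refine mem_qan_of ?_ ?_ ?_ ?_ ?_ ?_
        · show (a : ℤ) - 2 * l ≤ e1.1 + p.1
          omega
        · show e1.1 + p.1 ≤ a
          omega
        · intro _
          show e1.1 + p.1 < a
          omega
        · exact hy
        · show e1.2.1 + p.2 < 2 * l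
          omega
        · left
          show e1.1 + p.1 + 1 < (a : ℤ) - l
          omega
      · have h5 := FKN.lo_pos hr1 h4
        refine mem_qan_of ?_ ?_ ?_ ?_ ?_ ?_
        · show (a : ℤ) - 2 * l ≤ e1.1 + p.1
          omega
        · show e1.1 + p.1 ≤ a
          omega
        · intro _
          show e1.1 + p.1 < a
          omega
        · exact hy
        · show e1.2.1 + p.2 < 2 * l
          omega
        · left
          show e1.1 + p.1 + 1 < (a : ℤ) - l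
          omega
    have hm := conn_mem_box (x1 := (a : ℤ) - 2 * l) (x2 := a) (y1 := 0) (y2 := 2 * l)
      (hc.mono (F' := box ((a : ℤ) - 2 * l) a 0 (2 * l)) (by unfold qan; exact sdiff_subset) (Finset.Subset.refl _))
      ⟨by omega, by omega, by omega, by omega⟩
    exact ⟨x.1, hm.1, hm.2.1, hc⟩
  · obtain ⟨w, hw1, hw2⟩ := hD
    have h3 := (reach_map (cp_sh p.1 p.2) (FKN.dc (FKN.Gm r T) ω) (0, 0) w).2 hw2
    rw [e0, dc_sh] at h3
    obtain ⟨x, hx1, hx2⟩ := reach_level (lv := fun u => u.1) (R := (a : ℤ)) (fun e _ => by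
      obtain ⟨x, y, t⟩ := e
      cases t
      · show x - (x + 1) ≤ 1 ∧ x + 1 - x ≤ 1
        omega
      · show x - x ≤ 1 ∧ x - x ≤ 1
        omega) h3 (by
        show p.1 ≤ a
        omega) (by
        show (a : ℤ) ≤ w.1 + p.1
        omega)
    refine ⟨x, hx1, hx2.mono (gr_mono ?_)⟩
    intro e he
    rw [mem_filter] at he
    obtain ⟨he1, he2⟩ := he
    unfold FKN.dc at he1 ⊢
    rw [mem_map] at he1 ⊢
    obtain ⟨e1, he1, rfl⟩ := he1
    refine ⟨e1, ?_, rfl⟩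
    rw [mem_sdiff] at he1 ⊢
    obtain ⟨he3, he4⟩ := he1
    rw [mem_map] at he3
    obtain ⟨e3, he5, rfl⟩ := he3
    obtain ⟨s1, s2, s3⟩ := ea_sh p.1 p.2 e3
    -- the crossed edge is to the left of the right side
    have hx : e3.1 + p.1 ≤ a ∧ (e3.2.2 = false → e3.1 + p.1 < a) := by
      obtain ⟨x, y, t⟩ := e3
      cases t
      · have he6 : x + p.1 < a ∨ x + p.1 < a := he2
        show x + p.1 ≤ a ∧ (false = false → x + p.1 < a)
        constructor
        · omega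
        · intro _
          omega
      · have he6 : x + p.1 - 1 < a ∨ x + p.1 - 1 + 1 < a := he2
        show x + p.1 ≤ a ∧ (true = false → x + p.1 < a)
        constructor
        · omega
        · intro h
          exact absurd h (by simp)
    have hpos : (a : ℤ) - 2 * l < e3.1 + p.1 ∧ 0 < e3.2.1 + p.2 ∧ e3.2.1 + p.2 < 2 * l ∧
        (e3.1 + p.1 + 1 < (a : ℤ) - l ∨ (l : ℤ) < e3.2.1 + p.2) := by
      rcases mem_union.1 he5 with h4 | h4
      · have h5 := FKN.Km_pos h4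
        refine ⟨by omega, by omega, by omega, ?_⟩
        left
        omega
      · have h5 := FKN.ld_pos hr1 h4
        refine ⟨by omega, by omega, by omega, ?_⟩
        right
        omega
    constructor
    · refine mem_qan_of ?_ hx.1 hx.2 ?_ hpos.2.2.1 hpos.2.2.2
      · show (a : ℤ) - 2 * l ≤ e3.1 + p.1
        omega
      · show 0 ≤ e3.2.1 + p.2
        omega
    · rw [mem_union]
      rintro (h6 | h6)
      · exact he4 h6
      · unfold wsq at h6
        rw [mem_union, mem_box, mem_box] at h6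
        simp only [Equiv.coe_toEmbedding, s1, s2, s3] at h6
        omega

/-- lower bound for the canonical state of two arms from the origin -/
def CO : Prop := ∃ (c : ℝ) (n0 : ℕ), 0 < c ∧ ∀ n : ℕ, n0 ≤ n →
  c * (n : ℝ) ^ (-(1 / 4) : ℝ) ≤ IPC.Pr (1 / 2) (FKN.bx (2 * n)) (FKN.CanO 1 ∅ FKN.S0 FKN.S0 n)

theorem twoLow_of_co (h : CO) : TwoLow := by
  obtain ⟨c, n0, hc, hco⟩ := h
  obtain ⟨cr, hcr, hcr1, hRB⟩ := FKN.rb_half
  obtain ⟨T, hT⟩ : ∃ T : ℕ, T = 6100 := ⟨_, rfl⟩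
  refine ⟨c * cr ^ (8 * (T + 1)), 6400 * (n0 + 1), by positivity, ?_⟩
  intro a l hl ha p hp
  obtain ⟨r, hr⟩ : ∃ r, r = l / 6400 := ⟨_, rfl⟩
  have hr1 : 1 ≤ r := by omega
  have h1 : 6400 * r ≤ l := by omega
  have h2 : l < 6400 * (r + 1) := by omega
  have hrn : n0 ≤ 400 * r := by omega
  obtain ⟨E, hE⟩ : ∃ E, E = (FKN.Gp r T ∪ FKN.Gm r T) ∪ (qan a l).map (shE (-p.1) (-p.2)).toEmbedding := ⟨_, rfl⟩
  have hqE : qan a l ⊆ E.map (shE p.1 p.2).toEmbedding := by
    intro e he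
    rw [mem_map]
    refine ⟨shE (-p.1) (-p.2) e, ?_, ?_⟩
    · rw [hE]
      exact mem_union_right _ (mem_map_of_mem _ he)
    · obtain ⟨x, y, t⟩ := e
      show ((x + -p.1 + p.1, y + -p.2 + p.2, t) : Edge) = (x, y, t)
      simp
  have e1 : Pr (qan a l) (VL a l p) = IPC.Pr (1 / 2) E (fun ω => VL a l p (ω.map (shE p.1 p.2).toEmbedding)) := by
    rw [← Pr_dep hqE (dep_VL a l p), Pr_map, FKN.pr_half]
  have key := FKN.corr hcr hcr1 hr1 hT (hRB r) (E := E) (by rw [hE]; exact subset_union_left)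
  have e2 : IPC.Pr (1 / 2) E (fun ω => FKN.FarP (23000 * r) (ω ∩ FKN.Gp r T) ∧ FKN.FarD (23000 * r) (FKN.dc (FKN.Gm r T) ω)) ≤
      IPC.Pr (1 / 2) E (fun ω => VL a l p (ω.map (shE p.1 p.2).toEmbedding)) :=
    FKN.pq_mono (by norm_num) (by norm_num) fun ω _ h => VL_of hr1 h1 h2 hp h.1 h.2
  have e3 := hco (400 * r) hrn
  have hl0 : (0 : ℝ) < l := by
    have : 0 < l := by omega
    exact_mod_cast this
  have hn0 : (0 : ℝ) < ((400 * r : ℕ) : ℝ) := by
    have : 0 < 400 * r := by omega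
    exact_mod_cast this
  have e4 : (l : ℝ) ^ (-(1 / 4) : ℝ) ≤ (((400 * r : ℕ) : ℕ) : ℝ) ^ (-(1 / 4) : ℝ) := by
    refine Real.rpow_le_rpow_of_nonpos hn0 ?_ (by norm_num)
    have : 400 * r ≤ l := by omega
    exact_mod_cast this
  have hpow : 0 < cr ^ (8 * (T + 1)) := by positivity
  rw [e1]
  calc c * cr ^ (8 * (T + 1)) * (l : ℝ) ^ (-(1 / 4) : ℝ) = (c * (l : ℝ) ^ (-(1 / 4) : ℝ)) * cr ^ (8 * (T + 1)) := by ring
    _ ≤ (c * ((400 * r : ℕ) : ℝ) ^ (-(1 / 4) : ℝ)) * cr ^ (8 * (T + 1)) := by gcongr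
    _ ≤ IPC.Pr (1 / 2) (FKN.bx (2 * (400 * r))) (FKN.CanO 1 ∅ FKN.S0 FKN.S0 (400 * r)) * cr ^ (8 * (T + 1)) := by gcongr
    _ ≤ _ := key.trans e2

end DimLim
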