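import Pool.Agent.Lib.MP_216314_pr.I.Low2
import Pool.Agent.Lib.MP_216314_pr.I.Low3

/-!
# `TwoLow` from the lower bound of the canonical state with a hole (`EV.wE 1 R n`)
-/

set_option autoImplicit false

noncomputable section

namespace DimLim

open Finset FKI FKP

theorem al_one : EV.al 1 = 1 / 4 := by
  unfold EV.al
  norm_num

theorem co_of_wE {R : ℕ} (hR : 1 ≤ R)
    (h : ∃ (c : ℝ) (n0 : ℕ), 0 < c ∧ ∀ n : ℕ, n0 ≤ n → c * (n : ℝ) ^ (-EV.al 1) ≤ EV.wE 1 R n) : CO := by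
  obtain ⟨c, n0, hc, h1⟩ := h
  refine ⟨c * ((1 / 2 : ℝ) ^ (FKN.Np R).card * (1 / 2 : ℝ) ^ (FKN.Nm R).card), max n0 (3 * R), by positivity, ?_⟩
  intro n hn
  have h2 := h1 n ((le_max_left _ _).trans hn)
  rw [al_one] at h2
  have h3 := FKN.co_of_wE hR ((le_max_right _ _).trans hn)
  refine le_trans ?_ h3
  have h4 : 0 ≤ ((1 / 2 : ℝ) ^ (FKN.Np R).card * (1 / 2 : ℝ) ^ (FKN.Nm R).card) := by positivity
  calc c * ((1 / 2 : ℝ) ^ (FKN.Np R).card * (1 / 2 : ℝ) ^ (FKN.Nm R).card) * (n : ℝ) ^ (-(1 / 4) : ℝ)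
      = (c * (n : ℝ) ^ (-(1 / 4) : ℝ)) * ((1 / 2 : ℝ) ^ (FKN.Np R).card * (1 / 2 : ℝ) ^ (FKN.Nm R).card) := by ring
    _ ≤ EV.wE 1 R n * ((1 / 2 : ℝ) ^ (FKN.Np R).card * (1 / 2 : ℝ) ^ (FKN.Nm R).card) :=
        mul_le_mul_of_nonneg_right h2 h4

/-- the local lower bound from the canonical state with the hole `bx R` -/
theorem twoLow_of_wE {R : ℕ} (hR : 1 ≤ R)
    (h : ∃ (c : ℝ) (n0 : ℕ), 0 < c ∧ ∀ n : ℕ, n0 ≤ n → c * (n : ℝ) ^ (-EV.al 1) ≤ EV.wE 1 R n) : TwoLow :=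
  twoLow_of_co (co_of_wE hR h)

end DimLim
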