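import Pool.Agent.Lib.MP_216314_pr.I.IVe
import Pool.Agent.Lib.MP_216314_pr.I.Low4
import Pool.Agent.Lib.MP_216314_pr.EV.DMain

/-!
# The dimension of the interface from the even arms theorem for `l = 1`
-/

set_option autoImplicit false

noncomputable section

namespace DimLim

open Finset FKI FKP

/-- the lower bound of the canonical state at the scales `10 n` gives it at all scales -/
theorem wE_low_all {l R : ℕ} (hl : 1 ≤ l)
    (h : ∃ (c : ℝ) (n1 : ℕ), 0 < c ∧ ∀ n : ℕ, n1 ≤ n → c * (n : ℝ) ^ (-EV.al l) ≤ EV.wE l R (10 * n)) :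
    ∃ (c : ℝ) (n0 : ℕ), 0 < c ∧ ∀ n : ℕ, n0 ≤ n → c * (n : ℝ) ^ (-EV.al l) ≤ EV.wE l R n := by
  obtain ⟨c, n1, hc, h1⟩ := h
  obtain ⟨C, n2, hC, h2⟩ := EV.can_out_l (l := l) (R := R) hl 20
  have ha : 0 ≤ EV.al l := by
    unfold EV.al
    have h1 : (1 : ℝ) ≤ l := by exact_mod_cast hl
    nlinarith
  refine ⟨c / C, 100 * (n1 + n2 + 1), by positivity, fun n hn => ?_⟩
  have hn0 : (0 : ℝ) < n := by
    have : 0 < n := by omega
    exact_mod_cast this
  have h3 := h1 (n / 100) (by omega)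
  have h4 := h2 (10 * (n / 100)) n (by omega) (by omega) (by omega)
  have h5 : (n : ℝ) ^ (-EV.al l) ≤ ((n / 100 : ℕ) : ℝ) ^ (-EV.al l) := by
    refine Real.rpow_le_rpow_of_nonpos ?_ ?_ (by linarith)
    · have : 0 < n / 100 := by omega
      exact_mod_cast this
    · exact_mod_cast Nat.div_le_self _ _
  rw [div_mul_eq_mul_div, div_le_iff₀ hC]
  calc c * (n : ℝ) ^ (-EV.al l) ≤ c * ((n / 100 : ℕ) : ℝ) ^ (-EV.al l) := by gcongr
    _ ≤ EV.wE l R (10 * (n / 100)) := h3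
    _ ≤ C * EV.wE l R n := h4
    _ = EV.wE l R n * C := mul_comm _ _

open MeasureTheory Filter Topology TopologicalSpace

/-- the dimension of the interface from the two inputs of the even arms theorem -/
theorem interface_of_ev (hE : EvUp) {R : ℕ} (hR : 1 ≤ R)
    (hW : ∃ (c : ℝ) (n1 : ℕ), 0 < c ∧ ∀ n : ℕ, n1 ≤ n → c * (n : ℝ) ^ (-EV.al 1) ≤ EV.wE 1 R (10 * n))
    {A B : ℝ} (hA : 0 < A) (hB : 0 < B)
    [MeasurableSpace (NonemptyCompacts (Rect A B))] [BorelSpace (NonemptyCompacts (Rect A B))]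
    {μ : ProbabilityMeasure (NonemptyCompacts (Rect A B))} {δ : ℕ → ℝ} (hδ : ∀ k, 0 < δ k)
    (hδ0 : Tendsto δ atTop (𝓝 0)) (hμ : Tendsto (fun k => law hA.le hB.le Trc (δ k)) atTop (𝓝 μ)) :
    ∀ᵐ (K : NonemptyCompacts (Rect A B)) ∂(μ : Measure (NonemptyCompacts (Rect A B))),
      dimH (K : Set (Rect A B)) = 7 / 4 :=
  interface_dim (twoUp_of_ev hE) (twoLow_of_wE hR (wE_low_all le_rfl hW)) hA hB hδ hδ0 hμ

end DimLim
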