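import Pool.Agent.Lib.MP_216314_pr.N.DExtA
import Pool.Agent.Lib.MP_216314_pr.N.E3P

/-!
# Corridors from the canonical two-arm state: downwards (open) and over the top to the right (dual)
-/

set_option autoImplicit false

noncomputable section

namespace FKN

open Finset FKI FKP

/-- the open arm goes far down -/
def FarP (H : ℤ) (η : Finset Edge) : Prop := ∃ w : V, w.2 ≤ -H ∧ (gr η).Reachable (0, 0) w

/-- the dual arm goes far to the right -/
def FarD (H : ℤ) (η : Finset Edge) : Prop := ∃ w : V, H ≤ w.1 ∧ (gr η).Reachable (0, 0) w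

theorem FarP_inc (H : ℤ) : Inc (FarP H) := by
  rintro ω ω' hs ⟨w, h1, h2⟩
  exact ⟨w, h1, h2.mono (gr_mono hs)⟩

theorem FarD_inc (H : ℤ) : Inc (FarD H) := by
  rintro ω ω' hs ⟨w, h1, h2⟩
  exact ⟨w, h1, h2.mono (gr_mono hs)⟩

/-- centres of the open corridor -/
def lo (r : ℤ) (j : ℕ) : V := (400 * r, -(4 * r * (j : ℤ)))

/-- centres of the dual corridor -/
def ld (r : ℤ) (j : ℕ) : V := (-(400 * r) + 4 * r * ((j - 100 : ℕ) : ℤ), 4 * r * ((min j 100 : ℕ) : ℤ))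

/-- circuits along a chain -/
def Ch (c : ℕ → V) (T : ℕ) (r : ℤ) : Finset (V × ℤ) := (range (T + 1)).image fun j => (c j, r)

theorem Ch_card (c : ℕ → V) (T : ℕ) (r : ℤ) : (Ch c T r).card ≤ T + 1 := by
  unfold Ch
  exact card_image_le.trans (by rw [card_range])

theorem mem_Ch {c : ℕ → V} {T : ℕ} {r : ℤ} {p : V × ℤ} : p ∈ Ch c T r ↔ ∃ j ≤ T, p = (c j, r) := by
  unfold Ch
  rw [mem_image]
  constructor
  · rintro ⟨j, hj, he⟩
    rw [mem_range] at hj
    exact ⟨j, by omega, he.symm⟩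
  · rintro ⟨j, hj, he⟩
    exact ⟨j, by rw [mem_range]; omega, he.symm⟩

theorem mem_RN_Ch {c : ℕ → V} {T : ℕ} {r : ℤ} {e : Edge} : e ∈ RN (Ch c T r) ↔ ∃ j ≤ T, e ∈ bxa (c j) (3 * r) := by
  unfold RN
  rw [mem_biUnion]
  constructor
  · rintro ⟨p, hp, he⟩
    obtain ⟨j, hj, rfl⟩ := mem_Ch.1 hp
    exact ⟨j, hj, he⟩
  · rintro ⟨j, hj, he⟩
    exact ⟨(c j, r), mem_Ch.2 ⟨j, hj, rfl⟩, he⟩

/-- from the big circuit at the start of the chain to the circuit at its end -/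
theorem Ch_link {c : ℕ → V} {T : ℕ} {r R : ℤ} (hr : 0 ≤ r) (h3 : 3 * r ≤ R)
    (hs : ∀ j < T, nrm (c (j + 1) - c j) ≤ 4 * r) {j1 : ℕ} (hj1 : j1 ≤ T) (hj : 3 * R + 3 * r ≤ nrm (c j1 - c 0))
    {η : Finset Edge} (hη : Rings (Ch c T r) η) {v : V} (hv : RP (c 0) R η v) :
    ∃ w, nrm (w - c T) ≤ 3 * r ∧ (gr η).Reachable v w := by
  have hR : ∀ j ≤ T, Ring (c j) r η := fun j hj => hη (c j, r) (mem_Ch.2 ⟨j, hj, rfl⟩)
  obtain ⟨w0, hw0⟩ := hR 0 (Nat.zero_le T)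
  obtain ⟨w, hw⟩ := hR T le_rfl
  have h0 : nrm (c 0 - c 0) = 0 := by
    rw [sub_self]
    simp [nrm]
  have e1 := chain_big hr (by omega) hs (a' := c 0) hj1 (Nat.zero_le T) hj (by rw [h0]; omega) hR hw0 hv
  have e2 := chain_reach hr hs hR hw0 T le_rfl w hw
  exact ⟨w, RP_near hr hw, e1.symm.trans e2⟩

theorem nrm_le' {v : V} {m : ℤ} : nrm v ≤ m ↔ (-m ≤ v.1 ∧ v.1 ≤ m) ∧ (-m ≤ v.2 ∧ v.2 ≤ m) := by
  unfold nrm
  rw [max_le_iff, abs_le, abs_le]

theorem le_nrm_snd {v : V} {m : ℤ} (h : m ≤ v.2 ∨ m ≤ -v.2) : m ≤ nrm v := by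
  unfold nrm
  rw [le_max_iff]
  right
  rcases h with h | h
  · exact h.trans (le_abs_self _)
  · exact h.trans (neg_le_abs _)

theorem lo_step {r : ℤ} (hr : 0 ≤ r) (j : ℕ) : nrm (lo r (j + 1) - lo r j) ≤ 4 * r := by
  rw [nrm_le']
  unfold lo
  simp only [Prod.fst_sub, Prod.snd_sub]
  push_cast
  constructor <;> constructor <;> nlinarith

theorem ld_step {r : ℤ} (hr : 0 ≤ r) (j : ℕ) : nrm (ld r (j + 1) - ld r j) ≤ 4 * r := by
  rw [nrm_le']
  unfold ld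
  simp only [Prod.fst_sub, Prod.snd_sub]
  rcases Nat.lt_or_ge j 100 with h | h
  · have e1 : (j + 1 - 100 : ℕ) = 0 := by omega
    have e2 : (j - 100 : ℕ) = 0 := by omega
    have e3 : min (j + 1) 100 = j + 1 := by omega
    have e4 : min j 100 = j := by omega
    rw [e1, e2, e3, e4]
    push_cast
    constructor <;> constructor <;> nlinarith
  · obtain ⟨i, rfl⟩ : ∃ i, j = 100 + i := ⟨j - 100, by omega⟩
    have e1 : (100 + i + 1 - 100 : ℕ) = i + 1 := by omega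
    have e2 : (100 + i - 100 : ℕ) = i := by omega
    have e3 : min (100 + i + 1) 100 = 100 := by omega
    have e4 : min (100 + i) 100 = 100 := by omega
    rw [e1, e2, e3, e4]
    push_cast
    constructor <;> constructor <;> nlinarith

/-- position of the open corridor -/
theorem lo_pos {r : ℤ} (hr : 1 ≤ r) {T : ℕ} {e : Edge} (he : e ∈ RN (Ch (lo r) T r)) :
    397 * r ≤ e.1 ∧ e.1 ≤ 403 * r ∧ e.2.1 ≤ 3 * r := by
  obtain ⟨j, hj, he⟩ := mem_RN_Ch.1 he
  have h := nrm_le'.1 (bxa_near he)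
  unfold lo at h
  simp only [Prod.fst_sub, Prod.snd_sub] at h
  have h2 : 0 ≤ 4 * r * (j : ℤ) := by positivity
  refine ⟨by linarith, by linarith, by linarith⟩

/-- position of the dual corridor -/
theorem ld_pos {r : ℤ} (hr : 1 ≤ r) {T : ℕ} {e : Edge} (he : e ∈ ud (RN (Ch (ld r) T r))) :
    -(403 * r) - 1 ≤ e.1 ∧ -(3 * r) - 1 ≤ e.2.1 ∧ e.2.1 ≤ 403 * r + 1 ∧
      (e.1 ≤ -(397 * r) + 1 ∨ 397 * r - 1 ≤ e.2.1) := by
  obtain ⟨j, hj, he⟩ := mem_RN_Ch.1 (mem_ud.1 he)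
  have h := nrm_le'.1 (ud_bxa_near (mem_ud.2 he))
  unfold ld at h
  simp only [Prod.fst_sub, Prod.snd_sub] at h
  have h2 : 0 ≤ 4 * r * ((j - 100 : ℕ) : ℤ) := by positivity
  have h3 : 0 ≤ 4 * r * ((min j 100 : ℕ) : ℤ) := by positivity
  have h4 : 4 * r * ((min j 100 : ℕ) : ℤ) ≤ 400 * r := by
    have : ((min j 100 : ℕ) : ℤ) ≤ 100 := by omega
    nlinarith
  refine ⟨by linarith, by linarith, by linarith, ?_⟩
  rcases Nat.lt_or_ge j 100 with h5 | h5
  · left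
    have e2 : (j - 100 : ℕ) = 0 := by omega
    rw [e2] at h
    push_cast at h
    linarith
  · right
    have e4 : min j 100 = 100 := by omega
    rw [e4] at h
    push_cast at h
    linarith

theorem gw_vals : gw 1 = 1 ∧ gw (1 - 2) = 0 ∧ gw 5 = -1 ∧ gw (5 - 2) = 0 := by
  have f1 : Int.fract ((-1 / 4 : ℝ)) = 3 / 4 := by
    rw [Int.fract_eq_iff]
    refine ⟨by norm_num, by norm_num, -1, by norm_num⟩
  have f2 : Int.fract ((1 / 2 : ℝ)) = 1 / 2 := by
    rw [Int.fract_eq_iff]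
    refine ⟨by norm_num, by norm_num, 0, by norm_num⟩
  have f3 : Int.fract ((1 / 4 : ℝ)) = 1 / 4 := by
    rw [Int.fract_eq_iff]
    refine ⟨by norm_num, by norm_num, 0, by norm_num⟩
  unfold gw
  refine ⟨?_, ?_, ?_, ?_⟩
  · rw [show ((1 : ℝ) - 1) / 8 = 0 by norm_num, Int.fract_zero]
    norm_num
  · rw [show ((1 : ℝ) - 2 - 1) / 8 = -1 / 4 by norm_num, f1]
    norm_num
  · rw [show ((5 : ℝ) - 1) / 8 = 1 / 2 by norm_num, f2]
    norm_num
  · rw [show ((5 : ℝ) - 2 - 1) / 8 = 1 / 4 by norm_num, f3]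
    norm_num

theorem cO_one (n : ℕ) (i : Fin 1) : cO 1 n i = ((n : ℤ), 0) := by
  obtain ⟨h1, h2, -, -⟩ := gw_vals
  have e : thO 1 i = 1 := by
    unfold thO
    have : (i : ℕ) = 0 := by omega
    rw [this]
    norm_num
  unfold cO ptR
  rw [e, h1, h2]
  simp

theorem cD_one (n : ℕ) (i : Fin 1) : cD 1 n i = (-(n : ℤ), 0) := by
  obtain ⟨-, -, h1, h2⟩ := gw_vals
  have e : thD 1 i = 5 := by
    unfold thD
    have : (i : ℕ) = 0 := by omega
    rw [this]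
    norm_num
  unfold cD ptR
  rw [e, h1, h2]
  simp
  rw [← Int.cast_natCast, ← Int.cast_neg, round_intCast]

theorem rr_one (r : ℕ) : rr 1 (400 * r) = 4 * r := by
  unfold rr
  omega

/-- the source: the origin -/
def S0 : Finset Edge → (Fin 1 → V) → Prop := nearS ![(0, 0)] 0

theorem S0_eq {η : Finset Edge} {s : Fin 1 → V} (h : S0 η s) : s 0 = (0, 0) := by
  obtain ⟨σ, hσ⟩ := h
  have h1 := hσ 0
  have h2 : σ 0 = 0 := Subsingleton.elim _ _
  rw [h2] at h1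
  have h3 := nrm_le'.1 h1
  simp only [Matrix.cons_val_zero, Prod.fst_sub, Prod.snd_sub] at h3
  ext
  · show (s 0).1 = 0
    omega
  · show (s 0).2 = 0
    omega

theorem S0_inc : IncS S0 := nearS_inc _ _

/-- the core and the end box of the open arm -/
def Kp (r : ℕ) : Finset Edge := (bx (380 * r)) ∪ bxa ((400 * r : ℕ), 0) (40 * r)

/-- the core and the end box of the dual arm -/
def Km (r : ℕ) : Finset Edge := (bx (380 * r)) ∪ ud (bxa (-((400 * r : ℕ) : ℤ), 0) (40 * r))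

theorem bxs_one (a : Fin 1 → V) (w : ℤ) : bxs a w = bxa (a 0) w := by
  unfold bxs
  ext e
  rw [mem_biUnion]
  constructor
  · rintro ⟨i, -, h⟩
    have : i = 0 := Subsingleton.elim _ _
    rw [this] at h
    exact h
  · intro h
    exact ⟨0, mem_univ _, h⟩

/-- the canonical state of two arms -/
theorem CanO_one (r : ℕ) (Sp Sm : Finset Edge → (Fin 1 → V) → Prop) :
    CanO 1 ∅ Sp Sm (400 * r) = StE (Kp r) (Km r) Sp (ringT (cO 1 (400 * r)) (4 * r : ℕ)) Sm (ringT (cD 1 (400 * r)) (4 * r : ℕ)) := by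
  have e1 : bxs (cO 1 (400 * r)) (10 * ((4 * r : ℕ) : ℤ)) = bxa ((400 * r : ℕ), 0) (40 * r) := by
    rw [bxs_one, cO_one]
    congr 1
    push_cast
    ring
  have e2 : bxs (cD 1 (400 * r)) (10 * ((4 * r : ℕ) : ℤ)) = bxa (-((400 * r : ℕ) : ℤ), 0) (40 * r) := by
    rw [bxs_one, cD_one]
    congr 1
    push_cast
    ring
  have e3 : 400 * r - 5 * (4 * r) = 380 * r := by omega
  funext ω
  unfold CanO
  rw [rr_one, e1, e2, e3, sdiff_empty]
  rfl

theorem bx_near' {k : ℕ} {e : Edge} (he : e ∈ bx k) : (-(k : ℤ) ≤ e.1 ∧ e.1 ≤ k) ∧ (-(k : ℤ) ≤ e.2.1 ∧ e.2.1 ≤ k) := by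
  unfold bx at he
  rw [mem_box] at he
  rcases he with ⟨_, h1, h2, h3, h4⟩ | ⟨_, h1, h2, h3, h4⟩
  · exact ⟨⟨h1, h2.le⟩, ⟨h3, h4⟩⟩
  · exact ⟨⟨h1, h2⟩, ⟨h3, h4.le⟩⟩

theorem Kp_pos {r : ℕ} {e : Edge} (he : e ∈ Kp r) : (-(380 * r : ℤ) ≤ e.1 ∧ e.1 ≤ 440 * r) ∧
    (-(380 * r : ℤ) ≤ e.2.1 ∧ e.2.1 ≤ 380 * r) := by
  rcases mem_union.1 he with h | h
  · have h1 := bx_near' h
    push_cast at h1
    omega
  · have h1 := nrm_le'.1 (bxa_near h)
    simp only [Prod.fst_sub, Prod.snd_sub] at h1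
    push_cast at h1
    omega

theorem Km_pos {r : ℕ} {e : Edge} (he : e ∈ Km r) : (-(440 * r : ℤ) - 1 ≤ e.1 ∧ e.1 ≤ 380 * r + 1) ∧
    (-(380 * r : ℤ) - 1 ≤ e.2.1 ∧ e.2.1 ≤ 380 * r + 1) := by
  rcases mem_union.1 he with h | h
  · have h1 := bx_near' h
    push_cast at h1
    omega
  · have h1 := nrm_le'.1 (ud_bxa_near h)
    simp only [Prod.fst_sub, Prod.snd_sub] at h1
    push_cast at h1
    omega

/-- the regions of the arms with their corridors -/
def Gp (r T : ℕ) : Finset Edge := Kp r ∪ RN (Ch (lo r) T r)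
def Gm (r T : ℕ) : Finset Edge := Km r ∪ ud (RN (Ch (ld r) T r))

theorem ld_last (r : ℤ) (i : ℕ) : ld r (100 + i) = (-(400 * r) + 4 * r * (i : ℤ), 400 * r) := by
  unfold ld
  have e1 : (100 + i - 100 : ℕ) = i := by omega
  have e4 : min (100 + i) 100 = 100 := by omega
  rw [e1, e4]
  ext
  · rfl
  · show 4 * r * ((100 : ℕ) : ℤ) = 400 * r
    push_cast
    ring

theorem link_lo {r T : ℕ} (hr : 1 ≤ r) (hT : T = 6100) (η : Finset Edge) (h : StG S0 (ringT (cO 1 (400 * r)) (4 * r : ℕ)) η)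
    (hR : Rings (Ch (lo r) T r) η) : FarP (23000 * r) η := by
  obtain ⟨s, v, hs, hv, hc⟩ := h
  have h0 : lo (r : ℤ) 0 = cO 1 (400 * r) 0 := by
    rw [cO_one]
    unfold lo
    push_cast
    simp
  have h1 : RP (lo (r : ℤ) 0) ((4 * r : ℕ) : ℤ) η (v 0) := by
    rw [h0]
    exact hv 0
  obtain ⟨w, hw1, hw2⟩ := Ch_link (c := lo r) (T := T) (r := r) (R := ((4 * r : ℕ) : ℤ)) (by omega) (by push_cast; omega)
    (fun j _ => lo_step (by omega) j) (j1 := 100) (by omega) (by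
      refine le_nrm_snd (Or.inr ?_)
      unfold lo
      simp only [Prod.snd_sub]
      push_cast
      omega) hR h1
  refine ⟨w, ?_, ?_⟩
  · have h2 := (nrm_le'.1 hw1).2.2
    unfold lo at h2
    rw [hT] at h2
    simp only [Prod.snd_sub] at h2
    push_cast at h2
    omega
  · have h3 := hc 0
    rw [S0_eq hs] at h3
    exact h3.trans hw2

theorem le_nrm_fst {v : V} {m : ℤ} (h : m ≤ v.1 ∨ m ≤ -v.1) : m ≤ nrm v := by
  unfold nrm
  rw [le_max_iff]
  left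
  rcases h with h | h
  · exact h.trans (le_abs_self _)
  · exact h.trans (neg_le_abs _)

theorem link_ld {r T : ℕ} (hr : 1 ≤ r) (hT : T = 6100) (η : Finset Edge) (h : StG S0 (ringT (cD 1 (400 * r)) (4 * r : ℕ)) η)
    (hR : Rings (Ch (ld r) T r) η) : FarD (23000 * r) η := by
  obtain ⟨s, v, hs, hv, hc⟩ := h
  have h0 : ld (r : ℤ) 0 = cD 1 (400 * r) 0 := by
    rw [cD_one]
    unfold ld
    push_cast
    simp
  have h1 : RP (ld (r : ℤ) 0) ((4 * r : ℕ) : ℤ) η (v 0) := by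
    rw [h0]
    exact hv 0
  obtain ⟨w, hw1, hw2⟩ := Ch_link (c := ld r) (T := T) (r := r) (R := ((4 * r : ℕ) : ℤ)) (by omega) (by push_cast; omega)
    (fun j _ => ld_step (by omega) j) (j1 := 100 + 0) (by omega) (by
      refine le_nrm_snd (Or.inl ?_)
      rw [ld_last, h0, cD_one]
      simp only [Prod.snd_sub]
      push_cast
      omega) hR h1
  refine ⟨w, ?_, ?_⟩
  · have h2 := (nrm_le'.1 hw1).1.1
    rw [hT, show 6100 = 100 + 6000 by norm_num, ld_last] at h2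
    simp only [Prod.fst_sub] at h2
    push_cast at h2
    omega
  · have h3 := hc 0
    rw [S0_eq hs] at h3
    exact h3.trans hw2

/-- extension of the canonical state of two arms -/
theorem corr {c : ℝ} (hc : 0 < c) (hc1 : c ≤ 1) {r T : ℕ} (hr : 1 ≤ r) (hT : T = 6100) (hRB : RB c (1 / 2) r) {E : Finset Edge}
    (hE : Gp r T ∪ Gm r T ⊆ E) :
    IPC.Pr (1 / 2) (bx (2 * (400 * r))) (CanO 1 ∅ S0 S0 (400 * r)) * c ^ (8 * (T + 1)) ≤
      IPC.Pr (1 / 2) E (fun ω => FarP (23000 * r) (ω ∩ Gp r T) ∧ FarD (23000 * r) (dc (Gm r T) ω)) := by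
  have hGp : Gp r T ⊆ E := subset_union_left.trans hE
  have hGm : Gm r T ⊆ E := subset_union_right.trans hE
  have hKp : Kp r ⊆ E := subset_union_left.trans hGp
  have hKm : Km r ⊆ E := subset_union_left.trans hGm
  have hreg := CanO_region (l := 1) le_rfl ∅ (400 * r) (empty_subset _)
  have hR0 : (0 : ℤ) < r := by exact_mod_cast hr
  have hr1 : (1 : ℤ) ≤ r := by exact_mod_cast hr
  have d1 : Disjoint (RN (Ch (lo r) T r)) (Km r) := by
    rw [disjoint_left]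
    intro e h1 h2
    have h3 := lo_pos hr1 h1
    have h4 := Km_pos h2
    omega
  have d2 : Disjoint (ud (RN (Ch (ld r) T r))) (Kp r) := by
    rw [disjoint_left]
    intro e h1 h2
    have h3 := ld_pos hr1 h1
    rcases mem_union.1 h2 with h | h
    · have h5 := bx_near' h
      push_cast at h5
      omega
    · have h5 := nrm_le'.1 (bxa_near h)
      simp only [Prod.fst_sub, Prod.snd_sub] at h5
      push_cast at h5
      omega
  have d3 : Disjoint (RN (Ch (lo r) T r)) (ud (RN (Ch (ld r) T r))) := by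
    rw [disjoint_left]
    intro e h1 h2
    have h3 := lo_pos hr1 h1
    have h4 := ld_pos hr1 h2
    omega
  have key := ext_rings hc hc1 (by norm_num) (by norm_num) hRB (E := E) (Fp := Kp r) (Fm := Km r)
    (Lp := Ch (lo r) T r) (Lm := Ch (ld r) T r) (M := T + 1)
    (Ch_card _ _ _) (Ch_card _ _ _)
    (fun p hp => by
      obtain ⟨j, -, rfl⟩ := mem_Ch.1 hp
      exact ⟨hr1, le_rfl⟩)
    (fun p hp => by
      obtain ⟨j, -, rfl⟩ := mem_Ch.1 hp
      exact ⟨hr1, le_rfl⟩)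
    hKp hKm (subset_union_right.trans hGp) (subset_union_right.trans hGm) d1 d2 d3
    (A := StG S0 (ringT (cO 1 (400 * r)) (4 * r : ℕ))) (A' := FarP (23000 * r))
    (D := StG S0 (ringT (cD 1 (400 * r)) (4 * r : ℕ))) (D' := FarD (23000 * r))
    (StG_inc S0_inc (ringT_inc _ _)) (StG_inc S0_inc (ringT_inc _ _)) (FarP_inc _) (FarD_inc _)
    (link_lo hr hT) (link_ld hr hT)
  have e1 : IPC.Pr (1 / 2) (bx (2 * (400 * r))) (CanO 1 ∅ S0 S0 (400 * r)) =
      IPC.Pr (1 / 2) E (StE (Kp r) (Km r) S0 (ringT (cO 1 (400 * r)) (4 * r : ℕ)) S0 (ringT (cD 1 (400 * r)) (4 * r : ℕ))) := by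
    rw [CanO_one]
    refine pr_StE _ _ _ _ _ ?_ (union_subset hKp hKm)
    intro e he
    refine hreg ?_
    rw [rr_one, sdiff_empty, bxs_one, bxs_one, cO_one, cD_one]
    have e3 : 400 * r - 5 * (4 * r) = 380 * r := by omega
    have e4 : (10 * ((4 * r : ℕ) : ℤ)) = 40 * r := by
      push_cast
      ring
    rw [e3, e4]
    exact he
  rw [e1]
  exact key

end FKN
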