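import Pool.Agent.Lib.MP_216314_pr.I.Low1
import Pool.Agent.Lib.MP_216314_pr.I.IVb
import Pool.Agent.Lib.MP_216314_pr.EV.Def

/-!
# Two arms from the origin: filling the hole

`co_of_wE`: the arms from the seeds of the hole `bx R` (`l = 1`) are continued to the vertex `(0,0)` and to the face `(0,0)` by a fixed
configuration inside the hole.
-/

set_option autoImplicit false

noncomputable section

namespace FKN

open Finset FKI FKP

theorem pr_all (E : Finset Edge) : (1 / 2 : ℝ) ^ E.card ≤ IPC.Pr (1 / 2) E (fun ω => E ⊆ ω) := by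
  classical
  have h : (1 / 2 : ℝ) ^ E.card ≤ FKP.Pr E (fun ω => E ⊆ ω) := by
    unfold FKP.Pr
    rw [one_div, inv_pow, inv_eq_one_div]
    refine div_le_div_of_nonneg_right ?_ (by positivity)
    rw [Nat.one_le_cast, Nat.one_le_iff_ne_zero, ← Nat.pos_iff_ne_zero, card_pos]
    refine ⟨E, ?_⟩
    simp
  rw [pr_half] at h
  exact h

/-- the open path in the hole -/
def Np (R : ℕ) : Finset Edge := box 0 0 0 1 ∪ (box 0 R 1 1 ∪ box R R 0 1)

/-- the dual path in the hole -/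
def Nm (R : ℕ) : Finset Edge := box 0 0 (-1) 0 ∪ box 0 R (-1) (-1)

theorem Np_reach {R : ℕ} {η : Finset Edge} (h : Np R ⊆ η) : (gr η).Reachable (0, 0) ((R : ℤ), 0) := by
  have h1 : (gr η).Reachable (0, 0) (0, 1) :=
    (DimLim.box_reach (x1 := 0) (x2 := 0) (y1 := 0) (y2 := 1) (by simp) (by simp)).mono
      (gr_mono (subset_union_left.trans h))
  have h2 : (gr η).Reachable (0, 1) ((R : ℤ), 1) :=
    (DimLim.box_reach (x1 := 0) (x2 := R) (y1 := 1) (y2 := 1) (by simp) (by simp)).mono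
      (gr_mono ((subset_union_left.trans subset_union_right).trans h))
  have h3 : (gr η).Reachable ((R : ℤ), 1) ((R : ℤ), 0) :=
    (DimLim.box_reach (x1 := R) (x2 := R) (y1 := 0) (y2 := 1) (by simp) (by simp)).mono
      (gr_mono ((subset_union_right.trans subset_union_right).trans h))
  exact (h1.trans h2).trans h3

theorem Nm_reach {R : ℕ} {η : Finset Edge} (h : Nm R ⊆ η) : (gr η).Reachable (0, 0) ((R : ℤ), -1) := by
  have h1 : (gr η).Reachable (0, 0) (0, -1) :=
    (DimLim.box_reach (x1 := 0) (x2 := 0) (y1 := -1) (y2 := 0) (by simp) (by simp)).mono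
      (gr_mono (subset_union_left.trans h))
  have h2 : (gr η).Reachable (0, -1) ((R : ℤ), -1) :=
    (DimLim.box_reach (x1 := 0) (x2 := R) (y1 := -1) (y2 := -1) (by simp) (by simp)).mono
      (gr_mono (subset_union_right.trans h))
  exact h1.trans h2

theorem Np_sub {R : ℕ} (hR : 1 ≤ R) : Np R ⊆ bx R := by
  unfold Np bx
  refine union_subset ?_ (union_subset ?_ ?_) <;> exact box_mono (by omega) (by omega) (by omega) (by omega)

theorem mem_Nm {R : ℕ} {e : Edge} (he : e ∈ ud (Nm R)) : e = (0, 0, false) ∨ (e.2.2 = true ∧ 1 ≤ e.1 ∧ e.1 ≤ R ∧ e.2.1 = -1) := by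
  rw [mem_ud] at he
  obtain ⟨x, y, t⟩ := e
  unfold Nm at he
  rw [mem_union, mem_box, mem_box] at he
  cases t
  · have e1 : dl (x, y, false) = (x, y - 1, true) := rfl
    rw [e1] at he
    simp only at he
    left
    rcases he with (⟨h0, -⟩ | ⟨-, h3, h4, h5, h6⟩) | (⟨h0, -⟩ | ⟨-, h3, h4, h5, h6⟩)
    · exact absurd h0 (by simp)
    · have h1 : x = 0 := by omega
      have h2 : y = 0 := by omega
      rw [h1, h2]
    · exact absurd h0 (by simp)
    · omega
  · have e1 : dl (x, y, true) = (x - 1, y, false) := rfl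
    rw [e1] at he
    simp only at he
    right
    rcases he with (⟨-, h3, h4, h5, h6⟩ | ⟨h0, -⟩) | (⟨-, h3, h4, h5, h6⟩ | ⟨h0, -⟩)
    · omega
    · exact absurd h0 (by simp)
    · refine ⟨rfl, ?_, ?_, ?_⟩
      · show 1 ≤ x
        omega
      · show x ≤ R
        omega
      · show y = -1
        omega
    · exact absurd h0 (by simp)

theorem Nm_sub {R : ℕ} (hR : 1 ≤ R) : ud (Nm R) ⊆ bx R := by
  intro e he
  unfold bx
  rw [mem_box]
  rcases mem_Nm he with rfl | ⟨h0, h1, h2, h3⟩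
  · left
    refine ⟨rfl, ?_, ?_, ?_, ?_⟩
    · show -(R : ℤ) ≤ 0
      omega
    · show (0 : ℤ) < R
      omega
    · show -(R : ℤ) ≤ 0
      omega
    · show (0 : ℤ) ≤ R
      omega
  · right
    exact ⟨h0, by omega, h2, by omega, by omega⟩

theorem Np_Nm (R : ℕ) : Disjoint (Np R) (ud (Nm R)) := by
  rw [disjoint_left]
  intro e h1 h2
  unfold Np at h1
  rw [mem_union, mem_union, mem_box, mem_box, mem_box] at h1
  rcases mem_Nm h2 with rfl | ⟨h0, h3, h4, h5⟩
  · simp only [Bool.false_eq_true, false_and, or_false, true_and] at h1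
    omega
  · rw [h0] at h1
    simp only [Bool.true_eq_false, false_and, false_or, true_and] at h1
    omega

theorem sub_dep (N : Finset Edge) : Dep N (fun ω => N ⊆ ω) := by
  intro ω
  constructor
  · intro h
    exact subset_inter h (Finset.Subset.refl _)
  · intro h
    exact h.trans inter_subset_left

theorem sub_inc (N : Finset Edge) : Inc (fun ω => N ⊆ ω) := fun _ _ h1 h2 => h2.trans h1

theorem src_p {R : ℕ} {η : Finset Edge} {s : Fin 1 → V} (h : EV.SpE 1 R η s) : s 0 = ((R : ℤ), 0) := by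
  obtain ⟨σ, hσ⟩ := h
  have h1 := hσ 0
  have h2 : σ 0 = 0 := Subsingleton.elim _ _
  rw [h2] at h1
  have h3 := nrm_le'.1 h1
  have e1 : EV.sv 1 R 0 = ((R : ℤ), 0) := by
    unfold EV.sv EV.hr
    simp
  rw [e1] at h3
  simp only [Prod.fst_sub, Prod.snd_sub] at h3
  ext
  · show (s 0).1 = R
    omega
  · show (s 0).2 = 0
    omega

theorem src_m {R : ℕ} {η : Finset Edge} {s : Fin 1 → V} (h : EV.SmE 1 R η s) : s 0 = ((R : ℤ), -1) := by
  obtain ⟨σ, hσ⟩ := h
  have h1 := hσ 0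
  have h2 : σ 0 = 0 := Subsingleton.elim _ _
  rw [h2] at h1
  have h3 := nrm_le'.1 h1
  have e1 : EV.sf 1 R 0 = ((R : ℤ), -1) := by
    unfold EV.sf EV.hr
    simp
  rw [e1] at h3
  simp only [Prod.fst_sub, Prod.snd_sub] at h3
  ext
  · show (s 0).1 = R
    omega
  · show (s 0).2 = -1
    omega

theorem S0_mk (η : Finset Edge) : S0 η (fun _ => (0, 0)) := by
  refine ⟨Equiv.refl _, fun i => ?_⟩
  have : i = 0 := Subsingleton.elim _ _
  subst this
  simp [nrm]

theorem hole_p {R : ℕ} {T : Finset Edge → (Fin 1 → V) → Prop} (η : Finset Edge)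
    (h : StG (EV.SpE 1 R) T η) (hN : Np R ⊆ η) : StG S0 T η := by
  obtain ⟨s, v, hs, hv, hc⟩ := h
  refine ⟨fun _ => (0, 0), v, S0_mk η, hv, fun i => ?_⟩
  have hi : i = 0 := Subsingleton.elim _ _
  subst hi
  have h1 := hc 0
  rw [src_p hs] at h1
  exact (Np_reach hN).trans h1

theorem hole_m {R : ℕ} {T : Finset Edge → (Fin 1 → V) → Prop} (η : Finset Edge)
    (h : StG (EV.SmE 1 R) T η) (hN : Nm R ⊆ η) : StG S0 T η := by
  obtain ⟨s, v, hs, hv, hc⟩ := h
  refine ⟨fun _ => (0, 0), v, S0_mk η, hv, fun i => ?_⟩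
  have hi : i = 0 := Subsingleton.elim _ _
  subst hi
  have h1 := hc 0
  rw [src_m hs] at h1
  exact (Nm_reach hN).trans h1

/-- filling the hole -/
theorem co_of_wE {R n : ℕ} (hR : 1 ≤ R) (hn : 3 * R ≤ n) :
    EV.wE 1 R n * ((1 / 2 : ℝ) ^ (Np R).card * (1 / 2 : ℝ) ^ (Nm R).card) ≤
      IPC.Pr (1 / 2) (bx (2 * n)) (CanO 1 ∅ S0 S0 n) := by
  have hrr : 100 * rr 1 n ≤ n := by
    unfold rr
    omega
  have hRn : bx R ⊆ bx n := by
    unfold bx
    exact box_mono (by omega) (by omega) (by omega) (by omega)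
  have hRk : bx R ⊆ bx (n - 5 * rr 1 n) := by
    have h' : R ≤ n - 5 * rr 1 n := by omega
    unfold bx
    exact box_mono (by omega) (by omega) (by omega) (by omega)
  have hreg := CanO_region (l := 1) le_rfl (bx R) n hRn
  have hR2 : bx R ⊆ bx (2 * n) := by
    unfold bx
    exact box_mono (by omega) (by omega) (by omega) (by omega)
  obtain ⟨Fp, hFp⟩ : ∃ F, F = (bx (n - 5 * rr 1 n) \ bx R) ∪ bxs (cO 1 n) (10 * rr 1 n) := ⟨_, rfl⟩
  obtain ⟨Fm, hFm⟩ : ∃ F, F = (bx (n - 5 * rr 1 n) \ bx R) ∪ ud (bxs (cD 1 n) (10 * rr 1 n)) := ⟨_, rfl⟩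
  have dd : Disjoint (bx R) Fm := by
    rw [disjoint_left]
    intro e h1 h2
    rw [hFm, mem_union, mem_sdiff] at h2
    rcases h2 with h2 | h2
    · exact h2.2 h1
    · rw [bxs_one, cD_one] at h2
      have h3 := nrm_le'.1 (ud_bxa_near h2)
      have h4 := bx_near' h1
      simp only [Prod.fst_sub, Prod.snd_sub] at h3
      omega
  have dp : Disjoint (bx R) Fp := by
    rw [disjoint_left]
    intro e h1 h2
    rw [hFp, mem_union, mem_sdiff] at h2
    rcases h2 with h2 | h2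
    · exact h2.2 h1
    · rw [bxs_one, cO_one] at h2
      have h3 := nrm_le'.1 (bxa_near h2)
      have h4 := bx_near' h1
      simp only [Prod.fst_sub, Prod.snd_sub] at h3
      omega
  have hFp2 : Fp ⊆ bx (2 * n) := by
    rw [hFp]
    exact subset_union_left.trans hreg
  have hFm2 : Fm ⊆ bx (2 * n) := by
    rw [hFm]
    exact subset_union_right.trans hreg
  have key := ext_abs (q := 1 / 2) (by norm_num) (by norm_num) (E := bx (2 * n)) (Fp := Fp) (Fm := Fm) (Np := Np R) (Nm := Nm R)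
    hFp2 hFm2 ((Np_sub hR).trans hR2) ((Nm_sub hR).trans hR2)
    (Finset.disjoint_of_subset_left (Np_sub hR) dd) (Finset.disjoint_of_subset_left (Nm_sub hR) dp) (Np_Nm R)
    (A := StG (EV.SpE 1 R) (ringT (cO 1 n) (rr 1 n))) (A' := StG S0 (ringT (cO 1 n) (rr 1 n)))
    (B := fun ω => Np R ⊆ ω) (D := StG (EV.SmE 1 R) (ringT (cD 1 n) (rr 1 n))) (D' := StG S0 (ringT (cD 1 n) (rr 1 n)))
    (B' := fun ω => Nm R ⊆ ω)
    (StG_inc (nearS_inc _ _) (ringT_inc _ _)) (sub_inc _) (StG_inc (nearS_inc _ _) (ringT_inc _ _)) (sub_inc _)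
    (StG_inc S0_inc (ringT_inc _ _)) (StG_inc S0_inc (ringT_inc _ _)) (sub_dep _) (sub_dep _)
    (fun η h1 h2 => hole_p η h1 h2) (fun η h1 h2 => hole_m η h1 h2)
  have e1 : IPC.Pr (1 / 2) (bx (2 * n)) (fun ω => StG (EV.SpE 1 R) (ringT (cO 1 n) (rr 1 n)) (ω ∩ Fp) ∧
      StG (EV.SmE 1 R) (ringT (cD 1 n) (rr 1 n)) (dc Fm ω)) = EV.wE 1 R n := by
    rw [hFp, hFm]
    rfl
  rw [e1] at key
  have e2 : IPC.Pr (1 / 2) (bx (2 * n)) (fun ω => StG S0 (ringT (cO 1 n) (rr 1 n)) (ω ∩ (Fp ∪ Np R)) ∧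
      StG S0 (ringT (cD 1 n) (rr 1 n)) (dc (Fm ∪ ud (Nm R)) ω)) ≤ IPC.Pr (1 / 2) (bx (2 * n)) (CanO 1 ∅ S0 S0 n) := by
    refine pr_StE_mono (by norm_num) (by norm_num) S0_inc (ringT_inc _ _) S0_inc (ringT_inc _ _) ?_ ?_
    · rw [hFp, sdiff_empty]
      refine union_subset (union_subset_union sdiff_subset (Finset.Subset.refl _)) ?_
      exact ((Np_sub hR).trans hRk).trans subset_union_left
    · rw [hFm, sdiff_empty]
      refine union_subset (union_subset_union sdiff_subset (Finset.Subset.refl _)) ?_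
      exact ((Nm_sub hR).trans hRk).trans subset_union_left
  have e3 := key.trans e2
  have h12 : (1 - 1 / 2 : ℝ) = 1 / 2 := by norm_num
  rw [h12] at e3
  have a1 := pr_all (Np R)
  have a2 := pr_all (Nm R)
  have a0 : 0 ≤ EV.wE 1 R n := pq_nonneg (by norm_num) (by norm_num) _ _
  refine le_trans ?_ e3
  rw [← mul_assoc]
  have b1 : (0 : ℝ) ≤ (1 / 2 : ℝ) ^ (Np R).card := by positivity
  have b2 : (0 : ℝ) ≤ (1 / 2 : ℝ) ^ (Nm R).card := by positivity
  exact mul_le_mul (mul_le_mul_of_nonneg_left a1 a0) a2 b2 (mul_nonneg a0 (b1.trans a1))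

end FKN
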